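import Pool.Agent.W_420c7c_h88.Defs

set_option autoImplicit false
open Polynomial

namespace Pool.Agent.W_420c7c_h88

/-- Condition (C) makes `n` introspective for every root of unity of order `r ≤ log₂² n`
in a field of characteristic `p ∣ n`. -/
theorem intro_n {n p : ℕ} (h : CondC n) (hpn : p ∣ n) {F : Type*} [Field F] [CharP F p]
    {z : F} {r : ℕ} (hr : 1 ≤ r) (hrL : (r : ℝ) ≤ (Real.logb 2 (n : ℝ)) ^ 2) (hz : z ^ r = 1) :
    Intro z n := by
  intro a
  obtain ⟨q, hq⟩ := h r hr hrL
  have h1 := congrArg (Polynomial.eval₂ (ZMod.castHom hpn F) (z ^ a)) hq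
  simp only [Polynomial.eval₂_sub, Polynomial.eval₂_mul, Polynomial.eval₂_pow,
    Polynomial.eval₂_add, Polynomial.eval₂_one, Polynomial.eval₂_X] at h1
  rw [← pow_mul z a r, mul_comm a r, pow_mul, hz, one_pow, sub_self, zero_mul, sub_eq_zero] at h1
  rw [h1, ← pow_mul]

theorem intro_one {F : Type*} [Field F] (z : F) : Intro z 1 := by
  intro a; simp

theorem intro_p {p : ℕ} [Fact p.Prime] {F : Type*} [Field F] [CharP F p] (z : F) :
    Intro z p := by
  intro a
  rw [add_pow_char, one_pow, ← pow_mul]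

theorem intro_mul {F : Type*} [Field F] {z : F} {u v : ℕ} (hu : Intro z u) (hv : Intro z v) :
    Intro z (u * v) := by
  intro a
  rw [pow_mul, hu a, hv (a * u), mul_assoc]

theorem intro_pow {F : Type*} [Field F] {z : F} {u : ℕ} (hu : Intro z u) (j : ℕ) :
    Intro z (u ^ j) := by
  induction j with
  | zero => simpa using intro_one z
  | succ j ih => rw [pow_succ]; exact intro_mul ih hu

theorem intro_div {p m : ℕ} [Fact p.Prime] {F : Type*} [Field F] [CharP F p] {z : F}
    (h : Intro z (p * m)) : Intro z m := by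
  intro a
  have h1 := h a
  have h2 : ((1 + z ^ a) ^ m) ^ p = (1 + z ^ (a * m)) ^ p := by
    rw [← pow_mul, mul_comm m p, h1, add_pow_char, one_pow, ← pow_mul]
    congr 2; ring
  exact frobenius_inj F p (by simpa [frobenius_def] using h2)

/-- `val` and introspection -/
theorem val_pow {F : Type*} [Field F] {z : F} {u : ℕ} (hu : Intro z u) {g : ℕ}
    (e : Fin g → ℕ) : val z e ^ u = val (z ^ u) e := by
  unfold val
  rw [← Finset.prod_pow]
  refine Finset.prod_congr rfl fun i _ => ?_
  rw [← pow_mul, mul_comm (e i) u, pow_mul, hu, ← pow_mul z u, mul_comm u]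

end Pool.Agent.W_420c7c_h88
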