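import Pool.Agent.W_420c7c_h88.Indep

set_option autoImplicit false
open Polynomial

namespace Pool.Agent.W_420c7c_h88

/-! ### Auxiliary lemmas -/

/-- Products over the units modulo `2^(k+2)` are products over the primitive roots. -/
lemma nb_prod_units (k : ℕ) {M : Type*} [CommMonoid M] (F : ℂ → M) :
    ∏ u : (ZMod (2 ^ (k + 2)))ˣ, F (zc k ^ (u : ZMod (2 ^ (k + 2))).val) =
      ∏ w ∈ primitiveRoots (2 ^ (k + 2)) ℂ, F w := by
  have hr : 0 < 2 ^ (k + 2) := by positivity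
  have : NeZero (2 ^ (k + 2)) := ⟨hr.ne'⟩
  have hz := zc_prim k
  refine Finset.prod_bij (fun u _ => zc k ^ (u : ZMod (2 ^ (k + 2))).val) ?_ ?_ ?_ ?_
  · intro u _
    rw [mem_primitiveRoots hr]
    exact hz.pow_of_coprime _ (ZMod.val_coe_unit_coprime u)
  · intro u _ v _ h
    have h1 := hz.pow_inj (ZMod.val_lt _) (ZMod.val_lt _) h
    exact Units.ext (ZMod.val_injective _ h1)
  · intro w hw
    rw [mem_primitiveRoots hr, hz.isPrimitiveRoot_iff] at hw
    obtain ⟨i, hi, hic, rfl⟩ := hw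
    refine ⟨ZMod.unitOfCoprime i hic, Finset.mem_univ _, ?_⟩
    rw [ZMod.coe_unitOfCoprime, ZMod.val_natCast, Nat.mod_eq_of_lt hi]
  · intro u _
    rfl

/-- The product of the values of an integer polynomial at the primitive roots is an integer. -/
lemma nb_prod_int (k : ℕ) (S : ℤ[X]) :
    ∃ N : ℤ, ∏ w ∈ primitiveRoots (2 ^ (k + 2)) ℂ, aeval w S = (N : ℂ) := by
  have hr : 0 < 2 ^ (k + 2) := by positivity
  have : NeZero ((2 ^ (k + 2) : ℕ) : ℂ) := ⟨by exact_mod_cast hr.ne'⟩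
  set f : ℤ[X] := cyclotomic (2 ^ (k + 2)) ℤ with hf
  have hmap : f.map (Int.castRingHom ℂ) = cyclotomic (2 ^ (k + 2)) ℂ := map_cyclotomic _ _
  have h1 := resultant_eq_prod_eval (f.map (Int.castRingHom ℂ)) (S.map (Int.castRingHom ℂ))
    S.natDegree natDegree_map_le (IsAlgClosed.splits _)
  rw [resultant_map_map, hmap, (cyclotomic.monic _ ℂ).leadingCoeff, one_pow, one_mul,
    cyclotomic.roots_eq_primitiveRoots_val] at h1
  refine ⟨_, Eq.trans ?_ h1.symm⟩
  rw [Finset.prod]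
  congr 1
  refine Multiset.map_congr rfl fun w _ => ?_
  rw [eval_map, aeval_def]
  rfl

/-- In characteristic `p`: a polynomial with integer coefficients that vanishes at all primitive
roots is `Φ Q + p S`. -/
lemma nb_decomp (p k : ℕ) {F : Type*} [Field F] [CharP F p]
    {z : F} (hz : IsPrimitiveRoot z (2 ^ (k + 2))) (P : ℤ[X])
    (hP : ∀ u : ℕ, Odd u → Polynomial.aeval (z ^ u) P = 0) :
    ∃ Q S : ℤ[X], P = cyclotomic (2 ^ (k + 2)) ℤ * Q + C (p : ℤ) * S := by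
  have hr : 0 < 2 ^ (k + 2) := by positivity
  have : NeZero (2 ^ (k + 2)) := ⟨hr.ne'⟩
  set Φ : ℤ[X] := cyclotomic (2 ^ (k + 2)) ℤ with hΦ
  have hmon : Φ.Monic := cyclotomic.monic _ _
  have hmap : Φ.map (Int.castRingHom F) = cyclotomic (2 ^ (k + 2)) F := map_cyclotomic _ _
  have hdvd : Φ.map (Int.castRingHom F) ∣ P.map (Int.castRingHom F) := by
    rw [hmap, cyclotomic_eq_prod_X_sub_primitiveRoots hz]
    refine Finset.prod_dvd_of_coprime ?_ ?_
    · intro a _ b _ hab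
      exact pairwise_coprime_X_sub_C (s := fun x : F => x) (fun _ _ h => h) hab
    · intro w hw
      rw [mem_primitiveRoots hr, hz.isPrimitiveRoot_iff] at hw
      obtain ⟨i, -, hic, rfl⟩ := hw
      rw [dvd_iff_isRoot, IsRoot, eval_map]
      have hodd : Odd i := by
        rw [← Nat.not_even_iff_odd]
        intro he
        have h2 : 2 ∣ Nat.gcd i (2 ^ (k + 2)) :=
          Nat.dvd_gcd he.two_dvd (dvd_pow_self 2 (by omega))
        rw [hic.gcd_eq_one] at h2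
        omega
      have h3 := hP i hodd
      rwa [aeval_def] at h3
  have h0 : (P %ₘ Φ).map (Int.castRingHom F) = 0 := by
    rw [map_modByMonic _ hmon, modByMonic_eq_zero_iff_dvd (hmon.map _)]
    exact hdvd
  have h1 : C (p : ℤ) ∣ P %ₘ Φ := by
    rw [C_dvd_iff_dvd_coeff]
    intro i
    have h2 := congrArg (fun q => q.coeff i) h0
    simp only [coeff_map, coeff_zero] at h2
    rw [← CharP.intCast_eq_zero_iff F p]
    simpa using h2
  obtain ⟨S, hS⟩ := h1
  refine ⟨P /ₘ Φ, S, ?_⟩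
  rw [← hS, add_comm]
  exact (modByMonic_add_div P Φ).symm

lemma nb_card (k : ℕ) : Fintype.card (ZMod (2 ^ (k + 2)))ˣ = 2 ^ (k + 1) := by
  have : NeZero (2 ^ (k + 2)) := ⟨by positivity⟩
  rw [ZMod.card_units_eq_totient, Nat.totient_prime_pow_succ Nat.prime_two]
  simp

lemma nb_card' (k : ℕ) : (primitiveRoots (2 ^ (k + 2)) ℂ).card = 2 ^ (k + 1) := by
  rw [(zc_prim k).card_primitiveRoots, Nat.totient_prime_pow_succ Nat.prime_two]
  simp

lemma nb_zc_pow_mod (k a b : ℕ) (h : (a : ZMod (2 ^ (k + 2))) = b) : zc k ^ a = zc k ^ b := by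
  rw [ZMod.natCast_eq_natCast_iff'] at h
  have hz := zc_prim k
  rw [← pow_mod_orderOf, ← hz.eq_orderOf, h, hz.eq_orderOf, pow_mod_orderOf]

/-- The product of `1 + ω` over the primitive roots is `2`. -/
lemma nb_prod_one_add (k : ℕ) :
    ∏ w ∈ primitiveRoots (2 ^ (k + 2)) ℂ, ‖(1 : ℂ) + w‖ = 2 := by
  have h1 := congrArg (eval (-1 : ℂ)) (cyclotomic_eq_prod_X_sub_primitiveRoots (zc_prim k))
  have h2 : eval (-1 : ℂ) (cyclotomic (2 ^ (k + 2)) ℂ) = 2 := by
    rw [show k + 2 = (k + 1) + 1 from rfl, cyclotomic_prime_pow_eq_geom_sum Nat.prime_two]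
    rw [Finset.sum_range_succ, Finset.sum_range_one]
    simp only [pow_zero, pow_one, eval_add, eval_one, eval_pow, eval_X]
    rw [pow_succ 2 k, pow_mul', neg_one_sq, one_pow]
    norm_num
  rw [h2, eval_prod] at h1
  have h3 := congrArg norm h1
  rw [norm_prod] at h3
  rw [show ‖(2 : ℂ)‖ = 2 by simp] at h3
  rw [h3]
  refine Finset.prod_congr rfl fun w _ => ?_
  rw [eval_sub, eval_X, eval_C, ← norm_neg]
  congr 1
  ring

lemma nb_one_add_ne (k : ℕ) {w : ℂ} (hw : IsPrimitiveRoot w (2 ^ (k + 2))) : (1 : ℂ) + w ≠ 0 := by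
  intro h
  have h1 := nb_prod_one_add k
  have h2 : w ∈ primitiveRoots (2 ^ (k + 2)) ℂ := (mem_primitiveRoots (by positivity)).2 hw
  rw [Finset.prod_eq_zero h2 (by rw [h, norm_zero])] at h1
  norm_num at h1

lemma nb_coprime (k : ℕ) {a : ℕ} (ha : Odd a) : a.Coprime (2 ^ (k + 2)) :=
  (Nat.coprime_two_right.2 ha).pow_right _

lemma nb_unit_odd (k : ℕ) (u : (ZMod (2 ^ (k + 2)))ˣ) : Odd (u : ZMod (2 ^ (k + 2))).val := by
  have h := ZMod.val_coe_unit_coprime u
  rw [Nat.coprime_pow_right_iff (by omega)] at h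
  exact Nat.coprime_two_right.1 h

/-- the matrix entry as a logarithm at a primitive root -/
lemma nb_factor_ne (k : ℕ) (u : (ZMod (2 ^ (k + 2)))ˣ) (i : ℕ) :
    (1 : ℂ) + zc k ^ ((u : ZMod (2 ^ (k + 2))).val * (2 * i + 1)) ≠ 0 := by
  refine nb_one_add_ne k ((zc_prim k).pow_of_coprime _ (nb_coprime k ?_))
  exact (nb_unit_odd k u).mul ⟨i, rfl⟩

/-- **Divisibility and resultant step.**  `g = 2^k`, `r = 2^(k+2)`, `Φ = X^(2 g) + 1` is the `r`-th
cyclotomic polynomial.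
PROOF.  `P ∈ ℤ[X]` vanishes in `F` at all `z^u`, `u` odd, which are the `2 g` distinct roots of `Φ` in
`F` (`z` is a primitive root), so `Φ` divides the image of `P` in `F[X]`.  Divide with remainder in
`ℤ[X]`: `P = Φ Q + R`, `deg R < 2 g` (`Polynomial.modByMonic`); the image of `R` in `F[X]` is
divisible by `Φ` and of smaller degree, so it is zero, so all coefficients of `R` are divisible
by `p`: `R = p S`.  In `ℂ`: `P(ω) = p S(ω)` for all roots `ω` of `Φ`.  So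
`∏_ω P(ω) = p^(2 g) * ∏_ω S(ω)`, and `∏_ω S(ω)` is an integer: it is the resultant
of `Φ` and `S` (`Polynomial.resultant_eq_prod_eval`, with `Polynomial.resultant_map_map` or
similar, `Φ` is monic), or the norm of an algebraic integer; it is not zero
as no `P(ω)` is.  So its absolute value is at least one. -/
theorem prod_ge (p k : ℕ) (hp : p.Prime) {F : Type*} [Field F] [CharP F p]
    {z : F} (hz : IsPrimitiveRoot z (2 ^ (k + 2))) (P : ℤ[X])
    (hP : ∀ u : ℕ, Odd u → Polynomial.aeval (z ^ u) P = 0)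
    (hne : ∀ u : ℕ, Odd u → Polynomial.aeval (zc k ^ u) P ≠ 0) :
    (p : ℝ) ^ (2 ^ (k + 1)) ≤
      ∏ u : (ZMod (2 ^ (k + 2)))ˣ,
        ‖Polynomial.aeval (zc k ^ (u : ZMod (2 ^ (k + 2))).val) P‖ := by
  obtain ⟨Q, S, hQS⟩ := nb_decomp p k hz P hP
  obtain ⟨N, hN⟩ := nb_prod_int k S
  have hval : ∀ w ∈ primitiveRoots (2 ^ (k + 2)) ℂ, aeval w P = (p : ℂ) * aeval w S := by
    intro w hw
    have hw' : IsPrimitiveRoot w (2 ^ (k + 2)) := isPrimitiveRoot_of_mem_primitiveRoots hw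
    have h1 : aeval w (cyclotomic (2 ^ (k + 2)) ℤ) = 0 := by
      have h2 := hw'.isRoot_cyclotomic (by positivity)
      rw [IsRoot, ← map_cyclotomic _ (algebraMap ℤ ℂ), eval_map] at h2
      rw [aeval_def]
      exact h2
    rw [hQS, map_add, map_mul, map_mul, h1, zero_mul, zero_add, aeval_C]
    simp
  have hprod : ∏ w ∈ primitiveRoots (2 ^ (k + 2)) ℂ, aeval w P =
      (p : ℂ) ^ (2 ^ (k + 1)) * (N : ℂ) := by
    rw [Finset.prod_congr rfl hval, Finset.prod_mul_distrib, Finset.prod_const, nb_card', hN]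
  have hN0 : N ≠ 0 := by
    intro h0
    rw [h0, Int.cast_zero, mul_zero, Finset.prod_eq_zero_iff] at hprod
    obtain ⟨w, hw, hw0⟩ := hprod
    have hw' : IsPrimitiveRoot w (2 ^ (k + 2)) := isPrimitiveRoot_of_mem_primitiveRoots hw
    have : NeZero (2 ^ (k + 2)) := ⟨by positivity⟩
    rw [(zc_prim k).isPrimitiveRoot_iff] at hw'
    obtain ⟨i, -, hic, rfl⟩ := hw'
    refine hne i ?_ hw0
    rw [Nat.coprime_pow_right_iff (by omega)] at hic
    exact Nat.coprime_two_right.1 hic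
  have h1 : (1 : ℝ) ≤ ‖(N : ℂ)‖ := by
    rw [Complex.norm_intCast]
    exact_mod_cast Int.one_le_abs hN0
  rw [nb_prod_units k (fun w => ‖aeval w P‖), ← norm_prod, hprod, norm_mul, norm_pow,
    Complex.norm_natCast]
  have h2 : (0 : ℝ) ≤ (p : ℝ) ^ (2 ^ (k + 1)) := by positivity
  nlinarith

/-- PROOF.  For odd `a` the map `u ↦ u a` permutes the units mod `2^(k+2)`, so the left side is
`∏_u ‖1 + zc^u‖ = |Φ(-1)| = 2` where `Φ = X^(2^(k+1)) + 1 = ∏_u (X - zc^u)`
(`Polynomial.cyclotomic_eq_prod_X_sub_primitiveRoots`,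
`Polynomial.cyclotomic_prime_pow_eq_geom_sum`). Take logarithms. -/
theorem sum_log_eq (k : ℕ) (i : Fin (2 ^ k)) :
    ∑ u : (ZMod (2 ^ (k + 2)))ˣ, lm k u i = Real.log 2 := by
  have : NeZero (2 ^ (k + 2)) := ⟨by positivity⟩
  have hodd : Odd (2 * (i : ℕ) + 1) := ⟨i, rfl⟩
  set a : (ZMod (2 ^ (k + 2)))ˣ := ZMod.unitOfCoprime (2 * (i : ℕ) + 1) (nb_coprime k hodd) with ha
  have h1 : ∑ u : (ZMod (2 ^ (k + 2)))ˣ, lm k u i =
      ∑ u : (ZMod (2 ^ (k + 2)))ˣ, Real.log ‖1 + zc k ^ (u : ZMod (2 ^ (k + 2))).val‖ := by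
    refine Fintype.sum_equiv (Equiv.mulRight a) _ _ fun u => ?_
    unfold lm
    rw [Equiv.coe_mulRight]
    rw [nb_zc_pow_mod k ((u : ZMod (2 ^ (k + 2))).val * (2 * (i : ℕ) + 1))
      (((u * a : (ZMod (2 ^ (k + 2)))ˣ) : ZMod (2 ^ (k + 2))).val) ?_]
    rw [ZMod.natCast_zmod_val, Nat.cast_mul, ZMod.natCast_zmod_val, Units.val_mul, ha,
      ZMod.coe_unitOfCoprime]
  rw [h1, ← Real.log_prod (fun u _ => ?_), nb_prod_units k (fun w => ‖1 + w‖), nb_prod_one_add]
  rw [norm_ne_zero_iff]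
  have := nb_factor_ne k u 0
  simpa using this

/-- The logarithm of the value of a product. -/
lemma nb_log_val (k : ℕ) (u : (ZMod (2 ^ (k + 2)))ˣ) (e : Fin (2 ^ k) → ℕ) :
    val (zc k ^ (u : ZMod (2 ^ (k + 2))).val) e ≠ 0 ∧
      Real.log ‖val (zc k ^ (u : ZMod (2 ^ (k + 2))).val) e‖ = ∑ i, (e i : ℝ) * lm k u i := by
  have hfac : ∀ i : Fin (2 ^ k),
      (1 : ℂ) + (zc k ^ (u : ZMod (2 ^ (k + 2))).val) ^ (2 * (i : ℕ) + 1) ≠ 0 := by
    intro i
    rw [← pow_mul]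
    exact nb_factor_ne k u i
  constructor
  · unfold val
    exact Finset.prod_ne_zero_iff.2 fun i _ => pow_ne_zero _ (hfac i)
  · unfold val
    rw [norm_prod, Real.log_prod (fun i _ => ?_)]
    · refine Finset.sum_congr rfl fun i _ => ?_
      rw [norm_pow, Real.log_pow]
      unfold lm
      rw [← pow_mul]
    · rw [norm_ne_zero_iff]
      exact pow_ne_zero _ (hfac i)

lemma nb_log_sub {x y : ℂ} (hx : x ≠ 0) (hy : y ≠ 0) (hxy : x - y ≠ 0) :
    Real.log ‖x - y‖ ≤ Real.log 2 + (Real.log ‖x‖ + Real.log ‖y‖) / 2 +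
      |Real.log ‖x‖ - Real.log ‖y‖| / 2 := by
  have hx' : 0 < ‖x‖ := norm_pos_iff.2 hx
  have hy' : 0 < ‖y‖ := norm_pos_iff.2 hy
  have hxy' : 0 < ‖x - y‖ := norm_pos_iff.2 hxy
  have h1 := norm_sub_le x y
  rcases le_total ‖x‖ ‖y‖ with h | h
  · have h2 : Real.log ‖x - y‖ ≤ Real.log (2 * ‖y‖) :=
      Real.log_le_log hxy' (by linarith)
    rw [Real.log_mul (by norm_num) hy'.ne'] at h2
    have h3 : Real.log ‖x‖ ≤ Real.log ‖y‖ := Real.log_le_log hx' h
    rw [abs_of_nonpos (by linarith)]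
    linarith
  · have h2 : Real.log ‖x - y‖ ≤ Real.log (2 * ‖x‖) :=
      Real.log_le_log hxy' (by linarith)
    rw [Real.log_mul (by norm_num) hx'.ne'] at h2
    have h3 : Real.log ‖y‖ ≤ Real.log ‖x‖ := Real.log_le_log hy' h
    rw [abs_of_nonneg (by linarith)]
    linarith

lemma nb_aeval_val {A : Type*} [CommRing A] (w : A) {g : ℕ} (e : Fin g → ℕ) :
    aeval w (val (X : ℤ[X]) e) = val w e := by
  unfold val
  simp only [map_prod, map_pow, map_add, map_one, aeval_X]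

/-- **The norm bound.**
PROOF.  Let `P = ∏ (1 + X^(2i+1))^(e i) - ∏ (1 + X^(2i+1))^(e' i) ∈ ℤ[X]`; `aeval w P = val w e - val w e'`
in every ring.  By `heq` it vanishes at `z^u`, `u` odd; by `val_injective` it does not vanish at
the primitive roots `zc^u`.  So `prod_ge` applies.  Take logarithms:
`2^(k+1) log p ≤ ∑_u log ‖val(zc^u) e - val(zc^u) e'‖`, and with `A = log ‖val(zc^u) e‖ = ∑_i e_i lm k u i`,
`B = log ‖val(zc^u) e'‖ = ∑_i e'_i lm k u i` (all factors are non zero):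
`log ‖x - y‖ ≤ log 2 + max A B = log 2 + (A + B)/2 + |A - B|/2`.
Summation over `u` (there are `2^(k+1)` units) with `sum_log_eq` gives the claim. -/
theorem norm_bound (p k : ℕ) (hp : p.Prime) {F : Type*} [Field F] [CharP F p]
    {z : F} (hz : IsPrimitiveRoot z (2 ^ (k + 2))) {e e' : Fin (2 ^ k) → ℕ} (hne : e ≠ e')
    (heq : ∀ u : ℕ, Odd u → val (z ^ u) e = val (z ^ u) e') :
    2 ^ (k + 1) * Real.log p ≤ 2 ^ (k + 1) * Real.log 2 +
      ((∑ i, (e i : ℝ)) + ∑ i, (e' i : ℝ)) / 2 * Real.log 2 +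
      (1 / 2) * ∑ u : (ZMod (2 ^ (k + 2)))ˣ, |∑ i, ((e i : ℝ) - (e' i : ℝ)) * lm k u i| := by
  set P : ℤ[X] := val X e - val X e' with hPdef
  have hne' : ∀ u : ℕ, Odd u → val (zc k ^ u) e - val (zc k ^ u) e' ≠ 0 := by
    intro u hu h
    exact hne (val_injective k ((zc_prim k).pow_of_coprime u (nb_coprime k hu))
      (sub_eq_zero.1 h))
  have h1 := prod_ge p k hp hz P
    (fun u hu => by rw [hPdef, map_sub, nb_aeval_val, nb_aeval_val, heq u hu, sub_self])
    (fun u hu => by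
      rw [hPdef, map_sub, nb_aeval_val, nb_aeval_val]
      exact hne' u hu)
  have hp0 : (0 : ℝ) < p := by exact_mod_cast hp.pos
  have h2 := Real.log_le_log (by positivity) h1
  rw [Real.log_pow, Real.log_prod (fun u _ => ?_)] at h2
  swap
  · rw [norm_ne_zero_iff, hPdef, map_sub, nb_aeval_val, nb_aeval_val]
    exact hne' _ (nb_unit_odd k u)
  have h3 : ∀ u : (ZMod (2 ^ (k + 2)))ˣ,
      Real.log ‖aeval (zc k ^ (u : ZMod (2 ^ (k + 2))).val) P‖ ≤
        Real.log 2 + ((∑ i, (e i : ℝ) * lm k u i) + ∑ i, (e' i : ℝ) * lm k u i) / 2 +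
        |∑ i, ((e i : ℝ) - (e' i : ℝ)) * lm k u i| / 2 := by
    intro u
    obtain ⟨hx, hlx⟩ := nb_log_val k u e
    obtain ⟨hy, hly⟩ := nb_log_val k u e'
    have h4 := nb_log_sub hx hy (hne' _ (nb_unit_odd k u))
    rw [hlx, hly] at h4
    rw [hPdef, map_sub, nb_aeval_val, nb_aeval_val]
    have h5 : ∑ i, ((e i : ℝ) - (e' i : ℝ)) * lm k u i =
        (∑ i, (e i : ℝ) * lm k u i) - ∑ i, (e' i : ℝ) * lm k u i := by
      rw [← Finset.sum_sub_distrib]
      exact Finset.sum_congr rfl fun i _ => by ring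
    rw [h5]
    exact h4
  have h6 := h2.trans (Finset.sum_le_sum fun u _ => h3 u)
  have h7 : ∀ c : Fin (2 ^ k) → ℕ, ∑ u : (ZMod (2 ^ (k + 2)))ˣ, ∑ i, (c i : ℝ) * lm k u i =
      (∑ i, (c i : ℝ)) * Real.log 2 := by
    intro c
    rw [Finset.sum_comm, Finset.sum_mul]
    refine Finset.sum_congr rfl fun i _ => ?_
    rw [← Finset.mul_sum, sum_log_eq]
  rw [Finset.sum_add_distrib, Finset.sum_add_distrib, Finset.sum_const, Finset.card_univ, nb_card,
    ← Finset.sum_div, Finset.sum_add_distrib, h7, h7, ← Finset.sum_div, nsmul_eq_mul] at h6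
  push_cast at h6
  linarith

end Pool.Agent.W_420c7c_h88
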