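import Pool.Agent.W_420c7c_h88.Defs

set_option autoImplicit false

namespace Pool.Agent.W_420c7c_h88

/-- the sum of the centred coordinate -/
lemma box_sum_id (K : ℕ) : ∑ m ∈ Finset.range K, (m : ℝ) = (K : ℝ) * ((K : ℝ) - 1) / 2 := by
  induction K with
  | zero => simp
  | succ n ih =>
    rw [Finset.sum_range_succ, ih]
    push_cast
    ring

lemma box_sum_sq (K : ℕ) :
    ∑ m ∈ Finset.range K, (m : ℝ) ^ 2 = (K : ℝ) * ((K : ℝ) - 1) * (2 * (K : ℝ) - 1) / 6 := by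
  induction K with
  | zero => simp
  | succ n ih =>
    rw [Finset.sum_range_succ, ih]
    push_cast
    ring

lemma box_centred (K : ℕ) : ∑ m ∈ Finset.range K, ((m : ℝ) - ((K : ℝ) - 1) / 2) = 0 := by
  rw [Finset.sum_sub_distrib, box_sum_id, Finset.sum_const, Finset.card_range, nsmul_eq_mul]
  ring

lemma box_centred_sq (K : ℕ) : ∑ m ∈ Finset.range K, ((m : ℝ) - ((K : ℝ) - 1) / 2) ^ 2 =
    (K : ℝ) * (((K : ℝ) ^ 2 - 1) / 12) := by
  have h : ∀ m : ℕ, ((m : ℝ) - ((K : ℝ) - 1) / 2) ^ 2 =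
      (m : ℝ) ^ 2 - ((K : ℝ) - 1) * (m : ℝ) + (((K : ℝ) - 1) / 2) ^ 2 := fun m => by ring
  simp only [h]
  rw [Finset.sum_add_distrib, Finset.sum_sub_distrib, ← Finset.mul_sum, box_sum_id, box_sum_sq,
    Finset.sum_const, Finset.card_range, nsmul_eq_mul]
  ring

/-- two different coordinates, the first of which is centred -/
lemma box_two {g : ℕ} (κ : Fin g → ℕ) (i j : Fin g) (hij : i ≠ j) (f h : ℕ → ℝ)
    (hf : ∑ m ∈ Finset.range (κ i), f m = 0) : ∑ e ∈ box κ, f (e i) * h (e j) = 0 := by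
  have key := Finset.prod_univ_sum (fun l : Fin g => Finset.range (κ l))
    (fun l m => (if l = i then f m else 1) * (if l = j then h m else 1))
  have h0 : ∏ l : Fin g, ∑ m ∈ Finset.range (κ l),
      ((if l = i then f m else 1) * (if l = j then h m else 1)) = 0 := by
    apply Finset.prod_eq_zero (Finset.mem_univ i)
    simp only [if_true, if_neg hij, mul_one]
    exact hf
  rw [h0] at key
  unfold box
  rw [key]
  refine Finset.sum_congr rfl fun e _ => ?_
  rw [Finset.prod_mul_distrib, Finset.prod_ite_eq', Finset.prod_ite_eq']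
  simp

/-- one coordinate -/
lemma box_one {g : ℕ} (κ : Fin g → ℕ) (i : Fin g) (f : ℕ → ℝ) :
    (κ i : ℝ) * ∑ e ∈ box κ, f (e i) =
      ((box κ).card : ℝ) * ∑ m ∈ Finset.range (κ i), f m := by
  have key := Finset.prod_univ_sum (fun l : Fin g => Finset.range (κ l))
    (fun l m => (if l = i then f m else 1))
  have h1 : ∑ e ∈ box κ, f (e i) = ∏ l : Fin g, ∑ m ∈ Finset.range (κ l),
      (if l = i then f m else 1) := by
    rw [key]
    unfold box
    refine Finset.sum_congr rfl fun e _ => ?_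
    rw [Finset.prod_ite_eq']
    simp
  have h2 : ((box κ).card : ℝ) = ∏ l : Fin g, (κ l : ℝ) := by
    unfold box
    rw [Fintype.card_piFinset]
    simp
  rw [h1, h2, ← Finset.mul_prod_erase _ _ (Finset.mem_univ i),
    ← Finset.mul_prod_erase _ _ (Finset.mem_univ i)]
  have h3 : ∏ l ∈ Finset.univ.erase i, ∑ m ∈ Finset.range (κ l), (if l = i then f m else 1) =
      ∏ l ∈ Finset.univ.erase i, (κ l : ℝ) := by
    refine Finset.prod_congr rfl fun l hl => ?_
    simp only [if_neg (Finset.ne_of_mem_erase hl)]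
    simp
  rw [h3]
  simp only [if_true]
  ring

/-- PROOF.  Expand the square; for `i ≠ j` the sum over the box of the product of the two centred
coordinates vanishes (the box is a product, and `∑_{m < κ} (m - (κ-1)/2) = 0`), and
`∑_{m < κ} (m - (κ-1)/2)^2 = κ (κ^2 - 1)/12`.  (Or induction on `g` with `Fin.consEquiv`,
or `Finset.prod_univ_sum` type arguments.) -/
theorem second_moment {g : ℕ} (κ : Fin g → ℕ) (hκ : ∀ i, 1 ≤ κ i) (y : Fin g → ℝ) :
    ∑ e ∈ box κ, (∑ i, ((e i : ℝ) - ((κ i : ℝ) - 1) / 2) * y i) ^ 2 =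
      ((box κ).card : ℝ) * ∑ i, ((κ i : ℝ) ^ 2 - 1) / 12 * y i ^ 2 := by
  have h1 : ∀ e : Fin g → ℕ, (∑ i, ((e i : ℝ) - ((κ i : ℝ) - 1) / 2) * y i) ^ 2 =
      ∑ i, ∑ j, (((e i : ℝ) - ((κ i : ℝ) - 1) / 2) * ((e j : ℝ) - ((κ j : ℝ) - 1) / 2)) *
        (y i * y j) := by
    intro e
    rw [sq, Finset.sum_mul_sum]
    refine Finset.sum_congr rfl fun i _ => Finset.sum_congr rfl fun j _ => ?_
    ring
  rw [Finset.sum_congr rfl fun e _ => h1 e, Finset.sum_comm, Finset.mul_sum]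
  refine Finset.sum_congr rfl fun i _ => ?_
  rw [Finset.sum_comm, Finset.sum_eq_single i]
  · rw [← Finset.sum_mul]
    have h2 := box_one κ i (fun m => ((m : ℝ) - ((κ i : ℝ) - 1) / 2) ^ 2)
    rw [box_centred_sq] at h2
    have h3 : (κ i : ℝ) ≠ 0 := by
      have := hκ i
      positivity
    have h4 : ∑ e ∈ box κ, ((e i : ℝ) - ((κ i : ℝ) - 1) / 2) * ((e i : ℝ) - ((κ i : ℝ) - 1) / 2) =
        ((box κ).card : ℝ) * (((κ i : ℝ) ^ 2 - 1) / 12) := by
      apply mul_left_cancel₀ h3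
      simp only [← sq]
      rw [h2]
      ring
    rw [h4]
    ring
  · intro j _ hj
    rw [← Finset.sum_mul, box_two κ i j hj.symm (fun m => (m : ℝ) - ((κ i : ℝ) - 1) / 2)
      (fun m => (m : ℝ) - ((κ j : ℝ) - 1) / 2) (box_centred _), zero_mul]
  · intro h
    exact absurd (Finset.mem_univ i) h

/-- PROOF.  The unit `2 i + 1` permutes the units modulo `2^(k+2)`, and
`zc^(u a)` depends only on `u a` modulo `2^(k+2)`. -/
theorem sum_sq_column (k : ℕ) (i : Fin (2 ^ k)) :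
    ∑ u : (ZMod (2 ^ (k + 2)))ˣ, (lm k u i) ^ 2 = qs k := by
  have hco : Nat.Coprime (2 * (i : ℕ) + 1) (2 ^ (k + 2)) := by
    apply Nat.Coprime.pow_right
    rw [Nat.coprime_two_right]
    exact ⟨i, rfl⟩
  set w : (ZMod (2 ^ (k + 2)))ˣ := ZMod.unitOfCoprime (2 * (i : ℕ) + 1) hco with hw
  have h1 : ∀ u : (ZMod (2 ^ (k + 2)))ˣ,
      lm k u i = Real.log ‖1 + zc k ^ ((u * w : (ZMod (2 ^ (k + 2)))ˣ) :
        ZMod (2 ^ (k + 2))).val‖ := by
    intro u
    have h2 : ((u * w : (ZMod (2 ^ (k + 2)))ˣ) : ZMod (2 ^ (k + 2))) =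
        (((u : ZMod (2 ^ (k + 2))).val * (2 * (i : ℕ) + 1) : ℕ) : ZMod (2 ^ (k + 2))) := by
      rw [Units.val_mul, hw, ZMod.coe_unitOfCoprime, Nat.cast_mul, ZMod.natCast_val,
        ZMod.cast_id', id]
    have h3 : zc k ^ (2 ^ (k + 2)) = 1 := (zc_prim k).pow_eq_one
    unfold lm
    rw [h2, ZMod.val_natCast, ← pow_eq_pow_mod _ h3]
  unfold qs
  exact Fintype.sum_equiv (Equiv.mulRight w) _ _ fun u => by
    rw [h1 u]
    rfl

/-- PROOF.  `second_moment` for `y i = lm k u i`, summed over `u`, with `sum_sq_column`. -/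
theorem box_moment (k : ℕ) (κ : Fin (2 ^ k) → ℕ) (hκ : ∀ i, 1 ≤ κ i) :
    ∑ e ∈ box κ, ∑ u : (ZMod (2 ^ (k + 2)))ˣ,
        (∑ i, ((e i : ℝ) - ((κ i : ℝ) - 1) / 2) * lm k u i) ^ 2 =
      ((box κ).card : ℝ) * ((∑ i, ((κ i : ℝ) ^ 2 - 1) / 12) * qs k) := by
  rw [Finset.sum_comm, Finset.sum_congr rfl fun u _ => second_moment κ hκ (lm k u),
    ← Finset.mul_sum, Finset.sum_comm, Finset.sum_mul]
  congr 1
  refine Finset.sum_congr rfl fun i _ => ?_
  rw [← Finset.mul_sum, sum_sq_column]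

end Pool.Agent.W_420c7c_h88
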