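import Pool.Agent.W_420c7c_h88.Intro

set_option autoImplicit false
open Polynomial

namespace Pool.Agent.W_420c7c_h88

theorem cj_pow_congr {M : Type*} [Monoid M] {x : M} {N a b : ℕ} (hx : x ^ N = 1)
    (h : a ≡ b [MOD N]) : x ^ a = x ^ b := by
  have h1 : ∀ c : ℕ, x ^ c = x ^ (c % N) := by
    intro c
    conv_lhs => rw [← Nat.div_add_mod c N, pow_add, pow_mul, hx, one_pow, one_mul]
  rw [h1 a, h1 b]
  congr 1

theorem cj_reduce (k : ℕ) (b : ℤ) : ∃ c : ℕ, c < 2 ^ k ∧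
    (1 + 4 * (b : ZMod (2 ^ (k + 2)))) = 1 + 4 * (c : ZMod (2 ^ (k + 2))) := by
  have h2 : (0 : ℤ) < 2 ^ k := by positivity
  refine ⟨(b % 2 ^ k).toNat, ?_, ?_⟩
  · have h1 := Int.emod_lt_of_pos b h2
    have h3 := Int.emod_nonneg b h2.ne'
    zify
    rw [Int.toNat_of_nonneg h3]
    exact h1
  · have h3 := Int.emod_nonneg b h2.ne'
    have h4 : (((b % 2 ^ k).toNat : ℕ) : ZMod (2 ^ (k + 2))) =
        ((b % 2 ^ k : ℤ) : ZMod (2 ^ (k + 2))) := by
      rw [← Int.cast_natCast, Int.toNat_of_nonneg h3]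
    rw [h4]
    have h5 : b = b % 2 ^ k + 2 ^ k * (b / 2 ^ k) := (Int.emod_add_mul_ediv b (2 ^ k)).symm
    have h6 : (b : ZMod (2 ^ (k + 2))) = ((b % 2 ^ k : ℤ) : ZMod (2 ^ (k + 2))) +
        2 ^ k * ((b / 2 ^ k : ℤ) : ZMod (2 ^ (k + 2))) := by
      conv_lhs => rw [h5]
      push_cast
      rfl
    have h7 : (4 : ZMod (2 ^ (k + 2))) * 2 ^ k = 0 := by
      have h8 : ((2 ^ (k + 2) : ℕ) : ZMod (2 ^ (k + 2))) = 0 := ZMod.natCast_self _
      rw [← h8]
      push_cast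
      ring
    rw [h6]
    linear_combination ((b / 2 ^ k : ℤ) : ZMod (2 ^ (k + 2))) * h7

theorem cj_pow_one_mod_four (a : ℤ) (j : ℕ) : ∃ b : ℤ, (1 + 4 * a) ^ j = 1 + 4 * b := by
  induction j with
  | zero => exact ⟨0, by simp⟩
  | succ j ih =>
    obtain ⟨b, hb⟩ := ih
    exact ⟨b + a + 4 * a * b, by rw [pow_succ, hb]; ring⟩

/-- Every residue that is `1` mod `4` is a power of `1 + 4 a`, `a` odd. -/
theorem cj_one_mod_four (k : ℕ) (a : ℤ) (ha : Odd a) (b : ℤ) :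
    ∃ j : ℕ, (1 + 4 * (b : ZMod (2 ^ (k + 2)))) = (1 + 4 * (a : ZMod (2 ^ (k + 2)))) ^ j := by
  classical
  set m : ZMod (2 ^ (k + 2)) := 1 + 4 * (a : ZMod (2 ^ (k + 2))) with hm
  have hord : orderOf m = 2 ^ k := ZMod.orderOf_one_add_four_mul a ha k
  set S := (Finset.range (2 ^ k)).image (fun c : ℕ => (1 + 4 * (c : ZMod (2 ^ (k + 2)))))
    with hS
  set P := (Finset.range (2 ^ k)).image (fun j : ℕ => m ^ j) with hP
  have hPc : P.card = 2 ^ k := by
    rw [hP, Finset.card_image_of_injOn, Finset.card_range]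
    intro i hi j hj hij
    have hi' : i < 2 ^ k := by simpa using hi
    have hj' : j < 2 ^ k := by simpa using hj
    rw [← hord] at hi' hj'
    exact pow_injOn_Iio_orderOf hi' hj' hij
  have hSc : S.card ≤ 2 ^ k := by
    refine Finset.card_image_le.trans ?_
    rw [Finset.card_range]
  have hPS : P ⊆ S := by
    intro x hx
    rw [hP, Finset.mem_image] at hx
    obtain ⟨j, -, rfl⟩ := hx
    obtain ⟨b', hb'⟩ := cj_pow_one_mod_four a j
    obtain ⟨c, hc, hc'⟩ := cj_reduce k b'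
    rw [hS, Finset.mem_image]
    refine ⟨c, Finset.mem_range.2 hc, ?_⟩
    rw [← hc']
    have h1 := congrArg (fun t : ℤ => (t : ZMod (2 ^ (k + 2)))) hb'
    push_cast at h1
    exact h1.symm
  have hEq : P = S := Finset.eq_of_subset_of_card_le hPS (by rw [hPc]; exact hSc)
  obtain ⟨c, hc, hc'⟩ := cj_reduce k b
  have h1 : (1 + 4 * (b : ZMod (2 ^ (k + 2)))) ∈ P := by
    rw [hEq, hS, Finset.mem_image]
    exact ⟨c, Finset.mem_range.2 hc, hc'.symm⟩
  rw [hP, Finset.mem_image] at h1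
  obtain ⟨j, -, hj⟩ := h1
  exact ⟨j, hj.symm⟩

/-- Every odd residue modulo `2^(k+2)` is, up to sign, a power of `n` if `n = ±3` modulo `8`.
PROOF.  `n` or `-n` is `1 + 4 a` with `a` odd; by `ZMod.orderOf_one_add_four_mul` (in
`Mathlib/RingTheory/ZMod/UnitsCyclic.lean`) it has order `2^k` modulo `2^(k+2)`, and its powers are
all `1` mod `4`; there are exactly `2^k` residues that are `1` mod `4`, so each of them is such a
power, and every odd residue is `±` one of them. (For `k = 0` the statement is trivial: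
the odd residues mod `4` are `±1`.) -/
theorem odd_eq_pm_pow (k : ℕ) {n : ℕ} (hn : n % 8 = 3 ∨ n % 8 = 5) {u : ℕ} (hu : Odd u) :
    ∃ j : ℕ, (u : ZMod (2 ^ (k + 2))) = (n : ZMod (2 ^ (k + 2))) ^ j ∨
      (u : ZMod (2 ^ (k + 2))) = -(n : ZMod (2 ^ (k + 2))) ^ j := by
  -- `n = ± (1 + 4 a)`
  obtain ⟨a, ha, ε, hε, hna⟩ : ∃ a : ℤ, Odd a ∧ ∃ ε : ZMod (2 ^ (k + 2)), (ε = 1 ∨ ε = -1) ∧
      (1 + 4 * (a : ZMod (2 ^ (k + 2)))) = ε * (n : ZMod (2 ^ (k + 2))) := by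
    rcases hn with h | h
    · refine ⟨-(2 * ((n : ℤ) / 8) + 1), ?_, -1, Or.inr rfl, ?_⟩
      · rw [Int.odd_iff]; omega
      · have h1 : (n : ℤ) = 8 * ((n : ℤ) / 8) + 3 := by omega
        have h2 := congrArg (fun t : ℤ => (t : ZMod (2 ^ (k + 2)))) h1
        push_cast at h2 ⊢
        rw [h2]
        ring
    · refine ⟨2 * ((n : ℤ) / 8) + 1, ?_, 1, Or.inl rfl, ?_⟩
      · rw [Int.odd_iff]; omega
      · have h1 : (n : ℤ) = 8 * ((n : ℤ) / 8) + 5 := by omega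
        have h2 := congrArg (fun t : ℤ => (t : ZMod (2 ^ (k + 2)))) h1
        push_cast at h2 ⊢
        rw [h2]
        ring
  -- `u = ± (1 + 4 b)`
  obtain ⟨b, δ, hδ, hub⟩ : ∃ b : ℤ, ∃ δ : ZMod (2 ^ (k + 2)), (δ = 1 ∨ δ = -1) ∧
      (u : ZMod (2 ^ (k + 2))) = δ * (1 + 4 * (b : ZMod (2 ^ (k + 2)))) := by
    obtain ⟨t, ht⟩ := hu
    have h4 : u % 4 = 1 ∨ u % 4 = 3 := by omega
    rcases h4 with h | h
    · refine ⟨(u : ℤ) / 4, 1, Or.inl rfl, ?_⟩
      have h1 : (u : ℤ) = 1 + 4 * ((u : ℤ) / 4) := by omega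
      have h2 := congrArg (fun t : ℤ => (t : ZMod (2 ^ (k + 2)))) h1
      push_cast at h2 ⊢
      rw [one_mul]
      exact h2
    · refine ⟨-((u : ℤ) / 4) - 1, -1, Or.inr rfl, ?_⟩
      have h1 : (u : ℤ) = 3 + 4 * ((u : ℤ) / 4) := by omega
      have h2 := congrArg (fun t : ℤ => (t : ZMod (2 ^ (k + 2)))) h1
      push_cast at h2 ⊢
      rw [h2]
      ring
  obtain ⟨j, hj⟩ := cj_one_mod_four k a ha b
  refine ⟨j, ?_⟩
  rw [hub, hj, hna, mul_pow]
  have hεj : ε ^ j = 1 ∨ ε ^ j = -1 := by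
    rcases hε with rfl | rfl
    · left; exact one_pow j
    · exact neg_one_pow_eq_or _ j
  rcases hεj with h | h <;> rcases hδ with h' | h' <;> rw [h, h'] <;> simp

/-- PROOF.  Write `w = z^(n^j)`; then by `val_pow` (with `intro_pow`)
`val w e = (val z e)^(n^j) = (val z e')^(n^j) = val w e'`.  If `u = n^j` modulo `2^(k+2)`
then `z^u = w` and this is the claim. If `u = -n^j` then `z^u = w⁻¹`, and
`1 + w^(-a) = w^(-a) (1 + w^a)` gives `val w⁻¹ e * w^(wt e) = val w e`, the same for `e'`, and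
`w^(wt e) = w^(wt e')` by `hw` (as `w^(2^(k+2)) = 1`). -/
theorem val_conj (k : ℕ) {n : ℕ} (hn : n % 8 = 3 ∨ n % 8 = 5) {F : Type*} [Field F] {z : F}
    (hz : IsPrimitiveRoot z (2 ^ (k + 2))) (hI : Intro z n) {g : ℕ} {e e' : Fin g → ℕ}
    (h0 : val z e = val z e')
    (hw : (wt e : ZMod (2 ^ (k + 2))) = (wt e' : ZMod (2 ^ (k + 2)))) :
    ∀ u : ℕ, Odd u → val (z ^ u) e = val (z ^ u) e' := by
  intro u hu
  have hz0 : z ≠ 0 := hz.ne_zero (by positivity)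
  obtain ⟨j, hj⟩ := odd_eq_pm_pow k hn hu
  have hI' := intro_pow hI j
  have h1 : val (z ^ (n ^ j)) e = val (z ^ (n ^ j)) e' := by
    rw [← val_pow hI', ← val_pow hI', h0]
  rcases hj with hj | hj
  · have h2 : z ^ u = z ^ (n ^ j) := by
      refine cj_pow_congr hz.pow_eq_one ((ZMod.natCast_eq_natCast_iff _ _ _).1 ?_)
      push_cast
      exact_mod_cast hj
    rw [h2]
    exact h1
  · set w := z ^ (n ^ j) with hwdef
    have hw0 : w ≠ 0 := pow_ne_zero _ hz0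
    have h2 : z ^ u * w = 1 := by
      rw [hwdef, ← pow_add, hz.pow_eq_one_iff_dvd, ← ZMod.natCast_eq_zero_iff]
      push_cast
      rw [hj]
      ring
    have h3 : z ^ u = w⁻¹ := eq_inv_of_mul_eq_one_left h2
    rw [h3]
    have h4 : ∀ f : Fin g → ℕ, val w⁻¹ f * w ^ (wt f) = val w f := by
      intro f
      unfold val wt
      rw [← Finset.prod_pow_eq_pow_sum, ← Finset.prod_mul_distrib]
      refine Finset.prod_congr rfl fun i _ => ?_
      rw [pow_mul w, ← mul_pow, add_mul, one_mul, ← mul_pow, inv_mul_cancel₀ hw0, one_pow,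
        add_comm]
    have hwN : w ^ (2 ^ (k + 2)) = 1 := by
      rw [hwdef, ← pow_mul, mul_comm, pow_mul, hz.pow_eq_one, one_pow]
    have h5 : w ^ (wt e) = w ^ (wt e') := by
      have h6 : wt e ≡ wt e' [MOD 2 ^ (k + 2)] := (ZMod.natCast_eq_natCast_iff _ _ _).1 hw
      exact cj_pow_congr hwN h6
    have h7 : val w⁻¹ e * w ^ (wt e) = val w⁻¹ e' * w ^ (wt e) := by
      rw [h4 e, h1, h5, h4 e']
    exact mul_right_cancel₀ (pow_ne_zero _ hw0) h7

end Pool.Agent.W_420c7c_h88
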