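import Mathlib

set_option autoImplicit false

namespace Pool.Agent.W_420c7c_h88

lemma gini_sq_sum (n : ℕ) (a : ℝ) :
    ∑ i ∈ Finset.range n, (2 * (i : ℝ) + 1 - a) ^ 2
      = (n : ℝ) * (4 * (n : ℝ) ^ 2 - 1) / 3 - 2 * a * (n : ℝ) ^ 2 + n * a ^ 2 := by
  induction n with
  | zero => simp
  | succ n ih =>
    rw [Finset.sum_range_succ, ih]
    push_cast
    ring

lemma gini_sign_sum (t : ℕ) (i : Fin t) :
    ∑ j : Fin t, ((if j < i then (1 : ℝ) else 0) - (if i < j then (1 : ℝ) else 0))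
      = 2 * (i : ℝ) + 1 - t := by
  rw [Finset.sum_sub_distrib]
  have h1 : ∑ j : Fin t, (if j < i then (1 : ℝ) else 0) = (i : ℝ) := by
    rw [Finset.sum_boole]
    have : (Finset.univ.filter (fun j : Fin t => j < i)) = Finset.Iio i := by
      ext j; simp
    rw [this, Fin.card_Iio]
  have h2 : ∑ j : Fin t, (if i < j then (1 : ℝ) else 0) = (t : ℝ) - 1 - (i : ℝ) := by
    rw [Finset.sum_boole]
    have : (Finset.univ.filter (fun j : Fin t => i < j)) = Finset.Ioi i := by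
      ext j; simp
    rw [this, Fin.card_Ioi]
    have hi : (i : ℕ) < t := i.2
    have : ((t - 1 - (i : ℕ) : ℕ) : ℝ) = (t : ℝ) - 1 - (i : ℝ) := by
      rw [Nat.cast_sub (by omega), Nat.cast_sub (by omega)]
      simp
    exact this
  rw [h1, h2]
  ring

lemma gini_mono (t : ℕ) (z : Fin t → ℝ) (hz : Monotone z) :
    (∑ i, ∑ j, |z i - z j|) = 2 * ∑ i : Fin t, (2 * (i : ℝ) + 1 - t) * z i := by
  have habs : ∀ i j : Fin t, |z i - z j| =
      ((if j < i then (1 : ℝ) else 0) - (if i < j then (1 : ℝ) else 0)) * z i +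
      ((if i < j then (1 : ℝ) else 0) - (if j < i then (1 : ℝ) else 0)) * z j := by
    intro i j
    rcases lt_trichotomy i j with h | h | h
    · have h1 : ¬ j < i := not_lt.2 h.le
      rw [if_neg h1, if_pos h, abs_of_nonpos (sub_nonpos.2 (hz h.le))]
      ring
    · subst h
      simp
    · have h1 : ¬ i < j := not_lt.2 h.le
      rw [if_neg h1, if_pos h, abs_of_nonneg (sub_nonneg.2 (hz h.le))]
      ring
  have hA : (∑ i : Fin t, ∑ j : Fin t,
      ((if j < i then (1 : ℝ) else 0) - (if i < j then (1 : ℝ) else 0)) * z i)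
      = ∑ i : Fin t, (2 * (i : ℝ) + 1 - t) * z i := by
    refine Finset.sum_congr rfl (fun i _ => ?_)
    rw [← Finset.sum_mul, gini_sign_sum]
  have hB : (∑ i : Fin t, ∑ j : Fin t,
      ((if i < j then (1 : ℝ) else 0) - (if j < i then (1 : ℝ) else 0)) * z j)
      = ∑ i : Fin t, (2 * (i : ℝ) + 1 - t) * z i := by
    rw [Finset.sum_comm, ← hA]
  calc (∑ i, ∑ j, |z i - z j|)
      = ∑ i : Fin t, ∑ j : Fin t,
        (((if j < i then (1 : ℝ) else 0) - (if i < j then (1 : ℝ) else 0)) * z i +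
        ((if i < j then (1 : ℝ) else 0) - (if j < i then (1 : ℝ) else 0)) * z j) :=
        Finset.sum_congr rfl (fun i _ => Finset.sum_congr rfl (fun j _ => habs i j))
    _ = (∑ i : Fin t, ∑ j : Fin t,
        ((if j < i then (1 : ℝ) else 0) - (if i < j then (1 : ℝ) else 0)) * z i) +
        (∑ i : Fin t, ∑ j : Fin t,
        ((if i < j then (1 : ℝ) else 0) - (if j < i then (1 : ℝ) else 0)) * z j) := by
        rw [← Finset.sum_add_distrib]
        refine Finset.sum_congr rfl (fun i _ => ?_)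
        rw [← Finset.sum_add_distrib]
    _ = 2 * ∑ i : Fin t, (2 * (i : ℝ) + 1 - t) * z i := by
        rw [hA, hB]; ring

/-- **Gini mean difference inequality.**
PROOF.  Sort `y`: `y_1 ≤ ... ≤ y_t`.  `∑_{i,j} |y_i - y_j| = 2 ∑_k (2 k - t - 1) y_k ≤
2 sqrt(∑ (2 k - t - 1)^2) sqrt(∑ y_k^2)` and `∑_{k=1}^t (2 k - t - 1)^2 = t (t^2 - 1)/3 ≤ t^3/3`.
(Alternative proof without sorting, by energy: compare with the uniform distribution on `[-a, a]`.) -/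
theorem gini_one (t : ℕ) (y : Fin t → ℝ) :
    (∑ i, ∑ j, |y i - y j|) ≤ 2 / Real.sqrt 3 * t * Real.sqrt t * Real.sqrt (∑ i, y i ^ 2) := by
  set σ := Tuple.sort y with hσ
  have hmono : Monotone (y ∘ σ) := Tuple.monotone_sort y
  have h1 : (∑ i, ∑ j, |y i - y j|) = ∑ i, ∑ j, |(y ∘ σ) i - (y ∘ σ) j| := by
    rw [← Equiv.sum_comp σ]
    refine Finset.sum_congr rfl (fun i _ => ?_)
    rw [← Equiv.sum_comp σ]
    rfl
  have h2 : (∑ i, y i ^ 2) = ∑ i, ((y ∘ σ) i) ^ 2 := by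
    rw [← Equiv.sum_comp σ]
    rfl
  rw [h1, h2, gini_mono t _ hmono]
  have hcs := Real.sum_mul_le_sqrt_mul_sqrt (Finset.univ : Finset (Fin t))
    (fun i => 2 * (i : ℝ) + 1 - t) (y ∘ σ)
  have hsum : ∑ i : Fin t, (2 * (i : ℝ) + 1 - t) ^ 2 = (t : ℝ) * ((t : ℝ) ^ 2 - 1) / 3 := by
    rw [Fin.sum_univ_eq_sum_range (fun i => (2 * (i : ℝ) + 1 - t) ^ 2) t, gini_sq_sum]
    ring
  have ht0 : (0 : ℝ) ≤ t := Nat.cast_nonneg t
  have hsq : Real.sqrt (∑ i : Fin t, (2 * (i : ℝ) + 1 - t) ^ 2)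
      ≤ 1 / Real.sqrt 3 * t * Real.sqrt t := by
    rw [hsum]
    apply Real.sqrt_le_iff.2
    refine ⟨by positivity, ?_⟩
    have h3 : Real.sqrt 3 ^ 2 = 3 := Real.sq_sqrt (by norm_num)
    have ht : Real.sqrt t ^ 2 = t := Real.sq_sqrt ht0
    have : (1 / Real.sqrt 3 * t * Real.sqrt t) ^ 2 = (t : ℝ) * (t : ℝ) ^ 2 / 3 := by
      rw [mul_pow, mul_pow, div_pow, h3, ht]
      ring
    rw [this]
    nlinarith
  have hs0 : 0 ≤ Real.sqrt (∑ i, ((y ∘ σ) i) ^ 2) := Real.sqrt_nonneg _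
  calc 2 * ∑ i : Fin t, (2 * (i : ℝ) + 1 - t) * (y ∘ σ) i
      ≤ 2 * (Real.sqrt (∑ i : Fin t, (2 * (i : ℝ) + 1 - t) ^ 2) *
          Real.sqrt (∑ i, ((y ∘ σ) i) ^ 2)) := by
        apply mul_le_mul_of_nonneg_left hcs (by norm_num)
    _ ≤ 2 * ((1 / Real.sqrt 3 * t * Real.sqrt t) * Real.sqrt (∑ i, ((y ∘ σ) i) ^ 2)) := by
        apply mul_le_mul_of_nonneg_left _ (by norm_num)
        exact mul_le_mul_of_nonneg_right hsq hs0
    _ = 2 / Real.sqrt 3 * t * Real.sqrt t * Real.sqrt (∑ i, ((y ∘ σ) i) ^ 2) := by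
        ring

/-- PROOF.  Sum `gini_one` over the coordinates `s` and use Cauchy-Schwarz
`∑_s sqrt(a_s) ≤ sqrt(card ι) sqrt(∑_s a_s)`. -/
theorem gini {ι : Type*} [Fintype ι] (t : ℕ) (x : Fin t → ι → ℝ) :
    (∑ i, ∑ j, ∑ s, |x i s - x j s|) ≤
      2 / Real.sqrt 3 * t * Real.sqrt t * Real.sqrt (Fintype.card ι) *
        Real.sqrt (∑ i, ∑ s, (x i s) ^ 2) := by
  have h1 : (∑ i, ∑ j, ∑ s, |x i s - x j s|) = ∑ s, ∑ i, ∑ j, |x i s - x j s| := by
    have h0 : ∀ i, (∑ j, ∑ s, |x i s - x j s|) = ∑ s, ∑ j, |x i s - x j s| :=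
      fun i => Finset.sum_comm
    rw [Finset.sum_congr rfl (fun i _ => h0 i), Finset.sum_comm]
  have h2 : (∑ i, ∑ s, (x i s) ^ 2) = ∑ s, ∑ i, (x i s) ^ 2 := Finset.sum_comm
  rw [h1, h2]
  have hK : (0 : ℝ) ≤ 2 / Real.sqrt 3 * t * Real.sqrt t := by positivity
  have hcs : ∑ s, Real.sqrt (∑ i, (x i s) ^ 2)
      ≤ Real.sqrt (Fintype.card ι) * Real.sqrt (∑ s, ∑ i, (x i s) ^ 2) := by
    have := Real.sum_mul_le_sqrt_mul_sqrt (Finset.univ : Finset ι) (fun _ => (1 : ℝ))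
      (fun s => Real.sqrt (∑ i, (x i s) ^ 2))
    have h3 : ∑ s : ι, (Real.sqrt (∑ i, (x i s) ^ 2)) ^ 2 = ∑ s, ∑ i, (x i s) ^ 2 :=
      Finset.sum_congr rfl (fun s _ => Real.sq_sqrt (Finset.sum_nonneg (fun i _ => sq_nonneg _)))
    simp only [one_mul, one_pow, Finset.sum_const, Finset.card_univ, nsmul_eq_mul, mul_one] at this
    rw [h3] at this
    exact this
  calc (∑ s, ∑ i, ∑ j, |x i s - x j s|)
      ≤ ∑ s, 2 / Real.sqrt 3 * t * Real.sqrt t * Real.sqrt (∑ i, (x i s) ^ 2) :=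
        Finset.sum_le_sum (fun s _ => gini_one t (fun i => x i s))
    _ = 2 / Real.sqrt 3 * t * Real.sqrt t * ∑ s, Real.sqrt (∑ i, (x i s) ^ 2) := by
        rw [Finset.mul_sum]
    _ ≤ 2 / Real.sqrt 3 * t * Real.sqrt t *
        (Real.sqrt (Fintype.card ι) * Real.sqrt (∑ s, ∑ i, (x i s) ^ 2)) :=
        mul_le_mul_of_nonneg_left hcs hK
    _ = _ := by ring

end Pool.Agent.W_420c7c_h88
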