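import Pool.Agent.W_420c7c_h88.RootsBound
import Pool.Agent.W_420c7c_h88.Conj
import Pool.Agent.W_420c7c_h88.NormBound
import Pool.Agent.W_420c7c_h88.Gini
import Pool.Agent.W_420c7c_h88.Box

set_option autoImplicit false
open Polynomial

namespace Pool.Agent.W_420c7c_h88

/-- the centred logarithmic vector of `e` -/
noncomputable def xv (k : ℕ) (κ : Fin (2 ^ k) → ℕ) (e : Fin (2 ^ k) → ℕ)
    (u : (ZMod (2 ^ (k + 2)))ˣ) : ℝ :=
  ∑ i, ((e i : ℝ) - ((κ i : ℝ) - 1) / 2) * lm k u i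

theorem xv_sub (k : ℕ) (κ e e' : Fin (2 ^ k) → ℕ) (u : (ZMod (2 ^ (k + 2)))ˣ) :
    xv k κ e u - xv k κ e' u = ∑ i, ((e i : ℝ) - (e' i : ℝ)) * lm k u i := by
  unfold xv
  rw [← Finset.sum_sub_distrib]
  exact Finset.sum_congr rfl fun i _ => by ring

theorem card_units_cb (k : ℕ) : Fintype.card (ZMod (2 ^ (k + 2)))ˣ = 2 ^ (k + 1) := by
  rw [ZMod.card_units_eq_totient, Nat.totient_prime_pow Nat.prime_two (by omega)]
  simp

theorem qs_nonneg (k : ℕ) : 0 ≤ qs k := Finset.sum_nonneg fun _ _ => sq_nonneg _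

open Classical in
/-- the good exponent vectors -/
noncomputable def good (k : ℕ) (κ : Fin (2 ^ k) → ℕ) (W : ℝ) : Finset (Fin (2 ^ k) → ℕ) :=
  (box κ).filter (fun e => ∑ u, (xv k κ e u) ^ 2 ≤ W)

open Classical in
/-- Markov's inequality -/
theorem markov (k : ℕ) (κ : Fin (2 ^ k) → ℕ) (hκ : ∀ i, 2 ≤ κ i ∧ κ i ≤ 4) (V : ℝ)
    (hV : ∑ i, ((κ i : ℝ) ^ 2 - 1) / 12 ≤ V) (δ : ℝ) (hδ : 0 < δ) :
    ((box κ).card : ℝ) * δ ≤ (1 + δ) * ((good k κ ((1 + δ) * V * qs k)).card : ℝ) := by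
  set W := (1 + δ) * V * qs k with hW
  have hm := box_moment k κ (fun i => by have := (hκ i).1; omega)
  have hq := qs_nonneg k
  have hs0 : 0 < ∑ i, ((κ i : ℝ) ^ 2 - 1) / 12 := by
    refine Finset.sum_pos (fun i _ => ?_) ⟨⟨0, by positivity⟩, Finset.mem_univ _⟩
    have : (2 : ℝ) ≤ κ i := by exact_mod_cast (hκ i).1
    nlinarith
  have hV0 : 0 < V := lt_of_lt_of_le hs0 hV
  have htot : ∑ e ∈ box κ, ∑ u, (xv k κ e u) ^ 2 ≤ ((box κ).card : ℝ) * (V * qs k) := by
    have : ∑ e ∈ box κ, ∑ u, (xv k κ e u) ^ 2 =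
      ((box κ).card : ℝ) * ((∑ i, ((κ i : ℝ) ^ 2 - 1) / 12) * qs k) := hm
    rw [this]
    exact mul_le_mul_of_nonneg_left (mul_le_mul_of_nonneg_right hV hq) (by positivity)
  have hcard : ((box κ).card : ℝ) = (good k κ W).card +
      ((box κ).filter (fun e => ¬ ∑ u, (xv k κ e u) ^ 2 ≤ W)).card := by
    rw [← Nat.cast_add]
    congr 1
    exact (Finset.card_filter_add_card_filter_not _).symm
  rcases hq.eq_or_lt with h0 | hpos
  · -- all elements are good
    have hall : ((box κ).filter (fun e => ¬ ∑ u, (xv k κ e u) ^ 2 ≤ W)).card = 0 := by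
      rw [Finset.card_eq_zero, Finset.filter_eq_empty_iff]
      intro e he
      rw [not_not]
      have h1 : ∑ u, (xv k κ e u) ^ 2 ≤ ∑ e ∈ box κ, ∑ u, (xv k κ e u) ^ 2 :=
        Finset.single_le_sum (f := fun e => ∑ u, (xv k κ e u) ^ 2)
          (fun _ _ => Finset.sum_nonneg fun _ _ => sq_nonneg _) he
      have h2 : ((box κ).card : ℝ) * (V * qs k) = 0 := by rw [← h0]; ring
      have h3 : W = 0 := by rw [hW, ← h0]; ring
      rw [h3]; linarith
    rw [hall] at hcard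
    have hg : (0 : ℝ) ≤ (good k κ W).card := by positivity
    rw [hcard]; push_cast; nlinarith
  · have hbad : (((box κ).filter (fun e => ¬ ∑ u, (xv k κ e u) ^ 2 ≤ W)).card : ℝ) * W ≤
        ((box κ).card : ℝ) * (V * qs k) := by
      refine le_trans ?_ htot
      rw [← nsmul_eq_mul]
      refine le_trans (Finset.card_nsmul_le_sum _ (fun e => ∑ u, (xv k κ e u) ^ 2) _ ?_) ?_
      · intro e he
        exact (not_le.1 (Finset.mem_filter.1 he).2).le
      · exact Finset.sum_le_sum_of_subset_of_nonneg (Finset.filter_subset _ _)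
          (fun _ _ _ => Finset.sum_nonneg fun _ _ => sq_nonneg _)
    have hVq : 0 < V * qs k := mul_pos hV0 hpos
    have hWe : W = (1 + δ) * (V * qs k) := by rw [hW]; ring
    rw [hWe] at hbad
    have hb2 : (((box κ).filter (fun e => ¬ ∑ u, (xv k κ e u) ^ 2 ≤ W)).card : ℝ) * (1 + δ) ≤
        ((box κ).card : ℝ) := by
      have : (((box κ).filter (fun e => ¬ ∑ u, (xv k κ e u) ^ 2 ≤ W)).card : ℝ) * (1 + δ) *
        (V * qs k) ≤ ((box κ).card : ℝ) * (V * qs k) := by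
          calc _ = (((box κ).filter (fun e => ¬ ∑ u, (xv k κ e u) ^ 2 ≤ W)).card : ℝ) *
            ((1 + δ) * (V * qs k)) := by ring
            _ ≤ _ := by rw [hWe]; exact hbad
      exact le_of_mul_le_mul_right this hVq
    nlinarith

open Classical in
theorem count_bound (p k : ℕ) (hp : p.Prime) {F : Type*} [Field F] [CharP F p]
    {z : F} (hz : IsPrimitiveRoot z (2 ^ (k + 2))) {n : ℕ} (hn : n % 8 = 3 ∨ n % 8 = 5)
    (hI : Intro z n) (κ : Fin (2 ^ k) → ℕ) (hκ : ∀ i, 2 ≤ κ i ∧ κ i ≤ 4) (N : ℕ)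
    (hN : ∀ S : Finset (Fin (2 ^ k) → ℕ), (S.image (val z)).card ≤ N) (V : ℝ)
    (hV : ∑ i, ((κ i : ℝ) ^ 2 - 1) / 12 ≤ V) (t : ℕ) (ht : 2 ≤ t) (δ : ℝ) (hδ : 0 < δ)
    (hR : 2 / Real.sqrt 3 * t * Real.sqrt (2 ^ (k + 1) * ((1 + δ) * V * qs k)) <
      (t - 1) * (2 ^ (k + 1) * (2 * Real.log p - 5 * Real.log 2))) :
    ((box κ).card : ℝ) * δ ≤ (1 + δ) * ((t - 1) * (N * 2 ^ (k + 2))) := by
  refine le_trans (markov k κ hκ V hV δ hδ) ?_
  refine mul_le_mul_of_nonneg_left ?_ (by linarith)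
  set W := (1 + δ) * V * qs k with hW
  by_contra hcon
  push Not at hcon
  -- the classes
  set S := good k κ W with hS
  have hcon' : (S.image (val z) ×ˢ (Finset.univ : Finset (ZMod (2 ^ (k + 2))))).card * (t - 1) <
      S.card := by
    have h1 : (S.image (val z) ×ˢ (Finset.univ : Finset (ZMod (2 ^ (k + 2))))).card ≤
        N * 2 ^ (k + 2) := by
      rw [Finset.card_product, Finset.card_univ, ZMod.card]
      exact Nat.mul_le_mul_right _ (hN S)
    have h2 : (((t - 1 : ℕ) : ℝ)) = (t : ℝ) - 1 := by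
      rw [Nat.cast_sub (by omega)]; simp
    have h3 : (((N * 2 ^ (k + 2)) * (t - 1) : ℕ) : ℝ) < S.card := by
      push_cast
      rw [h2]
      linarith
    have h4 : (N * 2 ^ (k + 2)) * (t - 1) < S.card := by exact_mod_cast h3
    exact lt_of_le_of_lt (Nat.mul_le_mul_right _ h1) h4
  obtain ⟨y, hy, hyc⟩ := Finset.exists_lt_card_fiber_of_mul_lt_card_of_maps_to
    (s := S) (t := S.image (val z) ×ˢ (Finset.univ : Finset (ZMod (2 ^ (k + 2)))))
    (f := fun e => (val z e, (wt e : ZMod (2 ^ (k + 2))))) (n := t - 1)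
    (fun e he => Finset.mem_product.2 ⟨Finset.mem_image_of_mem _ he, Finset.mem_univ _⟩) hcon'
  obtain ⟨A, hAsub, hAcard⟩ := Finset.exists_subset_card_eq (show t ≤ _ from by omega : t ≤
    (S.filter (fun e => (val z e, (wt e : ZMod (2 ^ (k + 2)))) = y)).card)
  let a : Fin t → (Fin (2 ^ k) → ℕ) := fun i => ((A.equivFin.trans (finCongr hAcard)).symm i).1
  have ha : ∀ i, a i ∈ A := fun i => ((A.equivFin.trans (finCongr hAcard)).symm i).2
  have hainj : Function.Injective a := by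
    intro i j hij
    exact (A.equivFin.trans (finCongr hAcard)).symm.injective (Subtype.ext hij)
  have haS : ∀ i, a i ∈ S := fun i => (Finset.mem_filter.1 (hAsub (ha i))).1
  have hay : ∀ i, (val z (a i), (wt (a i) : ZMod (2 ^ (k + 2)))) = y :=
    fun i => (Finset.mem_filter.1 (hAsub (ha i))).2
  have hbox : ∀ i, a i ∈ box κ := fun i => (Finset.mem_filter.1 (haS i)).1
  have hsum : ∀ i, ∑ l, ((a i l : ℕ) : ℝ) ≤ 3 * 2 ^ k := by
    intro i
    have h1 : ∀ l, ((a i l : ℕ) : ℝ) ≤ 3 := by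
      intro l
      have h2 := (Fintype.mem_piFinset.1 (hbox i)) l
      have h3 := Finset.mem_range.1 h2
      have h4 := (hκ l).2
      have : a i l ≤ 3 := by omega
      exact_mod_cast this
    calc _ ≤ ∑ _l : Fin (2 ^ k), (3 : ℝ) := Finset.sum_le_sum fun l _ => h1 l
      _ = _ := by simp; ring
  -- pairwise distances
  have hdist : ∀ i j, i ≠ j → 2 ^ (k + 1) * (2 * Real.log p - 5 * Real.log 2) ≤
      ∑ u, |xv k κ (a i) u - xv k κ (a j) u| := by
    intro i j hij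
    have hne : a i ≠ a j := fun h => hij (hainj h)
    have h0 : val z (a i) = val z (a j) := by
      have := (hay i).trans (hay j).symm
      exact (Prod.ext_iff.1 this).1
    have hw : (wt (a i) : ZMod (2 ^ (k + 2))) = (wt (a j) : ZMod (2 ^ (k + 2))) := by
      have := (hay i).trans (hay j).symm
      exact (Prod.ext_iff.1 this).2
    have hnb := norm_bound p k hp hz hne (val_conj k hn hz hI h0 hw)
    have hl2 : 0 ≤ Real.log 2 := Real.log_nonneg (by norm_num)
    have h5 : ((∑ l, (a i l : ℝ)) + ∑ l, (a j l : ℝ)) / 2 * Real.log 2 ≤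
        3 * 2 ^ k * Real.log 2 := by
      refine mul_le_mul_of_nonneg_right ?_ hl2
      have := hsum i
      have := hsum j
      linarith
    have h6 : ∑ u, |xv k κ (a i) u - xv k κ (a j) u| =
        ∑ u : (ZMod (2 ^ (k + 2)))ˣ, |∑ l, ((a i l : ℝ) - (a j l : ℝ)) * lm k u l| :=
      Finset.sum_congr rfl fun u _ => by rw [xv_sub]
    rw [h6]
    have h7 : (2 : ℝ) ^ (k + 1) = 2 * 2 ^ k := by ring
    rw [h7] at hnb ⊢
    nlinarith
  -- the sum of all distances
  set R := 2 ^ (k + 1) * (2 * Real.log p - 5 * Real.log 2) with hRdef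
  have ht0 : (0 : ℝ) < t := by positivity
  have hlow : (t : ℝ) * ((t - 1) * R) ≤
      ∑ i, ∑ j, ∑ u, |xv k κ (a i) u - xv k κ (a j) u| := by
    have h1 : ∀ i, ((t : ℝ) - 1) * R ≤ ∑ j, ∑ u, |xv k κ (a i) u - xv k κ (a j) u| := by
      intro i
      calc ((t : ℝ) - 1) * R = ∑ j ∈ Finset.univ.erase i, R := by
            rw [Finset.sum_const, Finset.card_erase_of_mem (Finset.mem_univ i), Finset.card_univ,
              Fintype.card_fin, nsmul_eq_mul, Nat.cast_sub (by omega)]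
            simp
        _ ≤ ∑ j ∈ Finset.univ.erase i, ∑ u, |xv k κ (a i) u - xv k κ (a j) u| :=
            Finset.sum_le_sum fun j hj => hdist i j (Finset.ne_of_mem_erase hj).symm
        _ ≤ _ := Finset.sum_le_sum_of_subset_of_nonneg (Finset.erase_subset _ _)
            fun _ _ _ => Finset.sum_nonneg fun _ _ => abs_nonneg _
    calc (t : ℝ) * ((t - 1) * R) = ∑ _i : Fin t, ((t : ℝ) - 1) * R := by simp
      _ ≤ _ := Finset.sum_le_sum fun i _ => h1 i
  have hgini := gini t (fun i u => xv k κ (a i) u)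
  rw [card_units_cb] at hgini
  have hW2 : ∑ i, ∑ u, (xv k κ (a i) u) ^ 2 ≤ t * W := by
    calc _ ≤ ∑ _i : Fin t, W := Finset.sum_le_sum fun i _ => (Finset.mem_filter.1 (haS i)).2
      _ = _ := by simp
  have hW0 : 0 ≤ W := by
    have : (0 : ℝ) ≤ t * W := le_trans (Finset.sum_nonneg fun _ _ =>
      Finset.sum_nonneg fun _ _ => sq_nonneg _) hW2
    by_contra h
    push Not at h
    nlinarith
  have hup : 2 / Real.sqrt 3 * t * Real.sqrt t * Real.sqrt ((2 ^ (k + 1) : ℕ) : ℝ) *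
        Real.sqrt (∑ i, ∑ u, (xv k κ (a i) u) ^ 2) ≤
      t * (2 / Real.sqrt 3 * t * Real.sqrt (2 ^ (k + 1) * W)) := by
    have h1 : Real.sqrt (∑ i, ∑ u, (xv k κ (a i) u) ^ 2) ≤ Real.sqrt t * Real.sqrt W := by
      rw [← Real.sqrt_mul (by positivity)]
      exact Real.sqrt_le_sqrt hW2
    have h2 : Real.sqrt (2 ^ (k + 1) * W) = Real.sqrt ((2 ^ (k + 1) : ℕ) : ℝ) * Real.sqrt W := by
      rw [← Real.sqrt_mul (by positivity)]
      push_cast; rfl
    have h3 : Real.sqrt t * Real.sqrt t = t := Real.mul_self_sqrt (by positivity)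
    calc _ ≤ 2 / Real.sqrt 3 * t * Real.sqrt t * Real.sqrt ((2 ^ (k + 1) : ℕ) : ℝ) *
          (Real.sqrt t * Real.sqrt W) := mul_le_mul_of_nonneg_left h1 (by positivity)
      _ = (Real.sqrt t * Real.sqrt t) * (2 / Real.sqrt 3 * t *
          (Real.sqrt ((2 ^ (k + 1) : ℕ) : ℝ) * Real.sqrt W)) := by ring
      _ = _ := by rw [h3, h2]
  have hfin : (t : ℝ) * ((t - 1) * R) < (t : ℝ) * ((t - 1) * R) :=
    calc (t : ℝ) * ((t - 1) * R) ≤ _ := hlow
      _ ≤ _ := hgini
      _ ≤ _ := hup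
      _ < (t : ℝ) * ((t - 1) * R) := mul_lt_mul_of_pos_left hR ht0
  exact lt_irrefl _ hfin

end Pool.Agent.W_420c7c_h88
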