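import Pool.Agent.W_MP_420c7c_nt.Structure

set_option autoImplicit false
open Polynomial

/-!
# MP_420c7c_nt, part T3: definitions

`k` is a natural number; the modulus is `r = 2^(k+2)`, and `g = 2^k`.  The odd residues modulo `r`
up to sign are represented by `2 i + 1`, `i : Fin (2^k)`.
-/

namespace Pool.Agent.W_420c7c_h88

/-- condition (C) of the problem -/
def CondC (n : ℕ) : Prop :=
  ∀ r : ℕ, 1 ≤ r → (r : ℝ) ≤ (Real.logb 2 (n : ℝ)) ^ 2 →
    ((X : (ZMod n)[X]) ^ r - 1) ∣ ((1 + X) ^ n - (1 + X ^ n))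

/-- the product of the powers `(1 + z^(2 i + 1))^(e i)` -/
noncomputable def val {A : Type*} [CommRing A] (z : A) {g : ℕ} (e : Fin g → ℕ) : A :=
  ∏ i : Fin g, (1 + z ^ (2 * (i : ℕ) + 1)) ^ (e i)

/-- the weight `∑ (2 i + 1) e i` -/
def wt {g : ℕ} (e : Fin g → ℕ) : ℕ := ∑ i : Fin g, (2 * (i : ℕ) + 1) * e i

/-- `u` is introspective for all `1 + z^a` -/
def Intro {F : Type*} [Field F] (z : F) (u : ℕ) : Prop :=
  ∀ a : ℕ, (1 + z ^ a) ^ u = 1 + z ^ (a * u)

/-- the standard primitive root of unity of order `2^(k+2)` in `ℂ` -/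
noncomputable def zc (k : ℕ) : ℂ := Complex.exp (2 * Real.pi * Complex.I / (2 ^ (k + 2) : ℕ))

/-- the logarithmic matrix -/
noncomputable def lm (k : ℕ) (u : (ZMod (2 ^ (k + 2)))ˣ) (i : Fin (2 ^ k)) : ℝ :=
  Real.log ‖1 + zc k ^ ((u : ZMod (2 ^ (k + 2))).val * (2 * (i : ℕ) + 1))‖

/-- the sum of the squares of a column of the logarithmic matrix -/
noncomputable def qs (k : ℕ) : ℝ :=
  ∑ u : (ZMod (2 ^ (k + 2)))ˣ, (Real.log ‖1 + zc k ^ (u : ZMod (2 ^ (k + 2))).val‖) ^ 2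

/-- the box of exponent vectors `0 ≤ e i < κ i` -/
def box {g : ℕ} (κ : Fin g → ℕ) : Finset (Fin g → ℕ) :=
  Fintype.piFinset (fun i => Finset.range (κ i))

theorem zc_prim (k : ℕ) : IsPrimitiveRoot (zc k) (2 ^ (k + 2)) := by
  have h := Complex.isPrimitiveRoot_exp (2 ^ (k + 2)) (by positivity)
  simpa [zc] using h

end Pool.Agent.W_420c7c_h88
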