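import Pool.Agent.W_420c7c_h88.Defs

set_option autoImplicit false

namespace Pool.Agent.W_420c7c_h88

/-- The sum of the absolute values of the integers of a symmetric interval. -/
theorem sum_abs_Icc (J : ℕ) : ∑ j ∈ Finset.Icc (-(J : ℤ)) J, |(j : ℝ)| = J * (J + 1) := by
  induction J with
  | zero => simp
  | succ n ih =>
    have h1 : Finset.Icc (-((n + 1 : ℕ) : ℤ)) ((n + 1 : ℕ) : ℤ) =
        insert (-((n + 1 : ℕ) : ℤ)) (insert ((n + 1 : ℕ) : ℤ) (Finset.Icc (-(n : ℤ)) n)) := by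
      ext x
      simp only [Finset.mem_Icc, Finset.mem_insert]
      push_cast
      omega
    rw [h1, Finset.sum_insert, Finset.sum_insert, ih]
    · push_cast
      rw [abs_neg, abs_of_nonneg (by positivity)]
      ring
    · simp only [Finset.mem_Icc]
      push_cast
      omega
    · simp only [Finset.mem_Icc, Finset.mem_insert]
      push_cast
      omega

/-- **Lattice points in a hexagon.**
PROOF.  Put `J = ⌊T/M⌋`.  For `|j| ≤ J`, `v = j M`, the conditions on `i` say that `i P` is in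
`[max(-T, -T-v), min(T, T-v)]`, an interval of length `2 T - |v|`, so there are at least
`(2 T - |v|)/P - 1` integers `i`.  So the number of points is at least
`(2 J + 1)(2 T/P - 1) - (M/P) J (J+1)`.  With `2 J + 1 ≥ 2 T/M - 1`, `J ≤ T/M` and
`2T/P ≥ 1` this is at least `(2T/M - 1)(2T/P - 1) - (T/P)(T/M + 1) = 3T²/(PM) - 3T/P - 2T/M + 1`,
which is `> g` by the hypothesis `g P M < 3 T² - 3 T M - 2 T P`. -/
theorem hexagon_count (P M T : ℝ) (g : ℕ) (hP : 0 < P) (hM : 0 < M) (hT : P + M ≤ T)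
    (h : g * P * M < 3 * T ^ 2 - 3 * T * (P + M)) :
    ∃ H : Finset (ℤ × ℤ), g < H.card ∧
      ∀ x ∈ H, |(x.1 : ℝ) * P| ≤ T ∧ |(x.2 : ℝ) * M| ≤ T ∧
        |(x.1 : ℝ) * P + (x.2 : ℝ) * M| ≤ T := by
  have hT0 : 0 < T := by linarith
  obtain ⟨J, hJ⟩ : ∃ J : ℕ, J = ⌊T / M⌋₊ := ⟨_, rfl⟩
  have hJ1 : (J : ℝ) * M ≤ T := by
    have h1 : (J : ℝ) ≤ T / M := by
      rw [hJ]
      exact Nat.floor_le (by positivity)
    rwa [le_div_iff₀ hM] at h1
  have hJ2 : T < (J + 1) * M := by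
    have h1 : T / M < J + 1 := by
      rw [hJ]
      exact Nat.lt_floor_add_one _
    rwa [div_lt_iff₀ hM] at h1
  -- the interval of the first coordinate
  let a : ℤ → ℝ := fun j => max (-T) (-T - j * M) / P
  let b : ℤ → ℝ := fun j => min T (T - j * M) / P
  have hab : ∀ j : ℤ, b j - a j = (2 * T - |(j : ℝ)| * M) / P := by
    intro j
    show min T (T - j * M) / P - max (-T) (-T - j * M) / P = _
    rw [← sub_div]
    congr 1
    rcases le_total 0 (j : ℝ) with hj | hj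
    · have h1 : 0 ≤ (j : ℝ) * M := mul_nonneg hj hM.le
      rw [min_eq_right (by linarith), max_eq_left (by linarith), abs_of_nonneg hj]
      ring
    · have h1 : (j : ℝ) * M ≤ 0 := mul_nonpos_of_nonpos_of_nonneg hj hM.le
      rw [min_eq_left (by linarith), max_eq_right (by linarith), abs_of_nonpos hj]
      ring
  let S : Finset (Σ _ : ℤ, ℤ) :=
    (Finset.Icc (-(J : ℤ)) J).sigma (fun j => Finset.Icc ⌈a j⌉ ⌊b j⌋)
  let φ : (Σ _ : ℤ, ℤ) → ℤ × ℤ := fun x => (x.2, x.1)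
  have hφ : Function.Injective φ := by
    rintro ⟨x1, x2⟩ ⟨y1, y2⟩ hxy
    have h1 : (x2, x1) = (y2, y1) := hxy
    rw [Prod.mk.injEq] at h1
    obtain ⟨h2, h3⟩ := h1
    subst h2 h3
    rfl
  refine ⟨S.image φ, ?_, ?_⟩
  · rw [Finset.card_image_of_injective _ hφ, Finset.card_sigma]
    have h1 : ∀ j ∈ Finset.Icc (-(J : ℤ)) J, (2 * T - |(j : ℝ)| * M) / P - 1 ≤
        ((Finset.Icc ⌈a j⌉ ⌊b j⌋).card : ℝ) := by
      intro j _
      rw [Int.card_Icc, ← hab j]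
      have h2 : b j - 1 < ⌊b j⌋ := Int.sub_one_lt_floor _
      have h3 : (⌈a j⌉ : ℝ) < a j + 1 := Int.ceil_lt_add_one _
      have h4 : ((⌊b j⌋ + 1 - ⌈a j⌉ : ℤ) : ℝ) ≤ (((⌊b j⌋ + 1 - ⌈a j⌉).toNat : ℕ) : ℝ) := by
        exact_mod_cast Int.self_le_toNat _
      push_cast at h4
      linarith
    have h2 : ((2 * J + 1 : ℝ)) * (2 * T / P - 1) - M / P * (J * (J + 1)) ≤
        ((∑ j ∈ Finset.Icc (-(J : ℤ)) J, (Finset.Icc ⌈a j⌉ ⌊b j⌋).card : ℕ) : ℝ) := by
      push_cast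
      refine le_trans (le_of_eq ?_) (Finset.sum_le_sum h1)
      have h3 : ∀ j : ℤ, (2 * T - |(j : ℝ)| * M) / P - 1 = (2 * T / P - 1) - M / P * |(j : ℝ)| := by
        intro j
        ring
      rw [Finset.sum_congr rfl (fun j _ => h3 j), Finset.sum_sub_distrib, Finset.sum_const,
        ← Finset.mul_sum, sum_abs_Icc, Int.card_Icc, nsmul_eq_mul]
      have h4 : ((((J : ℤ) + 1 - -(J : ℤ)).toNat : ℕ) : ℝ) = 2 * J + 1 := by
        have h5 : ((J : ℤ) + 1 - -(J : ℤ)).toNat = 2 * J + 1 := by omega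
        rw [h5]
        push_cast
        ring
      rw [h4]
    have h3 : (g : ℝ) < ((2 * J + 1 : ℝ)) * (2 * T / P - 1) - M / P * (J * (J + 1)) := by
      have e1 : ((2 * J + 1 : ℝ)) * (2 * T / P - 1) - M / P * (J * (J + 1)) =
          ((2 * J + 1) * (2 * T - P) - M * (J * (J + 1))) / P := by
        field_simp
      rw [e1, lt_div_iff₀ hP]
      -- multiply by M
      have e2 : (2 * T - M) * (2 * T - P) ≤ (2 * (J * M) + M) * (2 * T - P) := by
        apply mul_le_mul_of_nonneg_right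
        · linarith
        · linarith
      have e3 : (J * M) * (J * M + M) ≤ T * (T + M) := by
        apply mul_le_mul hJ1 (by linarith) (by positivity) hT0.le
      have e4 : g * P * M < ((2 * J + 1) * (2 * T - P) - M * (J * (J + 1))) * M := by
        have e5 : ((2 * J + 1) * (2 * T - P) - M * (J * (J + 1))) * M =
            (2 * (J * M) + M) * (2 * T - P) - (J * M) * (J * M + M) := by ring
        rw [e5]
        nlinarith [mul_pos hT0 hP, mul_pos hP hM]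
      exact lt_of_mul_lt_mul_right e4 hM.le
    exact_mod_cast lt_of_lt_of_le h3 h2
  · intro x hx
    obtain ⟨y, hy, rfl⟩ := Finset.mem_image.1 hx
    obtain ⟨hy1, hy2⟩ := Finset.mem_sigma.1 hy
    rw [Finset.mem_Icc] at hy1 hy2
    show |(y.2 : ℝ) * P| ≤ T ∧ |(y.1 : ℝ) * M| ≤ T ∧ |(y.2 : ℝ) * P + (y.1 : ℝ) * M| ≤ T
    have h1 : a y.1 ≤ y.2 := Int.ceil_le.1 hy2.1
    have h2 : (y.2 : ℝ) ≤ b y.1 := Int.le_floor.1 hy2.2
    have h3 : max (-T) (-T - (y.1 : ℝ) * M) ≤ y.2 * P := (div_le_iff₀ hP).1 h1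
    have h4 : y.2 * P ≤ min T (T - (y.1 : ℝ) * M) := (le_div_iff₀ hP).1 h2
    rw [max_le_iff] at h3
    rw [le_min_iff] at h4
    have h5 : (-(J : ℝ)) ≤ y.1 := by exact_mod_cast hy1.1
    have h6 : (y.1 : ℝ) ≤ J := by exact_mod_cast hy1.2
    have h7 : -((J : ℝ) * M) ≤ y.1 * M := by nlinarith
    have h8 : (y.1 : ℝ) * M ≤ J * M := by nlinarith
    refine ⟨abs_le.2 ⟨h3.1, h4.1⟩, abs_le.2 ⟨by linarith, by linarith⟩,
      abs_le.2 ⟨by linarith [h3.2], by linarith [h4.2]⟩⟩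

/-- **Pigeonhole.**  `p`, `m` odd; the unit group of `ZMod (2^(k+2))` modulo `±1` has `2^k` elements.
PROOF.  Let `P = log p`, `M = log m`, `T = sqrt(2^k P M / 3) + P + M`; then
`3 T² - 3 T (P + M) = 3 T (T - P - M) > 2^k P M`, so `hexagon_count` (with `g = 2^k`) gives more
than `2^k` pairs `(i, j)`; two of them give the same class of `p^i m^j` (units of
`ZMod (2^(k+2))`, `zpow`) up to sign; their difference `(a, b) ≠ 0` satisfies
`p^a m^b = ±1`, `|a P|, |b M|, |a P + b M| ≤ 2 T`.  Replace `(a, b)` by `(-a, -b)` if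
necessary.  If `a, b ≥ 0`: `u = p^a m^b`, `v = 1`.  If `a > 0 > b`: `{u, v} = {p^a, m^(-b)}`; they are different
by `hind`.  In all cases `u ≠ v`; take the larger one as `u`. -/
theorem exists_pair (k : ℕ) {p m : ℕ} (hp : p.Prime) (hp2 : p ≠ 2) (hm : 1 < m) (hmo : Odd m)
    (hind : ∀ a b : ℕ, 0 < a → p ^ a ≠ m ^ b) :
    ∃ u v : ℕ, v < u ∧ (∃ i j : ℕ, u = p ^ i * m ^ j) ∧ (∃ i j : ℕ, v = p ^ i * m ^ j) ∧
      ((u : ZMod (2 ^ (k + 2))) = v ∨ (u : ZMod (2 ^ (k + 2))) = -v) ∧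
      Real.log u ≤ 2 * (Real.sqrt (2 ^ k * Real.log p * Real.log m / 3) +
        Real.log p + Real.log m) := by
  obtain ⟨P, hP⟩ : ∃ P : ℝ, P = Real.log p := ⟨_, rfl⟩
  obtain ⟨M, hM⟩ : ∃ M : ℝ, M = Real.log m := ⟨_, rfl⟩
  have hP0 : 0 < P := by
    rw [hP]
    exact Real.log_pos (by exact_mod_cast hp.one_lt)
  have hM0 : 0 < M := by
    rw [hM]
    exact Real.log_pos (by exact_mod_cast hm)
  rw [← hP, ← hM]
  obtain ⟨r, hr⟩ : ∃ r : ℝ, r = Real.sqrt (2 ^ k * P * M / 3) := ⟨_, rfl⟩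
  have hr0 : 0 < r := by
    rw [hr]
    exact Real.sqrt_pos.2 (by positivity)
  have hr2 : r ^ 2 = 2 ^ k * P * M / 3 := by
    rw [hr]
    exact Real.sq_sqrt (by positivity)
  rw [← hr]
  obtain ⟨T, hT⟩ : ∃ T : ℝ, T = r + P + M := ⟨_, rfl⟩
  rw [← hT]
  have hbound : ((2 ^ k : ℕ) : ℝ) * P * M < 3 * T ^ 2 - 3 * T * (P + M) := by
    have e1 : 3 * T ^ 2 - 3 * T * (P + M) = 3 * r ^ 2 + 3 * r * (P + M) := by
      rw [hT]
      ring
    rw [e1, hr2]
    push_cast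
    have : 0 < 3 * r * (P + M) := by positivity
    linarith
  obtain ⟨H, hHc, hH⟩ := hexagon_count P M T (2 ^ k) hP0 hM0 (by linarith) hbound
  have hpo : Odd p := hp.odd_of_ne_two hp2
  have hcp : Nat.Coprime p (2 ^ (k + 2)) := (Nat.coprime_two_right.2 hpo).pow_right _
  have hcm : Nat.Coprime m (2 ^ (k + 2)) := (Nat.coprime_two_right.2 hmo).pow_right _
  have : NeZero (2 ^ (k + 2) : ℕ) := ⟨by positivity⟩
  obtain ⟨x, hx⟩ : ∃ x : (ZMod (2 ^ (k + 2)))ˣ, x = ZMod.unitOfCoprime p hcp := ⟨_, rfl⟩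
  obtain ⟨y, hy⟩ : ∃ y : (ZMod (2 ^ (k + 2)))ˣ, y = ZMod.unitOfCoprime m hcm := ⟨_, rfl⟩
  have hxv : (x : ZMod (2 ^ (k + 2))) = (p : ZMod (2 ^ (k + 2))) := by
    rw [hx]
    exact ZMod.coe_unitOfCoprime _ _
  have hyv : (y : ZMod (2 ^ (k + 2))) = (m : ZMod (2 ^ (k + 2))) := by
    rw [hy]
    exact ZMod.coe_unitOfCoprime _ _
  have hneg : (-1 : (ZMod (2 ^ (k + 2)))ˣ) ≠ 1 := by
    intro h
    have h1 : (-1 : ZMod (2 ^ (k + 2))) = 1 := by
      have := congrArg (fun t : (ZMod (2 ^ (k + 2)))ˣ => (t : ZMod (2 ^ (k + 2)))) h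
      simpa using this
    have h2 : ((2 : ℕ) : ZMod (2 ^ (k + 2))) = 0 := by
      push_cast
      have h4 : (2 : ZMod (2 ^ (k + 2))) = 1 - (-1) := by ring
      rw [h4, h1, sub_self]
    rw [ZMod.natCast_eq_zero_iff] at h2
    have h3 : 2 ^ (k + 2) ≤ 2 := Nat.le_of_dvd (by norm_num) h2
    have h4 : 2 ^ 2 ≤ 2 ^ (k + 2) := Nat.pow_le_pow_right (by norm_num) (by omega)
    omega
  -- pigeonhole
  have hcard : (Finset.univ : Finset (ZMod (2 ^ (k + 2)))ˣ).card <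
      (H ×ˢ (Finset.univ : Finset Bool)).card := by
    rw [Finset.card_univ, ZMod.card_units_eq_totient, Finset.card_product, Finset.card_univ,
      Fintype.card_bool, Nat.totient_prime_pow_succ Nat.prime_two]
    have : 2 ^ (k + 1) * (2 - 1) = 2 ^ k * 2 := by
      rw [pow_succ]
      norm_num
    omega
  let F : (ℤ × ℤ) × Bool → (ZMod (2 ^ (k + 2)))ˣ := fun w =>
    (if w.2 then 1 else -1) * (x ^ w.1.1 * y ^ w.1.2)
  obtain ⟨w, hw, w', hw', hne, heq⟩ := Finset.exists_ne_map_eq_of_card_lt_of_maps_to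
    hcard (f := F) (fun _ _ => Finset.mem_univ _)
  have hwH := (Finset.mem_product.1 hw).1
  have hwH' := (Finset.mem_product.1 hw').1
  have hF : (if w.2 then (1 : (ZMod (2 ^ (k + 2)))ˣ) else -1) * (x ^ w.1.1 * y ^ w.1.2) =
      (if w'.2 then 1 else -1) * (x ^ w'.1.1 * y ^ w'.1.2) := heq
  have hq : x ^ w.1.1 * y ^ w.1.2 = x ^ w'.1.1 * y ^ w'.1.2 ∨
      x ^ w.1.1 * y ^ w.1.2 = -(x ^ w'.1.1 * y ^ w'.1.2) := by
    rcases hb : w.2 with _ | _ <;> rcases hb' : w'.2 with _ | _ <;> rw [hb, hb'] at hF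
    · left
      simpa using hF
    · right
      have h1 : -(x ^ w.1.1 * y ^ w.1.2) = x ^ w'.1.1 * y ^ w'.1.2 := by simpa using hF
      rw [← h1, neg_neg]
    · right
      simpa using hF
    · left
      simpa using hF
  have hne1 : w.1 ≠ w'.1 := by
    intro h
    have hb : w.2 ≠ w'.2 := by
      intro hb
      exact hne (Prod.ext h hb)
    rw [h] at hF
    have h1 := mul_right_cancel hF
    rcases hb1 : w.2 with _ | _ <;> rcases hb2 : w'.2 with _ | _ <;> rw [hb1, hb2] at h1 hb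
    · exact hb rfl
    · exact hneg (by simpa using h1)
    · exact hneg (by simpa using h1.symm)
    · exact hb rfl
  obtain ⟨a, ha⟩ : ∃ a : ℤ, a = w.1.1 - w'.1.1 := ⟨_, rfl⟩
  obtain ⟨b, hb⟩ : ∃ b : ℤ, b = w.1.2 - w'.1.2 := ⟨_, rfl⟩
  have hab : a ≠ 0 ∨ b ≠ 0 := by
    by_contra hcon
    push Not at hcon
    apply hne1
    apply Prod.ext
    · omega
    · omega
  have hrel : x ^ a * y ^ b = 1 ∨ x ^ a * y ^ b = -1 := by
    have h1 : x ^ a * y ^ b = (x ^ w.1.1 * y ^ w.1.2) * (x ^ w'.1.1 * y ^ w'.1.2)⁻¹ := by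
      rw [ha, hb, zpow_sub, zpow_sub, mul_inv]
      exact mul_mul_mul_comm _ _ _ _
    rcases hq with hq | hq
    · left
      rw [h1, hq, mul_inv_cancel]
    · right
      rw [h1, hq, neg_mul, mul_inv_cancel]
  obtain ⟨hA1, hA2, hA3⟩ := hH _ hwH
  obtain ⟨hB1, hB2, hB3⟩ := hH _ hwH'
  rw [abs_le] at hA1 hA2 hA3 hB1 hB2 hB3
  have haP : |(a : ℝ) * P| ≤ 2 * T := by
    rw [ha]
    push_cast
    rw [abs_le]
    constructor <;> nlinarith
  have hbM : |(b : ℝ) * M| ≤ 2 * T := by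
    rw [hb]
    push_cast
    rw [abs_le]
    constructor <;> nlinarith
  have habPM : |(a : ℝ) * P + (b : ℝ) * M| ≤ 2 * T := by
    rw [ha, hb]
    push_cast
    rw [abs_le]
    constructor <;> nlinarith
  -- the final step
  have hfin : ∀ A B : ℕ, A ≠ B → (∃ i j : ℕ, A = p ^ i * m ^ j) → (∃ i j : ℕ, B = p ^ i * m ^ j) →
      ((A : ZMod (2 ^ (k + 2))) = B ∨ (A : ZMod (2 ^ (k + 2))) = -B) →
      Real.log A ≤ 2 * T → Real.log B ≤ 2 * T →
      ∃ u v : ℕ, v < u ∧ (∃ i j : ℕ, u = p ^ i * m ^ j) ∧ (∃ i j : ℕ, v = p ^ i * m ^ j) ∧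
      ((u : ZMod (2 ^ (k + 2))) = v ∨ (u : ZMod (2 ^ (k + 2))) = -v) ∧
      Real.log u ≤ 2 * T := by
    intro A B hAB h1 h2 h3 h4 h5
    rcases lt_or_gt_of_ne hAB with h | h
    · refine ⟨B, A, h, h2, h1, ?_, h5⟩
      rcases h3 with h3 | h3
      · exact Or.inl h3.symm
      · right
        rw [h3, neg_neg]
    · exact ⟨A, B, h, h1, h2, h3, h4⟩
  have hval : ∀ (i j : ℕ), (x ^ i * y ^ j : (ZMod (2 ^ (k + 2)))ˣ) = 1 ∨
      (x ^ i * y ^ j : (ZMod (2 ^ (k + 2)))ˣ) = -1 →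
      ((p ^ i * m ^ j : ℕ) : ZMod (2 ^ (k + 2))) = ((1 : ℕ) : ZMod (2 ^ (k + 2))) ∨
      ((p ^ i * m ^ j : ℕ) : ZMod (2 ^ (k + 2))) = -((1 : ℕ) : ZMod (2 ^ (k + 2))) := by
    intro i j h
    have e1 : ((p ^ i * m ^ j : ℕ) : ZMod (2 ^ (k + 2))) =
        ((x ^ i * y ^ j : (ZMod (2 ^ (k + 2)))ˣ) : ZMod (2 ^ (k + 2))) := by
      push_cast
      rw [hxv, hyv]
    rw [e1]
    rcases h with h | h
    · left
      rw [h]
      simp
    · right
      rw [h]
      simp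
  have hval2 : ∀ (i j : ℕ), (x ^ i : (ZMod (2 ^ (k + 2)))ˣ) = y ^ j ∨
      (x ^ i : (ZMod (2 ^ (k + 2)))ˣ) = -y ^ j →
      ((p ^ i : ℕ) : ZMod (2 ^ (k + 2))) = ((m ^ j : ℕ) : ZMod (2 ^ (k + 2))) ∨
      ((p ^ i : ℕ) : ZMod (2 ^ (k + 2))) = -((m ^ j : ℕ) : ZMod (2 ^ (k + 2))) := by
    intro i j h
    have e1 : ((p ^ i : ℕ) : ZMod (2 ^ (k + 2))) =
        ((x ^ i : (ZMod (2 ^ (k + 2)))ˣ) : ZMod (2 ^ (k + 2))) := by
      push_cast
      rw [hxv]
    have e2 : ((m ^ j : ℕ) : ZMod (2 ^ (k + 2))) =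
        ((y ^ j : (ZMod (2 ^ (k + 2)))ˣ) : ZMod (2 ^ (k + 2))) := by
      push_cast
      rw [hyv]
    rw [e1, e2]
    rcases h with h | h
    · left
      rw [h]
    · right
      rw [h]
      simp
  have hlog : ∀ i j : ℕ, Real.log ((p ^ i * m ^ j : ℕ) : ℝ) = i * P + j * M := by
    intro i j
    have hp0 : (p : ℝ) ≠ 0 := by exact_mod_cast hp.ne_zero
    have hm0 : (m : ℝ) ≠ 0 := by
      have : m ≠ 0 := by omega
      exact_mod_cast this
    push_cast
    rw [Real.log_mul (pow_ne_zero _ hp0) (pow_ne_zero _ hm0), Real.log_pow, Real.log_pow, hP, hM]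
  have hlogp : ∀ i : ℕ, Real.log ((p ^ i : ℕ) : ℝ) = i * P := by
    intro i
    push_cast
    rw [Real.log_pow, hP]
  have hlogm : ∀ j : ℕ, Real.log ((m ^ j : ℕ) : ℝ) = j * M := by
    intro j
    push_cast
    rw [Real.log_pow, hM]
  have hT0 : 0 < T := by linarith
  have hprod : ∀ i j : ℕ, (i ≠ 0 ∨ j ≠ 0) → p ^ i * m ^ j ≠ 1 := by
    intro i j hij h
    have h' : p ^ i = 1 ∧ m ^ j = 1 :=
      ⟨Nat.eq_one_of_mul_eq_one_right h, Nat.eq_one_of_mul_eq_one_left h⟩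
    rcases hij with hi | hj
    · have := Nat.one_lt_pow hi hp.one_lt
      omega
    · have := Nat.one_lt_pow hj hm
      omega
  have hpm : ∀ i j : ℕ, (i ≠ 0 ∨ j ≠ 0) → p ^ i ≠ m ^ j := by
    intro i j hij
    rcases Nat.eq_zero_or_pos i with hi | hi
    · subst hi
      have hj : j ≠ 0 := by
        rcases hij with h | h
        · exact absurd rfl h
        · exact h
      have := Nat.one_lt_pow hj hm
      rw [pow_zero]
      omega
    · exact hind i j hi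
  obtain ⟨i, hi⟩ := a.eq_nat_or_neg
  obtain ⟨j, hj⟩ := b.eq_nat_or_neg
  rcases hi with rfl | rfl <;> rcases hj with rfl | rfl
  · have hij : i ≠ 0 ∨ j ≠ 0 := by omega
    rw [zpow_natCast, zpow_natCast] at hrel
    refine hfin (p ^ i * m ^ j) 1 (hprod i j hij) ⟨i, j, rfl⟩ ⟨0, 0, by simp⟩ (hval i j hrel)
      ?_ (by simp; linarith)
    rw [hlog]
    push_cast at habPM
    exact (le_abs_self _).trans habPM
  · have hij : i ≠ 0 ∨ j ≠ 0 := by omega
    rw [zpow_natCast, zpow_neg, zpow_natCast] at hrel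
    refine hfin (p ^ i) (m ^ j) (hpm i j hij) ⟨i, 0, by simp⟩ ⟨0, j, by simp⟩
      (hval2 i j ?_) ?_ ?_
    · rcases hrel with h | h
      · left
        exact mul_inv_eq_one.1 h
      · right
        have h1 := mul_inv_eq_iff_eq_mul.1 h
        rw [h1, neg_one_mul]
    · rw [hlogp]
      push_cast at haP
      exact (le_abs_self _).trans haP
    · rw [hlogm]
      push_cast at hbM
      rw [neg_mul, abs_neg] at hbM
      exact (le_abs_self _).trans hbM
  · have hij : i ≠ 0 ∨ j ≠ 0 := by omega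
    rw [zpow_natCast, zpow_neg, zpow_natCast] at hrel
    refine hfin (p ^ i) (m ^ j) (hpm i j hij) ⟨i, 0, by simp⟩ ⟨0, j, by simp⟩
      (hval2 i j ?_) ?_ ?_
    · rcases hrel with h | h
      · left
        exact (inv_mul_eq_one.1 h)
      · right
        have h1 := inv_mul_eq_iff_eq_mul.1 h
        rw [h1, mul_neg_one, neg_neg]
    · rw [hlogp]
      push_cast at haP
      rw [neg_mul, abs_neg] at haP
      exact (le_abs_self _).trans haP
    · rw [hlogm]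
      push_cast at hbM
      exact (le_abs_self _).trans hbM
  · have hij : i ≠ 0 ∨ j ≠ 0 := by omega
    rw [zpow_neg, zpow_neg, zpow_natCast, zpow_natCast, ← mul_inv] at hrel
    have hrel' : (x ^ i * y ^ j : (ZMod (2 ^ (k + 2)))ˣ) = 1 ∨
        (x ^ i * y ^ j : (ZMod (2 ^ (k + 2)))ˣ) = -1 := by
      rcases hrel with h | h
      · left
        exact inv_eq_one.1 h
      · right
        rw [← inv_inv (x ^ i * y ^ j), h]
        simp
    refine hfin (p ^ i * m ^ j) 1 (hprod i j hij) ⟨i, j, rfl⟩ ⟨0, 0, by simp⟩ (hval i j hrel')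
      ?_ (by simp; linarith)
    rw [hlog]
    push_cast at habPM
    have e1 : -(i : ℝ) * P + -(j : ℝ) * M = -(i * P + j * M) := by ring
    rw [e1, abs_neg] at habPM
    exact (le_abs_self _).trans habPM

end Pool.Agent.W_420c7c_h88
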