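import Pool.Agent.W_420c7c_h88.Defs

set_option autoImplicit false
open Polynomial

namespace Pool.Agent.W_420c7c_h88

/-! ### the abstract argument -/

section Abs

variable {k : ℕ}

/-- difference operator -/
def ipD (d : ZMod (2 ^ k) → ℤ) : ZMod (2 ^ k) → ℤ := fun j => d j - d (j - 1)

theorem ipD_iter (m : ℕ) (d : ZMod (2 ^ k) → ℤ) (j : ZMod (2 ^ k)) :
    (2 : ℤ) ∣ (ipD^[2 ^ m] d) j - (d j - d (j - (2 ^ m : ℕ))) := by
  induction m generalizing d j with
  | zero => simp [ipD]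
  | succ m ih =>
    rw [pow_succ, mul_two, Function.iterate_add_apply]
    have h1 := ih (ipD^[2 ^ m] d) j
    have h2 := ih d j
    have h3 := ih d (j - (2 ^ m : ℕ))
    have e : j - ((2 ^ m + 2 ^ m : ℕ) : ZMod (2 ^ k)) =
        j - ((2 ^ m : ℕ) : ZMod (2 ^ k)) - ((2 ^ m : ℕ) : ZMod (2 ^ k)) := by
      push_cast; ring
    rw [e]
    generalize (ipD^[2 ^ m] (ipD^[2 ^ m] d)) j = A at *
    generalize (ipD^[2 ^ m] d) j = B at *
    generalize (ipD^[2 ^ m] d) (j - ((2 ^ m : ℕ) : ZMod (2 ^ k))) = C at *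
    generalize d (j - ((2 ^ m : ℕ) : ZMod (2 ^ k)) - ((2 ^ m : ℕ) : ZMod (2 ^ k))) = E at *
    generalize d (j - ((2 ^ m : ℕ) : ZMod (2 ^ k))) = F at *
    generalize d j = G at *
    omega

theorem ipD_top (d : ZMod (2 ^ k) → ℤ) (j : ZMod (2 ^ k)) :
    (2 : ℤ) ∣ (ipD^[2 ^ k] d) j := by
  have h := ipD_iter k d j
  rw [ZMod.natCast_self, sub_zero, sub_self, sub_zero] at h
  exact h

variable (x x' : ZMod (2 ^ k) → ℝ)

theorem ip_shift (h1 : ∀ j, j ≠ -1 → x' j = x (j + 1))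
    (h2 : x' (-1) = -x 0) (d : ZMod (2 ^ k) → ℤ) :
    ∏ j, x' j ^ d j = (-1) ^ d (-1) * ∏ j, x j ^ d (j - 1) := by
  have e1 : ∏ j, x j ^ d (j - 1) = ∏ j, x (j + 1) ^ d j := by
    rw [← Equiv.prod_comp (Equiv.addRight (1 : ZMod (2 ^ k)))]
    simp
  have e2 : ∀ j, x' j ^ d j = (if j = -1 then (-1) ^ d (-1) else 1) * x (j + 1) ^ d j := by
    intro j
    split_ifs with h
    · subst h
      rw [h2, neg_add_cancel, ← mul_zpow, neg_one_mul]
    · rw [h1 j h, one_mul]
  rw [e1, Finset.prod_congr rfl fun j _ => e2 j, Finset.prod_mul_distrib]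
  congr 1
  simp

theorem ip_abs (hx : ∀ j, x j ≠ 0) (h1 : ∀ j, j ≠ -1 → x' j = x (j + 1))
    (h2 : x' (-1) = -x 0)
    (hG : ∀ (d : ZMod (2 ^ k) → ℤ) (ε : ℤ), (ε = 1 ∨ ε = -1) → ∏ j, x j ^ d j = ε →
      ∏ j, x' j ^ d j = ε) (n : ℕ) :
    ∀ d : ZMod (2 ^ k) → ℤ, ∑ j, (d j).natAbs ≤ n →
      (∏ j, x j ^ d j = 1 ∨ ∏ j, x j ^ d j = -1) → d = 0 := by
  -- closure under the difference operator
  have hneg : ∀ m : ℤ, ((-1 : ℝ) ^ m = 1 ∨ (-1 : ℝ) ^ m = -1) := by
    intro m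
    rcases Int.even_or_odd m with h | h
    · exact Or.inl h.neg_one_zpow
    · exact Or.inr h.neg_one_zpow
  have hS : ∀ d : ZMod (2 ^ k) → ℤ, (∏ j, x j ^ d j = 1 ∨ ∏ j, x j ^ d j = -1) →
      ∏ j, x j ^ d j = (-1) ^ d (-1) * ∏ j, x j ^ d (j - 1) := by
    intro d hd
    rw [← ip_shift x x' h1 h2 d]
    rcases hd with hd | hd
    · have := hG d 1 (Or.inl rfl) (by rw [hd]; norm_num)
      rw [hd, this]; norm_num
    · have := hG d (-1) (Or.inr rfl) (by rw [hd]; norm_num)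
      rw [hd, this]; norm_num
  have hS' : ∀ d : ZMod (2 ^ k) → ℤ, (∏ j, x j ^ d j = 1 ∨ ∏ j, x j ^ d j = -1) →
      (∏ j, x j ^ d (j - 1) = 1 ∨ ∏ j, x j ^ d (j - 1) = -1) := by
    intro d hd
    have h := hS d hd
    rcases hd with hd | hd <;> rcases hneg (d (-1)) with h' | h' <;> rw [hd, h'] at h
    · left; linarith
    · right; linarith
    · right; linarith
    · left; linarith
  have hD : ∀ d : ZMod (2 ^ k) → ℤ, (∏ j, x j ^ d j = 1 ∨ ∏ j, x j ^ d j = -1) →
      (∏ j, x j ^ ipD d j = 1 ∨ ∏ j, x j ^ ipD d j = -1) := by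
    intro d hd
    have h := hS' d hd
    have e : ∏ j, x j ^ ipD d j = (∏ j, x j ^ d j) / ∏ j, x j ^ d (j - 1) := by
      rw [← Finset.prod_div_distrib]
      refine Finset.prod_congr rfl fun j _ => ?_
      rw [ipD, zpow_sub₀ (hx j)]
    rw [e]
    rcases hd with hd | hd <;> rcases h with h | h <;> rw [hd, h] <;> norm_num
  have hDm : ∀ (m : ℕ) (d : ZMod (2 ^ k) → ℤ),
      (∏ j, x j ^ d j = 1 ∨ ∏ j, x j ^ d j = -1) →
      (∏ j, x j ^ (ipD^[m] d) j = 1 ∨ ∏ j, x j ^ (ipD^[m] d) j = -1) := by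
    intro m
    induction m with
    | zero => intro d hd; exact hd
    | succ m ih => intro d hd; rw [Function.iterate_succ_apply]; exact ih _ (hD d hd)
  -- all entries odd is impossible
  have hodd : ∀ d : ZMod (2 ^ k) → ℤ, (∀ j, Odd (d j)) →
      ¬ (∏ j, x j ^ d j = 1 ∨ ∏ j, x j ^ d j = -1) := by
    intro d ho hd
    have h := hS d hd
    rw [(ho (-1)).neg_one_zpow] at h
    have hpos : 0 < (∏ j, x j ^ d j) * ∏ j, x j ^ d (j - 1) := by
      rw [← Finset.prod_mul_distrib]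
      refine Finset.prod_pos fun j _ => ?_
      rw [← zpow_add₀ (hx j)]
      exact ((ho j).add_odd (ho (j - 1))).zpow_pos (hx j)
    rcases hd with hd | hd <;> rw [hd] at h hpos <;> nlinarith
  induction n with
  | zero =>
    intro d hd _
    have h0 : ∑ j, (d j).natAbs = 0 := by omega
    funext j
    have := Finset.sum_eq_zero_iff.1 h0 j (Finset.mem_univ j)
    simpa using this
  | succ n ih =>
    intro d hd hJ
    by_cases hev : ∀ j, (2 : ℤ) ∣ d j
    · choose d' hd' using hev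
      have hJ' : ∏ j, x j ^ d' j = 1 ∨ ∏ j, x j ^ d' j = -1 := by
        have e : ∏ j, x j ^ d j = (∏ j, x j ^ d' j) ^ 2 := by
          rw [← Finset.prod_pow]
          refine Finset.prod_congr rfl fun j _ => ?_
          rw [hd' j, mul_comm, zpow_mul]
          norm_cast
        rw [e] at hJ
        rcases hJ with h | h
        · have h' : (∏ j, x j ^ d' j - 1) * (∏ j, x j ^ d' j + 1) = 0 := by linear_combination h
          rcases mul_eq_zero.1 h' with h'' | h''
          · left; linarith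
          · right; linarith
        · exfalso
          have := sq_nonneg (∏ j, x j ^ d' j)
          linarith
      by_cases h0 : d = 0
      · exact h0
      · have hlt : ∑ j, (d' j).natAbs ≤ n := by
          have hs : ∑ j, (d j).natAbs = 2 * ∑ j, (d' j).natAbs := by
            rw [Finset.mul_sum]
            refine Finset.sum_congr rfl fun j _ => ?_
            rw [hd' j, Int.natAbs_mul]
            rfl
          have hp : 0 < ∑ j, (d j).natAbs := by
            rw [Nat.pos_iff_ne_zero]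
            intro h
            apply h0
            funext j
            have := Finset.sum_eq_zero_iff.1 h j (Finset.mem_univ j)
            simpa using this
          omega
        have := ih d' hlt hJ'
        funext j
        rw [hd' j, this]
        simp
    · exfalso
      -- the first iterate which is zero mod 2
      have hex : ∃ m, ∀ j, (2 : ℤ) ∣ (ipD^[m] d) j := ⟨2 ^ k, ipD_top d⟩
      classical
      obtain ⟨m, hm⟩ : ∃ m, Nat.find hex = m + 1 := by
        refine ⟨Nat.find hex - 1, ?_⟩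
        have : Nat.find hex ≠ 0 := by
          intro h
          have := Nat.find_spec hex
          rw [h] at this
          exact hev this
        omega
      have h3 := Nat.find_spec hex
      rw [hm, Function.iterate_succ_apply'] at h3
      have h4 : ¬ ∀ j, (2 : ℤ) ∣ (ipD^[m] d) j := Nat.find_min hex (by omega)
      set D := ipD^[m] d with hDd
      have hpar : ∀ n : ℕ, (2 : ℤ) ∣ D (n : ZMod (2 ^ k)) - D 0 := by
        intro n
        induction n with
        | zero => simp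
        | succ n ihn =>
          have := h3 ((n + 1 : ℕ) : ZMod (2 ^ k))
          unfold ipD at this
          have e : ((n + 1 : ℕ) : ZMod (2 ^ k)) - 1 = (n : ZMod (2 ^ k)) := by
            push_cast; ring
          rw [e] at this
          omega
      have hpar' : ∀ j, (2 : ℤ) ∣ D j - D 0 := by
        intro j
        have := hpar j.val
        rwa [ZMod.natCast_zmod_val] at this
      push Not at h4
      obtain ⟨j0, hj0⟩ := h4
      refine hodd D (fun j => ?_) (hDm m d hJ)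
      rw [Int.odd_iff]
      have a1 := hpar' j
      have a2 := hpar' j0
      omega

end Abs

/-! ### Galois conjugation -/

theorem ip_gal {η : ℂ} {n m : ℕ} (hη : IsPrimitiveRoot η n) (hn : 0 < n) (hm : Nat.Coprime m n)
    {P Q : ℤ[X]} (h : aeval η P = aeval η Q) : aeval (η ^ m) P = aeval (η ^ m) Q := by
  have h1 : aeval η (P - Q) = 0 := by rw [map_sub, h, sub_self]
  have h2 := minpoly.isIntegrallyClosed_dvd (hη.isIntegral hn) h1
  rw [hη.minpoly_eq_pow_coprime hm] at h2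
  obtain ⟨R, hR⟩ := h2
  have h3 : aeval (η ^ m) (P - Q) = 0 := by
    rw [hR, map_mul, minpoly.aeval, zero_mul]
  rw [map_sub] at h3
  exact sub_eq_zero.1 h3

/-- the real number `η^a + η^(-a)` -/
noncomputable def ipX (η : ℂ) (a : ℕ) : ℝ := 2 * (η ^ a).re

theorem ipX_coe {η : ℂ} (hη : ‖η‖ = 1) (a : ℕ) : ((ipX η a : ℝ) : ℂ) * η ^ a = 1 + (η ^ a) ^ 2 := by
  have h1 : ‖η ^ a‖ = 1 := by rw [norm_pow, hη, one_pow]
  have h2 : (η ^ a) * (starRingEnd ℂ) (η ^ a) = 1 := by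
    rw [Complex.mul_conj, Complex.normSq_eq_norm_sq, h1]; norm_num
  have h3 : ((ipX η a : ℝ) : ℂ) = η ^ a + (starRingEnd ℂ) (η ^ a) := by
    rw [Complex.add_conj, ipX]
  rw [h3]
  linear_combination h2

theorem ip_three (k : ℕ) (hk : 1 ≤ k) : ∃ t : ℕ, 3 ^ 2 ^ k = 1 + 2 ^ (k + 2) * (2 * t + 1) := by
  induction k, hk using Nat.le_induction with
  | base => exact ⟨0, by norm_num⟩
  | succ k hk ih =>
    obtain ⟨t, ht⟩ := ih
    refine ⟨t + 2 ^ k * (2 * t + 1) ^ 2, ?_⟩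
    rw [pow_succ 2 k, pow_mul, ht]
    ring

/-- `x = y / w` -/
theorem ip_zpow {x y w : ℂ} (hx : x ≠ 0) (hw : w ≠ 0) (h : x * w = y) (d : ℤ) :
    x ^ d * (y ^ (-d).toNat * w ^ d.toNat) = y ^ d.toNat * w ^ (-d).toNat := by
  rcases le_total 0 d with hd | hd
  · obtain ⟨n, rfl⟩ := Int.eq_ofNat_of_zero_le hd
    have e1 : (-(n : ℤ)).toNat = 0 := by omega
    have e2 : ((n : ℤ)).toNat = n := by omega
    rw [e1, e2, zpow_natCast, ← h, mul_pow]
    ring
  · obtain ⟨n, hn⟩ := Int.eq_ofNat_of_zero_le (a := -d) (by omega)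
    have e0 : d = -(n : ℤ) := by omega
    subst e0
    have e1 : (-(-(n : ℤ))).toNat = n := by omega
    have e2 : (-(n : ℤ)).toNat = 0 := by omega
    rw [e1, e2, zpow_neg, zpow_natCast, ← h, mul_pow]
    field_simp

theorem ip_ne {k : ℕ} {η : ℂ} (hη : IsPrimitiveRoot η (2 ^ (k + 3))) {a : ℕ} (ha : Odd a) :
    1 + (η ^ a) ^ 2 ≠ 0 := by
  intro h
  have h1 : (η ^ a) ^ 2 = -1 := by linear_combination h
  have h2 : η ^ (a * 4) = 1 := by
    rw [pow_mul, show 4 = 2 * 2 by norm_num, pow_mul, h1]; norm_num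
  have h3 := (hη.pow_eq_one_iff_dvd _).1 h2
  have h4 : 2 ^ (k + 1) ∣ a := by
    have : 2 ^ (k + 3) = 2 ^ (k + 1) * 4 := by ring
    rw [this] at h3
    exact Nat.dvd_of_mul_dvd_mul_right (by norm_num) h3
  have h5 : 2 ∣ a := (dvd_pow_self 2 (by omega)).trans h4
  rw [← Nat.not_even_iff_odd] at ha
  exact ha (even_iff_two_dvd.2 h5)

theorem ipX_ne {k : ℕ} {η : ℂ} (hη : IsPrimitiveRoot η (2 ^ (k + 3))) (hn : ‖η‖ = 1) {a : ℕ}
    (ha : Odd a) : ipX η a ≠ 0 := by
  intro h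
  have h1 := ipX_coe hn a
  rw [h] at h1
  exact ip_ne hη ha (by rw [← h1]; simp)

theorem ip_hG {k : ℕ} {η : ℂ} (hη : IsPrimitiveRoot η (2 ^ (k + 3))) (hn : ‖η‖ = 1)
    {ι : Type*} [Fintype ι] (a : ι → ℕ) (ha : ∀ j, Odd (a j)) (d : ι → ℤ) (ε : ℤ)
    (h : ∏ j, ipX η (a j) ^ d j = ε) : ∏ j, ipX η (3 * a j) ^ d j = ε := by
  have hη0 : η ≠ 0 := by
    intro h0
    rw [h0] at hn
    simp at hn
  set P : ℤ[X] := ∏ j, ((1 + (X ^ a j) ^ 2) ^ (d j).toNat * (X ^ a j) ^ (-d j).toNat) with hP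
  set Q : ℤ[X] := ∏ j, ((1 + (X ^ a j) ^ 2) ^ (-d j).toNat * (X ^ a j) ^ (d j).toNat) with hQ
  have eP : ∀ z : ℂ, aeval z P =
      ∏ j, ((1 + (z ^ a j) ^ 2) ^ (d j).toNat * (z ^ a j) ^ (-d j).toNat) := by
    intro z; simp [hP]
  have eQ : ∀ z : ℂ, aeval z Q =
      ∏ j, ((1 + (z ^ a j) ^ 2) ^ (-d j).toNat * (z ^ a j) ^ (d j).toNat) := by
    intro z; simp [hQ]
  have h3c : Nat.Coprime 3 (2 ^ (k + 3)) := Nat.Coprime.pow_right _ (by norm_num)
  have hη3 : IsPrimitiveRoot (η ^ 3) (2 ^ (k + 3)) := hη.pow_of_coprime 3 h3c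
  have hn3 : ‖η ^ 3‖ = 1 := by rw [norm_pow, hn, one_pow]
  have key : ∀ z : ℂ, IsPrimitiveRoot z (2 ^ (k + 3)) → ‖z‖ = 1 →
      (∏ j, (ipX z (a j) : ℂ) ^ d j) * aeval z Q = aeval z P := by
    intro z hz hzn
    rw [eP, eQ, ← Finset.prod_mul_distrib]
    refine Finset.prod_congr rfl fun j _ => ?_
    have hz0 : z ≠ 0 := by
      intro h0
      rw [h0] at hzn
      simp at hzn
    exact ip_zpow (by exact_mod_cast ipX_ne hz hzn (ha j)) (pow_ne_zero _ hz0) (ipX_coe hzn _) _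
  have hQ0 : aeval (η ^ 3) Q ≠ 0 := by
    rw [eQ]
    refine Finset.prod_ne_zero_iff.2 fun j _ => mul_ne_zero (pow_ne_zero _ ?_)
      (pow_ne_zero _ (pow_ne_zero _ (pow_ne_zero _ hη0)))
    exact ip_ne hη3 (ha j)
  have h1 := key η hη hn
  have hc : (∏ j, (ipX η (a j) : ℂ) ^ d j) = (ε : ℂ) := by
    have := congrArg (fun t : ℝ => (t : ℂ)) h
    push_cast at this
    exact this
  rw [hc] at h1
  have h2 : aeval η (C ε * Q) = aeval η P := by
    rw [map_mul, aeval_C, ← h1]; simp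
  have h4 := ip_gal hη (by positivity) h3c h2
  rw [← key _ hη3 hn3, map_mul, aeval_C] at h4
  have h5 := mul_right_cancel₀ hQ0 h4
  have e : ∀ j, ipX (η ^ 3) (a j) = ipX η (3 * a j) := by
    intro j; rw [ipX, ipX, pow_mul]
  simp only [e] at h5
  have h6 : ((∏ j, ipX η (3 * a j) ^ d j : ℝ) : ℂ) = ((ε : ℝ) : ℂ) := by
    push_cast
    rw [← h5]; simp
  exact_mod_cast h6

/-! ### the classes of odd residues -/

theorem ip_val_succ (k : ℕ) (j : ZMod (2 ^ k)) : (j.val + 1 < 2 ^ k ∧ (j + 1).val = j.val + 1) ∨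
    (j.val + 1 = 2 ^ k ∧ j = -1) := by
  have h1 : j.val < 2 ^ k := ZMod.val_lt j
  have h2 : j + 1 = ((j.val + 1 : ℕ) : ZMod (2 ^ k)) := by
    push_cast
    rw [ZMod.natCast_zmod_val]
  rcases Nat.lt_or_ge (j.val + 1) (2 ^ k) with h | h
  · left
    refine ⟨h, ?_⟩
    rw [h2, ZMod.val_natCast, Nat.mod_eq_of_lt h]
  · right
    have h3 : j.val + 1 = 2 ^ k := by omega
    refine ⟨h3, ?_⟩
    rw [h3, ZMod.natCast_self] at h2
    exact eq_neg_of_add_eq_zero_left h2

theorem ip_half {k : ℕ} {η : ℂ} (hη : IsPrimitiveRoot η (2 ^ (k + 3))) :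
    η ^ 2 ^ (k + 2) = -1 := by
  have h1 : (η ^ 2 ^ (k + 2)) ^ 2 = 1 := by
    rw [← pow_mul, ← pow_succ]
    exact hη.pow_eq_one
  have h2 : η ^ 2 ^ (k + 2) ≠ 1 := by
    intro h
    have h3 := (hη.pow_eq_one_iff_dvd _).1 h
    have h4 := Nat.le_of_dvd (by positivity) h3
    have h5 : 2 ^ (k + 2) < 2 ^ (k + 3) := Nat.pow_lt_pow_right (by norm_num) (by omega)
    omega
  have h' : (η ^ 2 ^ (k + 2) - 1) * (η ^ 2 ^ (k + 2) + 1) = 0 := by linear_combination h1
  rcases mul_eq_zero.1 h' with h | h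
  · exact absurd (sub_eq_zero.1 h) h2
  · exact eq_neg_of_add_eq_zero_left h

theorem ip_wrap {k : ℕ} {η : ℂ} (hη : IsPrimitiveRoot η (2 ^ (k + 3))) (hn : ‖η‖ = 1) :
    ipX η (3 ^ 2 ^ k) = -ipX η 1 := by
  have hh := ip_half hη
  rcases Nat.eq_zero_or_pos k with hk | hk
  · subst hk
    have h1 : η ^ 4 = -1 := by simpa using hh
    have h2 : η * (starRingEnd ℂ) η = 1 := by
      rw [Complex.mul_conj, Complex.normSq_eq_norm_sq, hn]; norm_num
    have h3 : η ^ 3 = -(starRingEnd ℂ) η := by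
      linear_combination (-η ^ 3) * h2 + (starRingEnd ℂ) η * h1
    rw [ipX, ipX]
    norm_num
    rw [h3]
    simp
  · obtain ⟨t, ht⟩ := ip_three k hk
    have h3 : η ^ 3 ^ 2 ^ k = -η := by
      rw [ht, pow_add, pow_one, pow_mul, hh, pow_add, pow_mul]
      norm_num
    rw [ipX, ipX, h3]
    simp

/-- the index of the class of `3^j` -/
theorem ip_index (k : ℕ) (j : ZMod (2 ^ k)) : ∃ i : Fin (2 ^ k),
    ((3 : ZMod (2 ^ (k + 2))) ^ j.val = ((2 * (i : ℕ) + 1 : ℕ) : ZMod (2 ^ (k + 2))) ∨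
    (3 : ZMod (2 ^ (k + 2))) ^ j.val = -((2 * (i : ℕ) + 1 : ℕ) : ZMod (2 ^ (k + 2)))) := by
  set c := 3 ^ j.val % 2 ^ (k + 2) with hc
  have hcl : c < 2 ^ (k + 2) := Nat.mod_lt _ (by positivity)
  have hpow : 2 ^ (k + 2) = 4 * 2 ^ k := by ring
  have hodd : c % 2 = 1 := by
    have h1 : (3 ^ j.val) % 2 = 1 := Nat.odd_iff.1 (Odd.pow (by decide))
    rw [hc, Nat.mod_mod_of_dvd _ (dvd_pow_self 2 (by omega))]
    exact h1
  have hcz : ((c : ℕ) : ZMod (2 ^ (k + 2))) = (3 : ZMod (2 ^ (k + 2))) ^ j.val := by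
    rw [hc, ZMod.natCast_mod]
    push_cast
    rfl
  rcases Nat.lt_or_ge c (2 * 2 ^ k) with h | h
  · refine ⟨⟨c / 2, by omega⟩, Or.inl ?_⟩
    have : 2 * (c / 2) + 1 = c := by omega
    rw [← hcz]
    simp only
    rw [this]
  · refine ⟨⟨(2 ^ (k + 2) - c) / 2, by omega⟩, Or.inr ?_⟩
    have : 2 * ((2 ^ (k + 2) - c) / 2) + 1 = 2 ^ (k + 2) - c := by omega
    rw [← hcz]
    simp only
    rw [this, Nat.cast_sub hcl.le, ZMod.natCast_self]
    ring

theorem ip_index_inj (k : ℕ) {j j' : ZMod (2 ^ k)} {i : Fin (2 ^ k)}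
    (h : (3 : ZMod (2 ^ (k + 2))) ^ j.val = ((2 * (i : ℕ) + 1 : ℕ) : ZMod (2 ^ (k + 2))) ∨
    (3 : ZMod (2 ^ (k + 2))) ^ j.val = -((2 * (i : ℕ) + 1 : ℕ) : ZMod (2 ^ (k + 2))))
    (h' : (3 : ZMod (2 ^ (k + 2))) ^ j'.val = ((2 * (i : ℕ) + 1 : ℕ) : ZMod (2 ^ (k + 2))) ∨
    (3 : ZMod (2 ^ (k + 2))) ^ j'.val = -((2 * (i : ℕ) + 1 : ℕ) : ZMod (2 ^ (k + 2)))) :
    j = j' := by
  set b : ZMod (2 ^ (k + 2)) := 1 + 4 * ((-1 : ℤ) : ZMod (2 ^ (k + 2))) with hb
  have hb3 : b = -3 := by rw [hb]; push_cast; ring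
  have hord : orderOf b = 2 ^ k := ZMod.orderOf_one_add_four_mul (-1) (by decide) k
  have hpm : ∀ n : ℕ, b ^ n = 3 ^ n ∨ b ^ n = -3 ^ n := by
    intro n
    rw [hb3]
    rcases Nat.even_or_odd n with h | h
    · left; rw [h.neg_pow]
    · right; rw [h.neg_pow]
  have hpm2 : b ^ j.val = b ^ j'.val ∨ b ^ j.val = -b ^ j'.val := by
    rcases hpm j.val with e1 | e1 <;> rcases hpm j'.val with e2 | e2 <;>
      rcases h with h | h <;> rcases h' with h' | h' <;> rw [e1, e2, h, h'] <;> simp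
  have h4 : (4 : ℕ) ∣ 2 ^ (k + 2) := ⟨2 ^ k, by ring⟩
  have hb4 : ZMod.castHom h4 (ZMod 4) b = 1 := by
    rw [hb3, map_neg, map_ofNat]
    decide
  rcases hpm2 with e | e
  · have hlt : j.val < orderOf b := by rw [hord]; exact ZMod.val_lt j
    have hlt' : j'.val < orderOf b := by rw [hord]; exact ZMod.val_lt j'
    exact ZMod.val_injective _ (pow_injOn_Iio_orderOf hlt hlt' e)
  · exfalso
    have := congrArg (ZMod.castHom h4 (ZMod 4)) e
    rw [map_neg, map_pow, map_pow, hb4, one_pow, one_pow] at this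
    revert this
    decide

/-- **Multiplicative independence** of `1 + ω^(2 i + 1)`, `i < 2^k`, for a primitive
`2^(k+2)`-th root of unity `ω` in `ℂ`.

PROOF.  Put `r = 2^(k+2)`, `g = 2^k`.  By Galois conjugation (the minimal polynomial of `ω` over `ℤ`
is that of every primitive `r`-th root: `IsPrimitiveRoot.minpoly_eq_pow_coprime`,
`Polynomial.cyclotomic_eq_minpoly`, and the two sides are values at `ω` of integer polynomials), the
relation `∏ (1 + ω^(2i+1))^(e i) = ∏ (1 + ω^(2i+1))^(e' i)` holds for every primitive root.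
Let `d = e - e'` (integers).  Let `C` be the group of odd residues mod `r` modulo `±1`
(cyclic of order `g`, generated by `3`); index `d` by `C` through `i ↦ ±(2 i + 1)`.
Let `I` be the set of all `d : C → ℤ` such that for all primitive `ω` the number
`∏ (1 + ω^(2i+1))^(d i)` is a root of unity.  `I` is an additive group; it is stable under
the shift `s : d ↦ d(3 ·)` (because `1 + ω^(-a) = ω^(-a) (1 + ω^a)`: changing the
representative of a class changes the product by a root of unity only), and `2 d ∈ I` implies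
`d ∈ I`.  Suppose `0 ≠ d ∈ I`.  Dividing by powers of `2` we may assume that some `d i` is odd.
`(1 - s)^g` is divisible by `2` as an operator, because `(1 - s)^g = 1 - s^g = 0` mod `2` (`g` is a
power of two, `s^g = 1`).  Let `j` be maximal such that `d' = (1 - s)^j d` is not `0` mod `2`
(`j < g`). Then `d' ∈ I` and `s d' = d'` mod `2`, so (`3` generates `C`) all `d' i` are congruent
mod `2`, hence all are odd.
Now take `η` a primitive `2 r`-th root of unity, `η = exp(π I / r)`, `ω = η^2`,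
`1 + ω^a = η^a * 2 cos(π a / r)` for odd `a`, `0 < a < r/2`, where the cosine is positive.  As the product
`∏ (1 + ω^a)^(d' a)` is a root of unity, it has absolute value one, so
`∏ (2 cos(π a/r))^(d' a) = 1` (product over odd `a < r/2`), so
`∏ (1 + η^(2 a))^(d' a) = η^E`, `E = ∑ a d' a`. Conjugate by `η ↦ η^3`
(again the minimal polynomial of `η`): `∏ (1 + η^(6 a))^(d' a) = η^(3 E)`, that is
`∏ (2 cos(3 π a/r))^(d' a) = 1`.  But the sign of the left side is `(-1)^c`, `c` the number of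
odd `a < r/2` with `cos(3 π a/r) < 0`, that is `r/6 < a < r/2`; the number of odd `a < r/6` is
`(2^k ± 1)/3`, which is odd for `k ≥ 1` and `0` for `k = 0` (there `g = 1`); so `c = 2^k - (that)` is odd in
all cases: contradiction.

(For the last step one can also use this variant: the number `c` satisfies `c = 1` for `k = 0, 1`;
`c(k) = (2^(k+1) + (-1)^k)/3`.) -/
theorem val_injective (k : ℕ) {ω : ℂ} (hω : IsPrimitiveRoot ω (2 ^ (k + 2)))
    {e e' : Fin (2 ^ k) → ℕ} (h : val ω e = val ω e') : e = e' := by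
  classical
  -- a square root of `ω`
  obtain ⟨η, hηω⟩ := IsAlgClosed.exists_pow_nat_eq ω (n := 2) (by norm_num)
  have hη : IsPrimitiveRoot η (2 ^ (k + 3)) := by
    have h1 : ¬ η ^ 2 ^ (k + 2) = 1 := by
      intro h1
      rw [pow_succ', pow_mul, hηω] at h1
      have h3 := (hω.pow_eq_one_iff_dvd _).1 h1
      have h4 := Nat.le_of_dvd (by positivity) h3
      have h5 : 2 ^ (k + 1) < 2 ^ (k + 2) := Nat.pow_lt_pow_right (by norm_num) (by omega)
      omega
    have h2 : η ^ 2 ^ (k + 2 + 1) = 1 := by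
      rw [pow_succ', pow_mul, hηω]
      exact hω.pow_eq_one
    have h3 := orderOf_eq_prime_pow h1 h2
    have h4 := IsPrimitiveRoot.orderOf η
    rw [h3] at h4
    exact h4
  have hn : ‖η‖ = 1 := hη.norm'_eq_one (by positivity)
  have hωn : ‖ω‖ = 1 := by rw [← hηω, norm_pow, hn, one_pow]
  -- the index
  choose ix hix using ip_index k
  have hinj : Function.Injective ix := by
    intro j j' hjj
    have h1 := hix j
    have h2 := hix j'
    rw [← hjj] at h2
    exact ip_index_inj k h1 h2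
  have hbij : Function.Bijective ix := by
    rw [Fintype.bijective_iff_injective_and_card]
    exact ⟨hinj, by rw [ZMod.card, Fintype.card_fin]⟩
  -- norms
  have hN1 : ∀ n : ℕ, ‖1 + ω ^ n‖ = |ipX η n| := by
    intro n
    rw [← hηω, ← pow_mul, mul_comm 2 n, pow_mul, ← ipX_coe hn n, norm_mul, norm_pow, hn, one_pow,
      mul_one, Complex.norm_real, Real.norm_eq_abs]
  have hcast : ∀ a b : ℕ, ((a : ZMod (2 ^ (k + 2))) = b) → ω ^ a = ω ^ b := by
    intro a b hab
    rw [ZMod.natCast_eq_natCast_iff] at hab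
    have hab' : a % 2 ^ (k + 2) = b % 2 ^ (k + 2) := hab
    rw [pow_eq_pow_mod a hω.pow_eq_one, pow_eq_pow_mod b hω.pow_eq_one, hab']
  have hN2 : ∀ j : ZMod (2 ^ k), ‖1 + ω ^ (2 * (ix j : ℕ) + 1)‖ = |ipX η (3 ^ j.val)| := by
    intro j
    rw [← hN1]
    rcases hix j with h1 | h1
    · rw [hcast (3 ^ j.val) (2 * (ix j : ℕ) + 1) (by rw [← h1]; push_cast; rfl)]
    · have h2 : ω ^ (3 ^ j.val + (2 * (ix j : ℕ) + 1)) = ω ^ 0 := by
        apply hcast
        push_cast at h1 ⊢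
        rw [h1]
        ring
      rw [pow_zero, pow_add] at h2
      have h3 : ‖ω ^ 3 ^ j.val‖ = 1 := by rw [norm_pow, hωn, one_pow]
      calc ‖1 + ω ^ (2 * (ix j : ℕ) + 1)‖
          = ‖ω ^ 3 ^ j.val‖ * ‖1 + ω ^ (2 * (ix j : ℕ) + 1)‖ := by rw [h3, one_mul]
        _ = ‖1 + ω ^ 3 ^ j.val‖ := by
            rw [← norm_mul, mul_add, mul_one, h2, add_comm]
  have hnv : ∀ e : Fin (2 ^ k) → ℕ, ‖val ω e‖ = ∏ j, |ipX η (3 ^ j.val)| ^ e (ix j) := by
    intro e
    unfold val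
    rw [norm_prod, ← Equiv.prod_comp (Equiv.ofBijective ix hbij)]
    refine Finset.prod_congr rfl fun j _ => ?_
    rw [norm_pow, Equiv.ofBijective_apply, hN2]
  have hX0 : ∀ j : ZMod (2 ^ k), ipX η (3 ^ j.val) ≠ 0 := fun j =>
    ipX_ne hη hn (Odd.pow (by decide))
  have hrel : ∏ j : ZMod (2 ^ k), |ipX η (3 ^ j.val)| ^ ((e (ix j) : ℤ) - (e' (ix j) : ℤ)) = 1 := by
    have h1 := congrArg norm h
    rw [hnv, hnv] at h1
    have h2 : ∏ j : ZMod (2 ^ k), |ipX η (3 ^ j.val)| ^ ((e (ix j) : ℤ) - (e' (ix j) : ℤ)) =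
        (∏ j : ZMod (2 ^ k), |ipX η (3 ^ j.val)| ^ e (ix j)) /
          ∏ j : ZMod (2 ^ k), |ipX η (3 ^ j.val)| ^ e' (ix j) := by
      rw [← Finset.prod_div_distrib]
      refine Finset.prod_congr rfl fun j _ => ?_
      rw [zpow_sub₀ (abs_ne_zero.2 (hX0 j)), zpow_natCast, zpow_natCast]
    rw [h2, h1]
    exact div_self (Finset.prod_ne_zero_iff.2 fun j _ => pow_ne_zero _ (abs_ne_zero.2 (hX0 j)))
  have habs : |∏ j : ZMod (2 ^ k), ipX η (3 ^ j.val) ^ ((e (ix j) : ℤ) - (e' (ix j) : ℤ))| = 1 := by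
    rw [Finset.abs_prod, ← hrel]
    refine Finset.prod_congr rfl fun j _ => ?_
    rw [abs_zpow]
  have hJ := eq_or_eq_neg_of_abs_eq habs
  have h0 := ip_abs (k := k) (fun j => ipX η (3 ^ j.val)) (fun j => ipX η (3 * 3 ^ j.val)) hX0
    (by
      intro j hj
      rcases ip_val_succ k j with h1 | h1
      · rw [h1.2, pow_succ']
      · exact absurd h1.2 hj)
    (by
      rcases ip_val_succ k (-1) with h1 | h1
      · exfalso
        have h2 := h1.2
        rw [neg_add_cancel, ZMod.val_zero] at h2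
        omega
      · rw [← pow_succ', h1.1, ZMod.val_zero, pow_zero]
        exact ip_wrap hη hn)
    (by
      intro d ε _ hd
      exact ip_hG hη hn (fun j : ZMod (2 ^ k) => 3 ^ j.val) (fun j => Odd.pow (by decide)) d ε hd)
    _ (fun j => (e (ix j) : ℤ) - (e' (ix j) : ℤ)) le_rfl hJ
  funext i
  obtain ⟨j, rfl⟩ := hbij.2 i
  have := congrFun h0 j
  simp only [Pi.zero_apply] at this
  omega

end Pool.Agent.W_420c7c_h88
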