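import Mathlib

set_option autoImplicit false

namespace Pool.Agent.W_420c7c_h88

theorem numeric_sum (g b : ℕ) (hb : b ≤ g) (f : ℕ → ℝ) (u v : ℕ) :
    (∑ i : Fin g, f (if i.1 < b then u else v)) = b * f u + (g - b) * f v := by
  obtain ⟨k, rfl⟩ := Nat.exists_eq_add_of_le hb
  rw [Fin.sum_univ_eq_sum_range (fun i => f (if i < b then u else v)) (b + k),
    Finset.sum_range_add]
  have h1 : ∑ x ∈ Finset.range b, f (if x < b then u else v) = b * f u := by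
    rw [Finset.sum_congr rfl (fun x hx => by rw [if_pos (Finset.mem_range.1 hx)])]
    simp
  have h2 : ∑ x ∈ Finset.range k, f (if b + x < b then u else v) = k * f v := by
    rw [Finset.sum_congr rfl (fun x hx => by rw [if_neg (by omega)])]
    simp
  rw [h1, h2]
  push_cast
  ring

theorem numeric_log32 : 0.40546 ≤ Real.log (3 / 2) := by
  have h := Real.hasSum_log_one_add_inv (a := 2) (by norm_num)
  have h2 := sum_le_hasSum (Finset.range 4) (fun i _ => by positivity) h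
  have h3 : (1 : ℝ) + 2⁻¹ = 3 / 2 := by norm_num
  rw [h3] at h2
  refine le_trans ?_ h2
  norm_num [Finset.sum_range_succ]

theorem numeric_log3 : 1.098607 ≤ Real.log 3 := by
  have h1 := numeric_log32
  have h2 := Real.log_two_gt_d9
  have h3 : Real.log 3 = Real.log 2 + Real.log (3 / 2) := by
    rw [← Real.log_mul (by norm_num) (by norm_num)]
    norm_num
  rw [h3]
  linarith

theorem numeric_sqrt {G P l a b : ℝ} (hG : 0 ≤ G) (hP : 0 ≤ P) (hl : l ≤ 5 * P)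
    (ha : 0 ≤ a) (hb : 0 ≤ b) (hab : 4 / 3 ≤ a * b) :
    Real.sqrt (4 * G * P * (l - P) / 3) ≤ a * G + b * P ^ 2 := by
  rw [Real.sqrt_le_iff]
  refine ⟨by positivity, ?_⟩
  have h1 : 0 ≤ G * P * (5 * P - l) := mul_nonneg (mul_nonneg hG hP) (by linarith)
  have h2 : 0 ≤ (a * G - b * P ^ 2) ^ 2 := sq_nonneg _
  have h3 : 0 ≤ (a * b - 4 / 3) * (G * P ^ 2) := mul_nonneg (by linarith) (by positivity)
  nlinarith [h1, h2, h3]

/-- **The final numerical inequality.**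
PROOF.  Put `c = (36/π²) (99/100)`, `3.611 ≤ c ≤ 3.6112`.  Let `V = min (c P²) (5 g/4)` (real number).
`V ≥ g/4` because `c/25 ≥ 0.1444 ≥ 0.5204/4 = 0.1301`.  We choose the `κ i ∈ {2,3,4}`
with `∑ (κ i² - 1)/12 ≤ V` (`κ = 2, 3, 4` contribute `1/4, 2/3, 5/4`).
(1) If `V ≤ 2 g/3`: take `b = ⌊(V - g/4)·12/5⌋ ≤ g` coordinates with `κ = 3`, the others `2`.
Then `∑ log κ = g log 2 + b log(3/2) ≥ g log 2 + (12/5)(V - g/4) log(3/2) - log(3/2)
≥ 0.4498 g + 0.9731 V - 1`, here `V = c P²` (as `V < 5g/4`), so it is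
`≥ 0.4498 g + 3.5138 P² - 1 ≥ 2 sqrt(0.4498·3.5138) sqrt(g) P - 1 + (a small positive part)`, whereas
`sqrt(4 g P (ℓ-P)/3) ≤ sqrt(4/3) sqrt(g) P sqrt((ℓ-P)/P) ≤ 2 sqrt(4/3) sqrt(g) P = 2.3095 sqrt(g) P` as
`(ℓ - P)/P ≤ 4`; `2 sqrt(0.4498·3.5138) = 2.5143`.
The difference is `≥ 0.2 sqrt(g) P - 1 ≥ 0.2·0.5·0.2 ℓ² - 1 ≥ ℓ²/1000` for large `ℓ`.
(2) If `2 g/3 ≤ V < 5 g/4`: `b = ⌊(V - 2g/3)·12/7⌋` coordinates with `κ = 4`, the others `3`;
`∑ log κ ≥ g log 3 + (12/7)(V - 2g/3) log(4/3) - log(4/3) ≥ 0.7698 g + 0.4931 V - 1`,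
`V = c P²`, so `≥ 2 sqrt(0.7698·0.4931·3.611) sqrt(g) P - 1 = 2.3415 sqrt(g) P - 1`, again compared with
`2.3095 sqrt(g) P`; the difference is `≥ 0.03·0.5·0.2 ℓ² - 1 = 0.003 ℓ² - 1`.
(3) If `V = 5 g/4`: all `κ = 4`, `∑ log κ = g log 4 ≥ 1.386 g`, and
`sqrt(4 g P (ℓ-P)/3) ≤ sqrt(g) ℓ / sqrt 3 ≤ 0.5774 sqrt(g) ℓ ≤ 0.5774 g/0.5099` as
`sqrt g ≥ 0.5099 ℓ`.
(The minimum of the difference over the whole range is about `0.02 ℓ²`.) -/
theorem numeric : ∃ L0 : ℝ, ∀ (ℓ P : ℝ) (g : ℕ), L0 ≤ ℓ → ℓ / 5 ≤ P → P ≤ ℓ →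
    0.26 * ℓ ^ 2 ≤ (g : ℝ) → (g : ℝ) ≤ 0.5204 * ℓ ^ 2 →
    ∃ κ : Fin g → ℕ, (∀ i, 2 ≤ κ i ∧ κ i ≤ 4) ∧
      (∑ i, ((κ i : ℝ) ^ 2 - 1) / 12) ≤ 36 / Real.pi ^ 2 * (99 / 100) * P ^ 2 ∧
      Real.sqrt (4 * g * P * (ℓ - P) / 3) + ℓ ^ 2 / 1000 ≤ ∑ i, Real.log (κ i) := by
  refine ⟨20, fun ℓ P g hL h1 h2 h3 h4 => ?_⟩
  have hc : 3.611 ≤ 36 / Real.pi ^ 2 * (99 / 100) := by
    have hpi := Real.pi_pos
    have hpi2 := Real.pi_lt_d4
    have h5 : Real.pi ^ 2 ≤ 3.1416 ^ 2 := pow_le_pow_left₀ hpi.le hpi2.le 2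
    rw [div_mul_eq_mul_div, le_div_iff₀ (by positivity)]
    norm_num at h5 ⊢
    linarith
  obtain ⟨c, hcdef⟩ : ∃ c, c = 36 / Real.pi ^ 2 * (99 / 100) := ⟨_, rfl⟩
  rw [← hcdef] at hc ⊢
  have hP : 0 < P := by linarith
  have hP2 : ℓ ^ 2 / 25 ≤ P ^ 2 := by
    have := pow_le_pow_left₀ (show 0 ≤ ℓ / 5 by linarith) h1 2
    linarith [this, div_pow ℓ 5 2]
  have hL2 : 400 ≤ ℓ ^ 2 := by
    have := pow_le_pow_left₀ (by norm_num) hL 2
    linarith
  have hV : 3.611 * P ^ 2 ≤ c * P ^ 2 := mul_le_mul_of_nonneg_right hc (sq_nonneg P)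
  have l2 := Real.log_two_gt_d9
  have l3 := numeric_log3
  have l4 : Real.log ((4 : ℕ) : ℝ) = 2 * Real.log 2 := by
    rw [show (((4 : ℕ) : ℝ)) = 2 ^ 2 by norm_num, Real.log_pow]
    norm_num
  have l32 : Real.log 3 - Real.log 2 ≤ 1 / 2 := by
    rw [← Real.log_div (by norm_num) (by norm_num)]
    have := Real.log_le_sub_one_of_pos (show (0 : ℝ) < 3 / 2 by norm_num)
    linarith
  have l43 : 2 * Real.log 2 - Real.log 3 ≤ 1 / 3 := by
    have h5 : 2 * Real.log 2 = Real.log 4 := by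
      rw [show (4 : ℝ) = 2 ^ 2 by norm_num, Real.log_pow]
      norm_num
    rw [h5, ← Real.log_div (by norm_num) (by norm_num)]
    have := Real.log_le_sub_one_of_pos (show (0 : ℝ) < 4 / 3 by norm_num)
    linarith
  have hg0 : (0 : ℝ) ≤ g := by positivity
  have hgl : ∀ b : ℕ, b ≤ g → ∀ u v : ℕ, (∑ i : Fin g, Real.log
      ((if i.1 < b then u else v : ℕ) : ℝ)) = b * Real.log u + (g - b) * Real.log v :=
    fun b hb u v => numeric_sum g b hb (fun n => Real.log (n : ℝ)) u v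
  have hgq : ∀ b : ℕ, b ≤ g → ∀ u v : ℕ, (∑ i : Fin g,
      (((if i.1 < b then u else v : ℕ) : ℝ) ^ 2 - 1) / 12) =
      b * (((u : ℝ) ^ 2 - 1) / 12) + (g - b) * (((v : ℝ) ^ 2 - 1) / 12) :=
    fun b hb u v => numeric_sum g b hb (fun n => (((n : ℝ)) ^ 2 - 1) / 12) u v
  rcases le_or_gt (c * P ^ 2) (2 * g / 3) with c1 | c1
  · -- case 1
    obtain ⟨β, hβ⟩ : ∃ β : ℝ, β = (c * P ^ 2 - g / 4) * (12 / 5) := ⟨_, rfl⟩
    have hβ0 : 0 ≤ β := by
      rw [hβ]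
      norm_num at h3 h4 hV ⊢
      linarith
    have hβg : β ≤ g := by rw [hβ]; linarith
    have hb1 := Nat.floor_le hβ0
    have hb2 := Nat.lt_floor_add_one β
    have hbg : ⌊β⌋₊ ≤ g := Nat.floor_le_of_le hβg
    refine ⟨fun i => if i.1 < ⌊β⌋₊ then 3 else 2, fun i => by dsimp only; split_ifs <;> simp, ?_, ?_⟩
    · rw [hgq _ hbg]
      push_cast
      linarith only [hb1, hβ]
    · rw [hgl _ hbg]
      have hs := numeric_sqrt (a := 0.41) (b := 3.2521) hg0 hP.le (show ℓ ≤ 5 * P by linarith)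
        (by norm_num) (by norm_num) (by norm_num)
      push_cast
      have e1 : (β - ⌊β⌋₊) * (Real.log 3 - Real.log 2) ≤ 1 * (1 / 2) :=
        mul_le_mul (by linarith) l32 (by linarith) zero_le_one
      have e2 : 0.693147 * (g - β) ≤ Real.log 2 * (g - β) :=
        mul_le_mul_of_nonneg_right (by linarith) (by linarith)
      have e3 : 1.098607 * β ≤ Real.log 3 * β := mul_le_mul_of_nonneg_right l3 hβ0
      have e4 : (⌊β⌋₊ : ℝ) * Real.log 3 + (g - ⌊β⌋₊) * Real.log 2 =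
          Real.log 2 * (g - β) + Real.log 3 * β - (β - ⌊β⌋₊) * (Real.log 3 - Real.log 2) := by
        ring
      rw [e4]
      norm_num at e2 e3 hs hV h3 ⊢
      linarith only [e1, e2, e3, hs, hV, h3, hβ, hP2, hL2]
  rcases lt_or_ge (c * P ^ 2) (5 * g / 4) with c2 | c2
  · -- case 2
    obtain ⟨β, hβ⟩ : ∃ β : ℝ, β = (c * P ^ 2 - 2 * g / 3) * (12 / 7) := ⟨_, rfl⟩
    have hβ0 : 0 ≤ β := by
      rw [hβ]
      linarith
    have hβg : β ≤ g := by rw [hβ]; linarith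
    have hb1 := Nat.floor_le hβ0
    have hb2 := Nat.lt_floor_add_one β
    have hbg : ⌊β⌋₊ ≤ g := Nat.floor_le_of_le hβg
    refine ⟨fun i => if i.1 < ⌊β⌋₊ then 4 else 3, fun i => by dsimp only; split_ifs <;> simp, ?_, ?_⟩
    · rw [hgq _ hbg]
      push_cast
      linarith only [hb1, hβ]
    · rw [hgl _ hbg, l4]
      have hs := numeric_sqrt (a := 0.759) (b := 1.7568) hg0 hP.le (show ℓ ≤ 5 * P by linarith)
        (by norm_num) (by norm_num) (by norm_num)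
      push_cast
      have e1 : (β - ⌊β⌋₊) * (2 * Real.log 2 - Real.log 3) ≤ 1 * (1 / 3) := by
        rcases le_or_gt 0 (2 * Real.log 2 - Real.log 3) with h | h
        · exact mul_le_mul (by linarith) l43 h zero_le_one
        · have := mul_nonneg (show 0 ≤ β - ⌊β⌋₊ by linarith)
            (show 0 ≤ -(2 * Real.log 2 - Real.log 3) by linarith)
          linarith
      have e2 : 1.098607 * (g - β) ≤ Real.log 3 * (g - β) :=
        mul_le_mul_of_nonneg_right l3 (by linarith)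
      have e3 : 0.693147 * β ≤ Real.log 2 * β :=
        mul_le_mul_of_nonneg_right (by linarith) hβ0
      have e4 : (⌊β⌋₊ : ℝ) * (2 * Real.log 2) + (g - ⌊β⌋₊) * Real.log 3 =
          Real.log 3 * (g - β) + 2 * (Real.log 2 * β) -
            (β - ⌊β⌋₊) * (2 * Real.log 2 - Real.log 3) := by
        ring
      rw [e4]
      norm_num at e2 e3 hs hV h3 ⊢
      linarith only [e1, e2, e3, hs, hV, h3, hβ, hP2, hL2]
  · -- case 3
    refine ⟨fun i => if i.1 < g then 4 else 4, fun i => by dsimp only; split_ifs <;> simp, ?_, ?_⟩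
    · rw [hgq _ le_rfl]
      push_cast
      linarith
    · rw [hgl _ le_rfl, l4]
      have hs : Real.sqrt (4 * g * P * (ℓ - P) / 3) ≤ 1.133 * g := by
        rw [Real.sqrt_le_iff]
        refine ⟨by positivity, ?_⟩
        have e1 : 0 ≤ (g : ℝ) * (ℓ - 2 * P) ^ 2 := by positivity
        have e2 : (g : ℝ) * (0.26 * ℓ ^ 2) ≤ g * g := mul_le_mul_of_nonneg_left h3 hg0
        have e3 : 0 ≤ (g : ℝ) * g := by positivity
        norm_num at e2 ⊢
        nlinarith [e1, e2, e3]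
      have e5 : 0.693147 * (g : ℝ) ≤ Real.log 2 * g :=
        mul_le_mul_of_nonneg_right (by linarith) hg0
      norm_num at e5 hs h3 ⊢
      linarith

end Pool.Agent.W_420c7c_h88
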