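import Pool.Agent.W_420c7c_h88.Defs

set_option autoImplicit false

namespace Pool.Agent.W_420c7c_h88

open Complex

/-- the standard character -/
noncomputable def ps (k : ℕ) : AddChar (ZMod (2 ^ (k + 2))) ℂ := ZMod.stdAddChar

theorem ps_one (k : ℕ) : ps k 1 = zc k := by
  have h := ZMod.stdAddChar_coe (N := 2 ^ (k + 2)) 1
  unfold ps zc
  rw [Int.cast_one] at h
  rw [h]
  congr 1
  push_cast
  ring

theorem ps_nat (k n : ℕ) : ps k (n : ZMod (2 ^ (k + 2))) = zc k ^ n := by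
  rw [← ps_one, ← AddChar.map_nsmul_eq_pow, nsmul_one]

theorem ps_val (k : ℕ) (x : ZMod (2 ^ (k + 2))) : ps k x = zc k ^ x.val := by
  rw [← ps_nat, ZMod.natCast_zmod_val]

/-- half of the modulus -/
def hh (k : ℕ) : ZMod (2 ^ (k + 2)) := ((2 ^ (k + 1) : ℕ) : ZMod (2 ^ (k + 2)))

theorem zc_half (k : ℕ) : zc k ^ (2 ^ (k + 1)) = -1 := by
  unfold zc
  rw [← Complex.exp_nat_mul]
  have : ((2 ^ (k + 1) : ℕ) : ℂ) * (2 * Real.pi * I / (2 ^ (k + 2) : ℕ)) = Real.pi * I := by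
    push_cast
    have h2 : (2 : ℂ) ^ (k + 2) ≠ 0 := pow_ne_zero _ two_ne_zero
    field_simp
    ring
  rw [this, Complex.exp_pi_mul_I]

theorem ps_hh_mul (k : ℕ) (x : ZMod (2 ^ (k + 2))) : ps k (x * hh k) = (-1) ^ x.val := by
  have h1 : x * hh k = ((2 ^ (k + 1) * x.val : ℕ) : ZMod (2 ^ (k + 2))) := by
    unfold hh
    rw [Nat.cast_mul, ZMod.natCast_zmod_val, mul_comm]
  rw [h1, ps_nat, pow_mul, zc_half]

theorem isUnit_iff_odd (k : ℕ) (x : ZMod (2 ^ (k + 2))) : IsUnit x ↔ Odd x.val := by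
  have h1 : IsUnit x ↔ IsUnit ((x.val : ℕ) : ZMod (2 ^ (k + 2))) := by
    rw [ZMod.natCast_zmod_val]
  rw [h1, ZMod.isUnit_iff_coprime, Nat.coprime_pow_right_iff (by omega), Nat.coprime_two_right]

theorem ind_unit (k : ℕ) (x : ZMod (2 ^ (k + 2))) [Decidable (IsUnit x)] :
    (if IsUnit x then (1 : ℂ) else 0) = (1 - ps k (x * hh k)) / 2 := by
  rw [ps_hh_mul]
  by_cases h : IsUnit x
  · rw [if_pos h, ((isUnit_iff_odd k x).mp h).neg_one_pow]
    norm_num
  · rw [if_neg h]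
    have h2 : Even x.val := by
      rw [isUnit_iff_odd, Nat.not_odd_iff_even] at h
      exact h
    rw [h2.neg_one_pow]
    norm_num

theorem sum_units (k : ℕ) (F : ZMod (2 ^ (k + 2)) → ℂ) :
    ∑ u : (ZMod (2 ^ (k + 2)))ˣ, F u = ∑ x, (1 - ps k (x * hh k)) / 2 * F x := by
  classical
  have h1 : ∑ u : (ZMod (2 ^ (k + 2)))ˣ, F u =
      ∑ x ∈ Finset.univ.filter (fun x : ZMod (2 ^ (k + 2)) => IsUnit x), F x := by
    refine Finset.sum_bij (fun u _ => (u : ZMod (2 ^ (k + 2)))) ?_ ?_ ?_ ?_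
    · intro u _
      exact Finset.mem_filter.mpr ⟨Finset.mem_univ _, u.isUnit⟩
    · intro a _ b _ h
      exact Units.ext h
    · intro b hb
      obtain ⟨u, hu⟩ := (Finset.mem_filter.mp hb).2
      exact ⟨u, Finset.mem_univ _, hu⟩
    · intro u _
      rfl
  rw [h1, Finset.sum_filter]
  refine Finset.sum_congr rfl fun x _ => ?_
  rw [← ind_unit k x]
  split_ifs <;> ring

theorem hh_ne (k : ℕ) : hh k ≠ 0 := by
  intro h
  have h1 := ps_hh_mul k 1
  rw [h, mul_zero, AddChar.map_zero_eq_one] at h1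
  have h2 : (1 : ZMod (2 ^ (k + 2))).val = 1 := by
    have : Fact (1 < 2 ^ (k + 2)) := ⟨Nat.one_lt_two_pow (by omega)⟩
    exact ZMod.val_one _
  rw [h2] at h1
  norm_num at h1

theorem hh_sq (k : ℕ) : hh k * hh k = 0 := by
  unfold hh
  rw [← Nat.cast_mul, ← pow_add, ZMod.natCast_eq_zero_iff]
  exact pow_dvd_pow 2 (by omega)

theorem hh_add (k : ℕ) : hh k + hh k = 0 := by
  unfold hh
  rw [← Nat.cast_add, ZMod.natCast_eq_zero_iff]
  refine ⟨1, ?_⟩
  ring

theorem sum_units_ps (k : ℕ) (d : ZMod (2 ^ (k + 2))) :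
    ∑ u : (ZMod (2 ^ (k + 2)))ˣ, ps k (((u : ZMod (2 ^ (k + 2))) + hh k) * d) =
      if d = 0 then (2 : ℂ) ^ (k + 1) else if d = hh k then -(2 : ℂ) ^ (k + 1) else 0 := by
  have hprim : (ps k).IsPrimitive := ZMod.isPrimitive_stdAddChar _
  have h1 : ∀ e : ZMod (2 ^ (k + 2)), ∑ x, ps k (x * e) =
      if e = 0 then (2 : ℂ) ^ (k + 2) else 0 := by
    intro e
    rw [AddChar.sum_mulShift e hprim, ZMod.card]
    split_ifs <;> push_cast <;> rfl
  rw [sum_units k (fun x => ps k ((x + hh k) * d))]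
  have h2 : ∀ x : ZMod (2 ^ (k + 2)), (1 - ps k (x * hh k)) / 2 * ps k ((x + hh k) * d) =
      ps k (hh k * d) / 2 * (ps k (x * d) - ps k (x * (d + hh k))) := by
    intro x
    rw [add_mul, AddChar.map_add_eq_mul, mul_add, AddChar.map_add_eq_mul]
    ring
  simp only [h2]
  rw [← Finset.mul_sum, Finset.sum_sub_distrib, h1, h1]
  have h3 : d + hh k = 0 ↔ d = hh k := by
    constructor
    · intro h
      have := hh_add k
      calc d = d + (hh k + hh k) := by rw [this, add_zero]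
        _ = (d + hh k) + hh k := by ring
        _ = hh k := by rw [h, zero_add]
    · intro h
      rw [h]; exact hh_add k
  simp only [h3]
  by_cases hd : d = 0
  · rw [if_pos hd, if_pos hd, if_neg (by rw [hd]; exact (hh_ne k).symm), hd, mul_zero,
      AddChar.map_zero_eq_one]
    ring
  · rw [if_neg hd, if_neg hd]
    by_cases hd2 : d = hh k
    · rw [if_pos hd2, if_pos hd2, hd2, hh_sq, AddChar.map_zero_eq_one]
      ring
    · rw [if_neg hd2, if_neg hd2]
      ring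

theorem sum_units_re_le (k : ℕ) (d : ZMod (2 ^ (k + 2))) :
    ∑ u : (ZMod (2 ^ (k + 2)))ˣ, (ps k (((u : ZMod (2 ^ (k + 2))) + hh k) * d)).re ≤
      if d = 0 then (2 : ℝ) ^ (k + 1) else 0 := by
  have h := congrArg Complex.re (sum_units_ps k d)
  rw [Complex.re_sum] at h
  rw [h]
  have h2 : ((2 : ℂ) ^ (k + 1)).re = (2 : ℝ) ^ (k + 1) := by
    have : (2 : ℂ) ^ (k + 1) = (((2 : ℝ) ^ (k + 1) : ℝ) : ℂ) := by push_cast; rfl
    rw [this, Complex.ofReal_re]
  split_ifs with h3 h4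
  · exact h2.le
  · rw [Complex.neg_re, h2]
    have : (0 : ℝ) < 2 ^ (k + 1) := by positivity
    linarith
  · simp

theorem ps_re_mul (k : ℕ) (x y : ZMod (2 ^ (k + 2))) :
    (ps k x).re * (ps k y).re = ((ps k (x + y)).re + (ps k (x - y)).re) / 2 := by
  rw [sub_eq_add_neg, AddChar.map_add_eq_mul, AddChar.map_add_eq_mul,
    AddChar.map_neg_eq_conj (ps k) y, Complex.mul_re, Complex.mul_re, Complex.conj_re,
    Complex.conj_im]
  ring

theorem quad_le (k : ℕ) (c : ZMod (2 ^ (k + 2)) → ℝ) (hc : ∀ j, 0 ≤ c j) :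
    ∑ u : (ZMod (2 ^ (k + 2)))ˣ,
      (∑ j, c j * (ps k (((u : ZMod (2 ^ (k + 2))) + hh k) * j)).re) ^ 2 ≤
      2 ^ k * (∑ j, c j * c j + ∑ j, c j * c (-j)) := by
  have h1 : ∀ u : (ZMod (2 ^ (k + 2)))ˣ,
      (∑ j, c j * (ps k (((u : ZMod (2 ^ (k + 2))) + hh k) * j)).re) ^ 2 =
      ∑ j, ∑ l, c j * c l * (((ps k (((u : ZMod (2 ^ (k + 2))) + hh k) * (j + l))).re +
        (ps k (((u : ZMod (2 ^ (k + 2))) + hh k) * (j - l))).re) / 2) := by
    intro u
    rw [sq, Finset.sum_mul_sum]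
    refine Finset.sum_congr rfl fun j _ => Finset.sum_congr rfl fun l _ => ?_
    rw [mul_add, mul_sub, ← ps_re_mul]
    ring
  simp only [h1]
  rw [Finset.sum_comm]
  have h2 : ∀ j l : ZMod (2 ^ (k + 2)), ∑ u : (ZMod (2 ^ (k + 2)))ˣ,
      c j * c l * (((ps k (((u : ZMod (2 ^ (k + 2))) + hh k) * (j + l))).re +
        (ps k (((u : ZMod (2 ^ (k + 2))) + hh k) * (j - l))).re) / 2) ≤
      c j * c l * (((if j + l = 0 then (2 : ℝ) ^ (k + 1) else 0) +
        (if j - l = 0 then (2 : ℝ) ^ (k + 1) else 0)) / 2) := by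
    intro j l
    rw [← Finset.mul_sum]
    refine mul_le_mul_of_nonneg_left ?_ (mul_nonneg (hc j) (hc l))
    rw [← Finset.sum_div, Finset.sum_add_distrib]
    have := sum_units_re_le k (j + l)
    have := sum_units_re_le k (j - l)
    linarith
  calc ∑ j, ∑ u : (ZMod (2 ^ (k + 2)))ˣ, ∑ l, c j * c l *
        (((ps k (((u : ZMod (2 ^ (k + 2))) + hh k) * (j + l))).re +
        (ps k (((u : ZMod (2 ^ (k + 2))) + hh k) * (j - l))).re) / 2)
      = ∑ j, ∑ l, ∑ u : (ZMod (2 ^ (k + 2)))ˣ, c j * c l *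
        (((ps k (((u : ZMod (2 ^ (k + 2))) + hh k) * (j + l))).re +
        (ps k (((u : ZMod (2 ^ (k + 2))) + hh k) * (j - l))).re) / 2) :=
        Finset.sum_congr rfl fun j _ => Finset.sum_comm
    _ ≤ ∑ j, ∑ l, c j * c l * (((if j + l = 0 then (2 : ℝ) ^ (k + 1) else 0) +
        (if j - l = 0 then (2 : ℝ) ^ (k + 1) else 0)) / 2) :=
        Finset.sum_le_sum fun j _ => Finset.sum_le_sum fun l _ => h2 j l
    _ = 2 ^ k * (∑ j, c j * c j + ∑ j, c j * c (-j)) := by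
        rw [← Finset.sum_add_distrib, Finset.mul_sum]
        refine Finset.sum_congr rfl fun j _ => ?_
        have h3 : ∀ l : ZMod (2 ^ (k + 2)), c j * c l *
            (((if j + l = 0 then (2 : ℝ) ^ (k + 1) else 0) +
            (if j - l = 0 then (2 : ℝ) ^ (k + 1) else 0)) / 2) =
            (if l = -j then 2 ^ k * (c j * c (-j)) else 0) +
              (if l = j then 2 ^ k * (c j * c j) else 0) := by
          intro l
          have e1 : (j + l = 0) ↔ (l = -j) := by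
            exact ⟨fun h => eq_neg_of_add_eq_zero_right h, fun h => by rw [h, add_neg_cancel]⟩
          have e2 : (j - l = 0) ↔ (l = j) := by
            rw [sub_eq_zero]; exact eq_comm
          simp only [e1, e2]
          split_ifs with h4 h5 h5
          · rw [← h4, h5]; ring
          · rw [← h4]; ring
          · rw [h5]; ring
          · ring
        simp only [h3]
        rw [Finset.sum_add_distrib, Finset.sum_ite_eq', Finset.sum_ite_eq',
          if_pos (Finset.mem_univ _), if_pos (Finset.mem_univ _)]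
        ring

/-! ### the coefficients -/

/-- the modulus as a real number -/
noncomputable def RR (k : ℕ) : ℝ := 2 ^ (k + 2)

theorem RR_ge (k : ℕ) : 4 ≤ RR k := by
  unfold RR
  rw [pow_add]
  have : (1 : ℝ) ≤ 2 ^ k := one_le_pow₀ (by norm_num)
  linarith

theorem RR_pos (k : ℕ) : 0 < RR k := by linarith [RR_ge k]

/-- the radius -/
noncomputable def rho (k : ℕ) : ℝ := 1 - 1 / RR k ^ 2

theorem rho_pos (k : ℕ) : 0 < rho k := by
  unfold rho
  have h := RR_ge k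
  have h1 : 1 / RR k ^ 2 < 1 := by
    rw [div_lt_one (by positivity)]
    nlinarith
  linarith

theorem rho_lt (k : ℕ) : rho k < 1 := by
  unfold rho
  have h := RR_pos k
  have : 0 < 1 / RR k ^ 2 := by positivity
  linarith

/-- the coefficients of the logarithm -/
noncomputable def aa (k n : ℕ) : ℝ := rho k ^ n / n

theorem aa_nonneg (k n : ℕ) : 0 ≤ aa k n :=
  div_nonneg (pow_nonneg (rho_pos k).le _) (Nat.cast_nonneg _)

theorem aa_zero (k : ℕ) : aa k 0 = 0 := by simp [aa]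

theorem aa_summable (k : ℕ) : Summable (aa k) := by
  refine Summable.of_nonneg_of_le (aa_nonneg k) ?_
    (summable_geometric_of_lt_one (rho_pos k).le (rho_lt k))
  intro n
  unfold aa
  rcases Nat.eq_zero_or_pos n with h | h
  · subst h; simp
  · exact div_le_self (pow_nonneg (rho_pos k).le _) (by exact_mod_cast h)

/-- the folded coefficients -/
noncomputable def cc (k : ℕ) (j : ZMod (2 ^ (k + 2))) : ℝ :=
  ∑' m : ℕ, aa k (j.val + 2 ^ (k + 2) * m)

theorem cc_summable (k n : ℕ) : Summable (fun m : ℕ => aa k (n + 2 ^ (k + 2) * m)) := by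
  refine (aa_summable k).comp_injective (i := fun m : ℕ => n + 2 ^ (k + 2) * m) ?_
  intro a b h
  have h1 : 2 ^ (k + 2) * a = 2 ^ (k + 2) * b := Nat.add_left_cancel h
  exact Nat.eq_of_mul_eq_mul_left (by positivity) h1

theorem cc_nonneg (k : ℕ) (j : ZMod (2 ^ (k + 2))) : 0 ≤ cc k j :=
  tsum_nonneg fun _ => aa_nonneg k _

theorem neg_log_eq (k : ℕ) (x : ZMod (2 ^ (k + 2))) :
    -Real.log ‖1 - (rho k : ℂ) * ps k x‖ = ∑ j, cc k j * (ps k (x * j)).re := by
  have hn : ‖(rho k : ℂ) * ps k x‖ < 1 := by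
    rw [norm_mul, AddChar.norm_apply, mul_one, Complex.norm_real, Real.norm_eq_abs,
      abs_of_pos (rho_pos k)]
    exact rho_lt k
  have h := Complex.hasSum_re (Complex.hasSum_taylorSeries_neg_log hn)
  rw [Complex.neg_re, Complex.log_re] at h
  have h3 : ∀ n : ℕ, (((rho k : ℂ) * ps k x) ^ n / n).re =
      aa k n * (ps k (x * (n : ZMod (2 ^ (k + 2))))).re := by
    intro n
    have e1 : ps k (x * (n : ZMod (2 ^ (k + 2)))) = ps k x ^ n := by
      rw [← AddChar.map_nsmul_eq_pow, nsmul_eq_mul, mul_comm]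
    have e2 : ((rho k : ℂ) * ps k x) ^ n / n = ((aa k n : ℝ) : ℂ) * ps k x ^ n := by
      unfold aa
      push_cast
      ring
    rw [e1, e2, Complex.re_ofReal_mul]
  simp only [h3] at h
  rw [← h.tsum_eq, Nat.sumByResidueClasses h.summable (2 ^ (k + 2))]
  refine Finset.sum_congr rfl fun j _ => ?_
  have h4 : ∀ m : ℕ, aa k (j.val + 2 ^ (k + 2) * m) *
      (ps k (x * ((j.val + 2 ^ (k + 2) * m : ℕ) : ZMod (2 ^ (k + 2))))).re =
      aa k (j.val + 2 ^ (k + 2) * m) * (ps k (x * j)).re := by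
    intro m
    have e3 : ((j.val + 2 ^ (k + 2) * m : ℕ) : ZMod (2 ^ (k + 2))) = j := by
      rw [Nat.cast_add, ZMod.natCast_zmod_val, Nat.cast_mul, ZMod.natCast_self, zero_mul,
        add_zero]
    rw [e3]
  simp only [h4]
  rw [tsum_mul_right]
  rfl

/-- the tail of the coefficients -/
noncomputable def dl (k : ℕ) : ℝ := cc k 0

/-- the main part of the coefficients -/
noncomputable def gg (k : ℕ) (j : ZMod (2 ^ (k + 2))) : ℝ := 1 / (j.val : ℝ)

theorem gg_nonneg (k : ℕ) (j : ZMod (2 ^ (k + 2))) : 0 ≤ gg k j := by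
  unfold gg; positivity

theorem cc_le (k : ℕ) (j : ZMod (2 ^ (k + 2))) : cc k j ≤ gg k j + dl k := by
  have h1 : ∀ m : ℕ, aa k (j.val + 2 ^ (k + 2) * m) ≤
      (if m = 0 then gg k j else 0) + aa k ((0 : ZMod (2 ^ (k + 2))).val + 2 ^ (k + 2) * m) := by
    intro m
    rw [ZMod.val_zero, zero_add]
    rcases Nat.eq_zero_or_pos m with h | h
    · subst h
      rw [if_pos rfl, mul_zero, add_zero, aa_zero, add_zero]
      unfold aa gg
      exact div_le_div_of_nonneg_right (pow_le_one₀ (rho_pos k).le (rho_lt k).le)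
        (Nat.cast_nonneg _)
    · rw [if_neg (by omega), zero_add]
      unfold aa
      have hp : 0 < 2 ^ (k + 2) * m := Nat.mul_pos (by positivity) h
      refine div_le_div₀ (pow_nonneg (rho_pos k).le _)
        (pow_le_pow_of_le_one (rho_pos k).le (rho_lt k).le (Nat.le_add_left _ _))
        (by exact_mod_cast hp) (by exact_mod_cast Nat.le_add_left _ _)
  have hs : Summable (fun m : ℕ => if m = 0 then gg k j else 0) :=
    summable_of_ne_finset_zero (s := {0}) (fun m hm => if_neg (by simpa using hm))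
  have hs2 := cc_summable k (0 : ZMod (2 ^ (k + 2))).val
  calc cc k j ≤ ∑' m : ℕ, ((if m = 0 then gg k j else 0) +
        aa k ((0 : ZMod (2 ^ (k + 2))).val + 2 ^ (k + 2) * m)) :=
        Summable.tsum_le_tsum h1 (cc_summable k j.val) (hs.add hs2)
    _ = gg k j + dl k := by
        rw [hs.tsum_add hs2, tsum_ite_eq]
        rfl

theorem dl_nonneg (k : ℕ) : 0 ≤ dl k := cc_nonneg k 0

theorem dl_le (k : ℕ) : dl k ≤ 2 * Real.log (RR k) / RR k := by
  have hr0 := rho_pos k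
  have hr1 := rho_lt k
  have hR := RR_pos k
  have hpow1 : rho k ^ (2 ^ (k + 2)) < 1 := pow_lt_one₀ hr0.le hr1 (by positivity)
  have hpow0 : 0 < rho k ^ (2 ^ (k + 2)) := by positivity
  have h1 := Real.hasSum_pow_div_log_of_abs_lt_one (x := rho k ^ (2 ^ (k + 2)))
    (by rw [abs_of_pos hpow0]; exact hpow1)
  have h2 : dl k = -Real.log (1 - rho k ^ (2 ^ (k + 2))) / RR k := by
    unfold dl cc
    rw [(cc_summable k _).tsum_eq_zero_add]
    have e0 : aa k ((0 : ZMod (2 ^ (k + 2))).val + 2 ^ (k + 2) * 0) = 0 := by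
      rw [ZMod.val_zero, mul_zero, add_zero, aa_zero]
    rw [e0, zero_add, ← h1.tsum_eq, ← tsum_div_const]
    refine tsum_congr fun m => ?_
    rw [ZMod.val_zero, zero_add]
    unfold aa RR
    rw [← pow_mul]
    push_cast
    rw [div_div, mul_comm ((m : ℝ) + 1)]
  rw [h2]
  refine div_le_div_of_nonneg_right ?_ hR.le
  have h3 : 1 / RR k ^ 2 ≤ 1 - rho k ^ (2 ^ (k + 2)) := by
    have : rho k ^ (2 ^ (k + 2)) ≤ rho k := by
      calc rho k ^ (2 ^ (k + 2)) ≤ rho k ^ 1 :=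
            pow_le_pow_of_le_one hr0.le hr1.le (Nat.one_le_two_pow)
        _ = rho k := pow_one _
    have h4 : rho k = 1 - 1 / RR k ^ 2 := rfl
    linarith
  have h5 : Real.log (1 / RR k ^ 2) ≤ Real.log (1 - rho k ^ (2 ^ (k + 2))) :=
    Real.log_le_log (by positivity) h3
  rw [one_div, Real.log_inv, Real.log_pow] at h5
  push_cast at h5
  linarith

theorem sum_gg_eq (k : ℕ) (f : ℕ → ℝ) :
    ∑ j : ZMod (2 ^ (k + 2)), f j.val = ∑ n ∈ Finset.range (2 ^ (k + 2)), f n := by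
  refine Finset.sum_bij (fun j _ => j.val) ?_ ?_ ?_ ?_
  · intro j _
    exact Finset.mem_range.mpr (ZMod.val_lt j)
  · intro a _ b _ h
    exact ZMod.val_injective _ h
  · intro b hb
    exact ⟨(b : ZMod (2 ^ (k + 2))), Finset.mem_univ _,
      ZMod.val_cast_of_lt (Finset.mem_range.mp hb)⟩
  · intro j _
    rfl

theorem sum_gg_le (k : ℕ) : ∑ j, gg k j ≤ 1 + Real.log (RR k) := by
  have h1 : ∑ j, gg k j = ∑ n ∈ Finset.range (2 ^ (k + 2)), 1 / (n : ℝ) :=
    sum_gg_eq k (fun n => 1 / (n : ℝ))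
  rw [h1]
  have h2 := harmonic_le_one_add_log (2 ^ (k + 2))
  have h3 : ((harmonic (2 ^ (k + 2)) : ℚ) : ℝ) =
      ∑ n ∈ Finset.range (2 ^ (k + 2)), 1 / ((n : ℝ) + 1) := by
    unfold harmonic
    push_cast
    refine Finset.sum_congr rfl fun n _ => ?_
    rw [one_div]
  have h4 : ∑ n ∈ Finset.range (2 ^ (k + 2)), 1 / (n : ℝ) ≤
      ∑ n ∈ Finset.range (2 ^ (k + 2)), 1 / ((n : ℝ) + 1) := by
    have e1 : ∑ n ∈ Finset.range (2 ^ (k + 2)), 1 / (n : ℝ) ≤
        ∑ n ∈ Finset.range (2 ^ (k + 2) + 1), 1 / (n : ℝ) :=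
      Finset.sum_le_sum_of_subset_of_nonneg
        (Finset.range_mono (Nat.le_succ _)) (fun i _ _ => by positivity)
    have e2 := Finset.sum_range_succ' (fun n : ℕ => 1 / (n : ℝ)) (2 ^ (k + 2))
    rw [e2] at e1
    simpa using e1
  have h5 : ((2 ^ (k + 2) : ℕ) : ℝ) = RR k := by unfold RR; push_cast; rfl
  rw [h3, h5] at h2
  linarith

theorem sum_gg_sq_le (k : ℕ) : ∑ j, gg k j ^ 2 ≤ Real.pi ^ 2 / 6 := by
  have h1 : ∑ j, gg k j ^ 2 = ∑ n ∈ Finset.range (2 ^ (k + 2)), 1 / (n : ℝ) ^ 2 := by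
    rw [← sum_gg_eq k (fun n => 1 / (n : ℝ) ^ 2)]
    refine Finset.sum_congr rfl fun j _ => ?_
    unfold gg
    rw [div_pow, one_pow]
  rw [h1]
  exact sum_le_hasSum _ (fun i _ => by positivity) hasSum_zeta_two

theorem gg_mul_neg (k : ℕ) (j : ZMod (2 ^ (k + 2))) :
    gg k j * gg k (-j) = (gg k j + gg k (-j)) / RR k := by
  unfold gg
  by_cases hj : j = 0
  · subst hj
    simp
  · rw [ZMod.neg_val, if_neg hj]
    have h1 : j.val < 2 ^ (k + 2) := ZMod.val_lt j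
    have h2 : 0 < j.val := Nat.pos_of_ne_zero ((ZMod.val_eq_zero j).not.mpr hj)
    have h3 : (((2 ^ (k + 2) - j.val : ℕ)) : ℝ) = RR k - (j.val : ℝ) := by
      rw [Nat.cast_sub h1.le]
      unfold RR
      push_cast
      rfl
    have h4 : (0 : ℝ) < (j.val : ℝ) := by exact_mod_cast h2
    have h5 : (0 : ℝ) < RR k - (j.val : ℝ) := by
      rw [← h3]
      exact_mod_cast Nat.sub_pos_of_lt h1
    have h6 := RR_pos k
    rw [h3]
    field_simp
    ring

/-- the bound for the quadratic form -/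
noncomputable def EE (R : ℝ) : ℝ :=
  Real.pi ^ 2 / 6 + 8 * (Real.log R * (1 + Real.log R)) / R + 8 * Real.log R ^ 2 / R +
    2 * (1 + Real.log R) / R

theorem cc_quad (k : ℕ) : ∑ j, cc k j * cc k j + ∑ j, cc k j * cc k (-j) ≤ EE (RR k) := by
  have hR := RR_pos k
  have hR4 := RR_ge k
  have hL : 0 ≤ Real.log (RR k) := Real.log_nonneg (by linarith)
  have hd0 := dl_nonneg k
  have hd1 := dl_le k
  set L := Real.log (RR k) with hLdef
  set R := RR k with hRdef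
  set δ := dl k with hδ
  have hH := sum_gg_le k
  have hS := sum_gg_sq_le k
  have hH0 : 0 ≤ ∑ j, gg k j := Finset.sum_nonneg fun j _ => gg_nonneg k j
  have hneg : ∑ j, gg k (-j) = ∑ j, gg k j :=
    Fintype.sum_equiv (Equiv.neg _) _ _ (fun j => rfl)
  have hcard : (∑ _j : ZMod (2 ^ (k + 2)), δ ^ 2) = R * δ ^ 2 := by
    rw [Finset.sum_const, Finset.card_univ, ZMod.card, nsmul_eq_mul]
    congr 1
    rw [hRdef]
    unfold RR
    push_cast
    rfl
  have h1 : ∑ j, cc k j * cc k j ≤ ∑ j, gg k j ^ 2 + 2 * δ * ∑ j, gg k j + R * δ ^ 2 := by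
    rw [← hcard, Finset.mul_sum, ← Finset.sum_add_distrib, ← Finset.sum_add_distrib]
    refine Finset.sum_le_sum fun j _ => ?_
    have e1 := cc_le k j
    have e2 := cc_nonneg k j
    calc cc k j * cc k j ≤ (gg k j + δ) * (gg k j + δ) := mul_le_mul e1 e1 e2 (e2.trans e1)
      _ = _ := by ring
  have h2 : ∑ j, cc k j * cc k (-j) ≤
      (∑ j, gg k j + ∑ j, gg k (-j)) / R + δ * (∑ j, gg k j + ∑ j, gg k (-j)) + R * δ ^ 2 := by
    rw [← hcard, ← Finset.sum_add_distrib, Finset.sum_div, Finset.mul_sum,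
      ← Finset.sum_add_distrib, ← Finset.sum_add_distrib]
    refine Finset.sum_le_sum fun j _ => ?_
    have e1 := cc_le k j
    have e2 := cc_nonneg k j
    have e3 := cc_le k (-j)
    have e4 := cc_nonneg k (-j)
    calc cc k j * cc k (-j) ≤ (gg k j + δ) * (gg k (-j) + δ) := mul_le_mul e1 e3 e4 (e2.trans e1)
      _ = gg k j * gg k (-j) + δ * (gg k j + gg k (-j)) + δ ^ 2 := by ring
      _ = _ := by rw [gg_mul_neg]
  rw [hneg] at h2
  have h3 : δ * ∑ j, gg k j ≤ 2 * L / R * (1 + L) :=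
    mul_le_mul hd1 hH hH0 (by positivity)
  have h4 : R * δ ^ 2 ≤ R * (2 * L / R) ^ 2 := by
    refine mul_le_mul_of_nonneg_left ?_ hR.le
    exact pow_le_pow_left₀ hd0 hd1 2
  have h5 : R * (2 * L / R) ^ 2 = 4 * L ^ 2 / R := by
    field_simp
    ring
  have h6 : (∑ j, gg k j + ∑ j, gg k j) / R ≤ (1 + L + (1 + L)) / R :=
    div_le_div_of_nonneg_right (add_le_add hH hH) hR.le
  have h7 : EE R = Real.pi ^ 2 / 6 + 4 * (2 * L / R * (1 + L)) + 2 * (4 * L ^ 2 / R) +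
      (1 + L + (1 + L)) / R := by
    unfold EE
    rw [← hLdef]
    ring
  rw [h7]
  rw [h5] at h4
  linarith

/-! ### from `ρ w` to `w` -/

theorem norm_one_sub_ge (k : ℕ) (x : ZMod (2 ^ (k + 2))) (hx : x ≠ 0) :
    1 / RR k ≤ ‖1 - ps k x‖ := by
  by_contra hcon
  push Not at hcon
  have hR := RR_pos k
  have hprim : (ps k).IsPrimitive := ZMod.isPrimitive_stdAddChar _
  have hsum : ∑ m ∈ Finset.range (2 ^ (k + 2)), ps k x ^ m = 0 := by
    have h1 : ∑ y, ps k (y * x) = 0 := by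
      rw [AddChar.sum_mulShift x hprim, if_neg hx]; simp
    rw [← h1]
    symm
    refine Finset.sum_bij (fun j _ => j.val) ?_ ?_ ?_ ?_
    · intro j _
      exact Finset.mem_range.mpr (ZMod.val_lt j)
    · intro a _ b _ h
      exact ZMod.val_injective _ h
    · intro b hb
      exact ⟨(b : ZMod (2 ^ (k + 2))), Finset.mem_univ _,
        ZMod.val_cast_of_lt (Finset.mem_range.mp hb)⟩
    · intro j _
      rw [← AddChar.map_nsmul_eq_pow, nsmul_eq_mul, ZMod.natCast_zmod_val]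
  have hre : ∀ m ∈ Finset.range (2 ^ (k + 2)), 0 < (ps k x ^ m).re := by
    intro m hm
    have hm' : m < 2 ^ (k + 2) := Finset.mem_range.mp hm
    have h1 : ‖1 - ps k x ^ m‖ ≤ m * ‖1 - ps k x‖ := by
      rw [← mul_neg_geom_sum, norm_mul, mul_comm]
      refine mul_le_mul_of_nonneg_right ?_ (norm_nonneg _)
      refine (norm_sum_le _ _).trans ?_
      refine le_of_eq ?_
      simp only [norm_pow, AddChar.norm_apply, one_pow, Finset.sum_const, Finset.card_range,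
        nsmul_eq_mul, mul_one]
    have h2 : (m : ℝ) * ‖1 - ps k x‖ < 1 := by
      have h3 : (m : ℝ) ≤ RR k := by
        unfold RR
        exact_mod_cast hm'.le
      calc (m : ℝ) * ‖1 - ps k x‖ ≤ RR k * ‖1 - ps k x‖ :=
            mul_le_mul_of_nonneg_right h3 (norm_nonneg _)
        _ < RR k * (1 / RR k) := mul_lt_mul_of_pos_left hcon hR
        _ = 1 := by field_simp
    have h4 : (1 - ps k x ^ m).re ≤ ‖1 - ps k x ^ m‖ := Complex.re_le_norm _
    rw [Complex.sub_re, Complex.one_re] at h4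
    linarith
  have hpos : 0 < ∑ m ∈ Finset.range (2 ^ (k + 2)), (ps k x ^ m).re :=
    Finset.sum_pos hre ⟨0, Finset.mem_range.mpr (by positivity)⟩
  rw [← Complex.re_sum, hsum] at hpos
  simp at hpos

theorem norm_sq_rho (k : ℕ) (x : ZMod (2 ^ (k + 2))) :
    ‖1 - (rho k : ℂ) * ps k x‖ ^ 2 = (1 - rho k) ^ 2 + rho k * ‖1 - ps k x‖ ^ 2 := by
  have h1 : ‖ps k x‖ = 1 := AddChar.norm_apply _ _
  have h2 : (ps k x).re ^ 2 + (ps k x).im ^ 2 = 1 := by
    have := Complex.sq_norm (ps k x)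
    rw [h1, Complex.normSq_apply] at this
    nlinarith
  rw [Complex.sq_norm, Complex.sq_norm, Complex.normSq_apply, Complex.normSq_apply]
  simp only [Complex.sub_re, Complex.one_re, Complex.re_ofReal_mul, Complex.sub_im,
    Complex.one_im, Complex.im_ofReal_mul]
  linear_combination (rho k ^ 2 - rho k) * h2

theorem log_diff (k : ℕ) (x : ZMod (2 ^ (k + 2))) (hx : x ≠ 0) :
    0 ≤ Real.log ‖1 - ps k x‖ - Real.log ‖1 - (rho k : ℂ) * ps k x‖ ∧
    Real.log ‖1 - ps k x‖ - Real.log ‖1 - (rho k : ℂ) * ps k x‖ ≤ 1 / RR k := by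
  have hR := RR_pos k
  have hR4 := RR_ge k
  have hr0 := rho_pos k
  have hr1 := rho_lt k
  have hge := norm_one_sub_ge k x hx
  have hA : 0 < ‖1 - ps k x‖ := lt_of_lt_of_le (by positivity) hge
  have hsq := norm_sq_rho k x
  have hrho : 1 - rho k = 1 / RR k ^ 2 := by unfold rho; ring
  have hB2 : rho k * ‖1 - ps k x‖ ^ 2 ≤ ‖1 - (rho k : ℂ) * ps k x‖ ^ 2 := by
    rw [hsq]; nlinarith [sq_nonneg (1 - rho k)]
  have hB : 0 < ‖1 - (rho k : ℂ) * ps k x‖ ^ 2 := lt_of_lt_of_le (by positivity) hB2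
  have hle : ‖1 - (rho k : ℂ) * ps k x‖ ^ 2 ≤ ‖1 - ps k x‖ ^ 2 := by
    have h1 : 1 / RR k ^ 2 ≤ ‖1 - ps k x‖ ^ 2 := by
      have := pow_le_pow_left₀ (by positivity) hge 2
      rwa [div_pow, one_pow] at this
    rw [hsq]
    rw [← hrho] at h1
    nlinarith
  have l1 : Real.log (‖1 - (rho k : ℂ) * ps k x‖ ^ 2) =
      2 * Real.log ‖1 - (rho k : ℂ) * ps k x‖ := by rw [Real.log_pow]; push_cast; rfl
  have l2 : Real.log (‖1 - ps k x‖ ^ 2) = 2 * Real.log ‖1 - ps k x‖ := by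
    rw [Real.log_pow]; push_cast; rfl
  constructor
  · have h := Real.log_le_log hB hle
    rw [l1, l2] at h
    linarith
  · have h := Real.log_le_log (by positivity) hB2
    rw [Real.log_mul hr0.ne' (by positivity), l1, l2] at h
    have h3 := Real.one_sub_inv_le_log_of_pos hr0
    have h4 : -(2 / RR k) ≤ 1 - (rho k)⁻¹ := by
      have e1 : (rho k)⁻¹ = RR k ^ 2 / (RR k ^ 2 - 1) := by
        unfold rho
        have : RR k ^ 2 - 1 ≠ 0 := by nlinarith
        field_simp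
      rw [e1]
      have e2 : 0 < RR k ^ 2 - 1 := by nlinarith
      have e3 : 1 - RR k ^ 2 / (RR k ^ 2 - 1) = -(1 / (RR k ^ 2 - 1)) := by
        field_simp
        ring
      rw [e3, neg_le_neg_iff, div_le_div_iff₀ e2 hR]
      nlinarith
    have h5 : 2 * (1 / RR k) = 2 / RR k := by ring
    linarith

theorem one_add_zc (k : ℕ) (x : ZMod (2 ^ (k + 2))) :
    1 + zc k ^ x.val = 1 - ps k (x + hh k) := by
  have h : ps k (hh k) = -1 := by
    unfold hh
    rw [ps_nat, zc_half]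
  rw [AddChar.map_add_eq_mul, h, ← ps_val]
  ring

theorem unit_add_ne (k : ℕ) (u : (ZMod (2 ^ (k + 2)))ˣ) :
    (u : ZMod (2 ^ (k + 2))) + hh k ≠ 0 := by
  intro h
  have h1 : (u : ZMod (2 ^ (k + 2))) = hh k := by
    have h2 := hh_add k
    calc (u : ZMod (2 ^ (k + 2))) = u + (hh k + hh k) := by rw [h2, add_zero]
      _ = (u + hh k) + hh k := by ring
      _ = hh k := by rw [h, zero_add]
  have h3 : IsUnit (hh k) := by rw [← h1]; exact u.isUnit
  have h4 := hh_sq k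
  have h5 := hh_ne k
  exact h5 ((h3.mul_right_eq_zero).mp h4)

theorem card_units (k : ℕ) : (∑ _u : (ZMod (2 ^ (k + 2)))ˣ, (1 : ℝ)) = 2 ^ (k + 1) := by
  rw [Finset.sum_const, Finset.card_univ, ZMod.card_units_eq_totient,
    Nat.totient_prime_pow Nat.prime_two (by omega)]
  simp

theorem qs_le (k : ℕ) :
    qs k ≤ ((1 + 1 / RR k) * (EE (RR k) / 2) + (1 / RR k + (1 / RR k) ^ 2)) * 2 ^ (k + 1) := by
  have hR := RR_pos k
  set θ := 1 / RR k with hθ
  have hθ0 : 0 < θ := by positivity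
  have hquad := quad_le k (cc k) (cc_nonneg k)
  have hcq := cc_quad k
  have h1 : ∀ u : (ZMod (2 ^ (k + 2)))ˣ,
      (Real.log ‖1 + zc k ^ (u : ZMod (2 ^ (k + 2))).val‖) ^ 2 ≤
      (1 + θ) * (∑ j, cc k j * (ps k (((u : ZMod (2 ^ (k + 2))) + hh k) * j)).re) ^ 2 +
        (θ + θ ^ 2) * 1 := by
    intro u
    rw [one_add_zc, ← neg_log_eq, neg_sq]
    obtain ⟨d0, d1⟩ := log_diff k _ (unit_add_ne k u)
    set A := Real.log ‖1 - ps k ((u : ZMod (2 ^ (k + 2))) + hh k)‖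
    set B := Real.log ‖1 - (rho k : ℂ) * ps k ((u : ZMod (2 ^ (k + 2))) + hh k)‖
    have h2 : A = B + (A - B) := by ring
    set D := A - B
    rw [h2]
    have h3 : 2 * B * D ≤ θ * B ^ 2 + θ := by
      have e1 : 2 * B * D ≤ θ * B ^ 2 + D ^ 2 / θ := by
        have : 0 ≤ (θ * B - D) ^ 2 / θ := by positivity
        have e2 : (θ * B - D) ^ 2 / θ = θ * B ^ 2 - 2 * B * D + D ^ 2 / θ := by
          field_simp
          ring
        linarith
      have e3 : D ^ 2 / θ ≤ θ := by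
        rw [div_le_iff₀ hθ0]
        nlinarith
      linarith
    have h4 : D ^ 2 ≤ θ ^ 2 := pow_le_pow_left₀ d0 d1 2
    nlinarith
  unfold qs
  refine (Finset.sum_le_sum fun u _ => h1 u).trans ?_
  rw [Finset.sum_add_distrib, ← Finset.mul_sum, ← Finset.mul_sum, card_units]
  have h5 : (1 + θ) * ∑ u : (ZMod (2 ^ (k + 2)))ˣ,
      (∑ j, cc k j * (ps k (((u : ZMod (2 ^ (k + 2))) + hh k) * j)).re) ^ 2 ≤
      (1 + θ) * (2 ^ k * EE (RR k)) := by
    refine mul_le_mul_of_nonneg_left ?_ (by positivity)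
    exact hquad.trans (mul_le_mul_of_nonneg_left hcq (by positivity))
  have h6 : (1 + θ) * (2 ^ k * EE (RR k)) = (1 + θ) * (EE (RR k) / 2) * 2 ^ (k + 1) := by
    rw [pow_succ]; ring
  rw [h6] at h5
  linarith

theorem EE_tendsto : Filter.Tendsto EE Filter.atTop (nhds (Real.pi ^ 2 / 6)) := by
  have h1 := Real.tendsto_pow_log_div_mul_add_atTop 1 0 1 one_ne_zero
  have h2 := Real.tendsto_pow_log_div_mul_add_atTop 1 0 2 one_ne_zero
  have h0 : Filter.Tendsto (fun x : ℝ => 1 / x) Filter.atTop (nhds 0) := by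
    simpa using tendsto_inv_atTop_zero (𝕜 := ℝ)
  have h3 : Filter.Tendsto (fun R : ℝ => Real.pi ^ 2 / 6 +
      10 * (Real.log R ^ 1 / (1 * R + 0)) + 16 * (Real.log R ^ 2 / (1 * R + 0)) +
      2 * (1 / R)) Filter.atTop (nhds (Real.pi ^ 2 / 6 + 10 * 0 + 16 * 0 + 2 * 0)) :=
    ((tendsto_const_nhds.add (h1.const_mul 10)).add (h2.const_mul 16)).add (h0.const_mul 2)
  have h4 : (Real.pi ^ 2 / 6 + 10 * 0 + 16 * 0 + 2 * 0 : ℝ) = Real.pi ^ 2 / 6 := by ring
  rw [h4] at h3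
  refine h3.congr fun R => ?_
  unfold EE
  ring

theorem RR_tendsto : Filter.Tendsto RR Filter.atTop Filter.atTop := by
  unfold RR
  exact (tendsto_pow_atTop_atTop_of_one_lt (by norm_num : (1 : ℝ) < 2)).comp
    (Filter.tendsto_add_atTop_nat 2)

theorem coef_tendsto : Filter.Tendsto
    (fun R : ℝ => (1 + 1 / R) * (EE R / 2) + (1 / R + (1 / R) ^ 2)) Filter.atTop
    (nhds (Real.pi ^ 2 / 12)) := by
  have h0 : Filter.Tendsto (fun x : ℝ => 1 / x) Filter.atTop (nhds 0) := by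
    simpa using tendsto_inv_atTop_zero (𝕜 := ℝ)
  have h1 : Filter.Tendsto
      (fun R : ℝ => (1 + 1 / R) * (EE R / 2) + (1 / R + (1 / R) ^ 2)) Filter.atTop
      (nhds ((1 + 0) * (Real.pi ^ 2 / 6 / 2) + (0 + 0 ^ 2))) :=
    ((tendsto_const_nhds.add h0).mul (EE_tendsto.div_const 2)).add (h0.add (h0.pow 2))
  have h2 : ((1 + 0) * (Real.pi ^ 2 / 6 / 2) + (0 + 0 ^ 2) : ℝ) = Real.pi ^ 2 / 12 := by ring
  rwa [h2] at h1

/-- **The mean square of `log |1 + ζ^u|` over the odd residues `u` modulo `r = 2^(k+2)` is at most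
`π²/12 + ε`.**  (Numerically it increases to `π²/12`.)

PROOF.  `1 + ζ^u = 1 - ζ^(u + r/2)`, and `u + r/2` runs through the odd residues too (`k ≥ 1`), so
replace `1 + ζ^u` by `1 - ζ^u`.  Let `0 < ρ < 1`, `ρ = 1 - 1/r^2`.  For `|w| = 1`:
`-log |1 - ρ w| = ∑_{j ≥ 1} ρ^j Re(w^j)/j` (absolutely convergent, `Complex.hasSum_taylorSeries_neg_log`
or `Real`/`Complex` log series).  Group the exponents modulo `r`: for `w = ζ^u`,
`-log(1 - ρ ζ^u) = ∑_{j mod r} c_j ζ^(u j)` with `c_j = ∑_{m ≡ j, m ≥ 1} ρ^m / m ≥ 0`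
(representatives `1 ≤ j ≤ r`), so
`-log |1 - ρ ζ^u| = (1/2) ∑_j c_j (ζ^(u j) + ζ^(-u j))`.
Orthogonality over odd `u`: `∑_{u odd} ζ^(u d) = r/2` if `d = 0`, `-r/2` if `d = r/2`, `0` otherwise
(`d` mod `r`).  So, all `c_j` being non negative,
`∑_{u odd} log^2 |1 - ρ ζ^u| ≤ (r/4) (∑_j c_j^2 + ∑_j c_j c_{-j})`
(indices mod `r`; expand the square `(1/4) ∑_{j,l} c_j c_l (ζ^(uj) + ζ^(-uj)) (ζ^(ul) + ζ^(-ul))`
and drop the negative terms).
`c_j ≤ 1/j + c_r` for `1 ≤ j ≤ r` and `c_r = ∑_m ρ^(m r)/(m r) = (1/r) log(1/(1 - ρ^r)) ≤ (1/r) log(r^2)`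
(as `ρ^r ≤ ρ`).  Hence `∑ c_j^2 ≤ π²/6 + O(log² r / r)` and
`∑_j c_j c_{-j} = 2 ... ≤ O(log² r / r)` (`∑_{0<j<r} 1/(j (r - j)) = (2/r) H_{r-1}`).
So `∑_{u odd} log^2|1 - ρ ζ^u| ≤ (r/4)(π²/6 + o(1)) = (r/2) (π²/12 + o(1))`, and `r/2 = 2^(k+1)`.
Finally `|1 - ρ ζ^u|^2 = (1 - ρ)^2 + ρ |1 - ζ^u|^2` gives, as `|1 - ζ^u| ≥ 4/r`,
`|log|1 - ζ^u| - log|1 - ρ ζ^u|| ≤ 1/r`, so by Minkowski (or `(a+b)^2 ≤ (1+η) a^2 + (1+1/η) b^2`) the
sum of squares changes by `o(r)`.

Any other proof of the bound is welcome (for example: midpoint sums of the function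
`log^2(2 cos π x)` on `(0, 1/2)`, which is decreasing on `(0,1/3)` and increasing on `(1/3,1/2)`, and
`∫_0^{1/2} log^2(2 cos π x) dx = π²/24`; or Gauss' finite Fourier expansion
`-log |1 - ζ^u| = ∑_j c_j cos(2 π u j/r)` with `c_j = (ψ(1) - ψ(j/r))/r ≥ 0`). -/
theorem qs_bound (ε : ℝ) (hε : 0 < ε) :
    ∃ k0 : ℕ, ∀ k : ℕ, k0 ≤ k → qs k ≤ (Real.pi ^ 2 / 12 + ε) * 2 ^ (k + 1) := by
  have h := coef_tendsto.comp RR_tendsto
  have h2 : ∀ᶠ k : ℕ in Filter.atTop,
      ((1 + 1 / RR k) * (EE (RR k) / 2) + (1 / RR k + (1 / RR k) ^ 2)) <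
        Real.pi ^ 2 / 12 + ε :=
    h.eventually_lt_const (by linarith)
  obtain ⟨k0, hk0⟩ := Filter.eventually_atTop.mp h2
  refine ⟨k0, fun k hk => (qs_le k).trans ?_⟩
  exact mul_le_mul_of_nonneg_right (hk0 k hk).le (by positivity)

end Pool.Agent.W_420c7c_h88
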