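import Pool.Agent.W_420c7c_h88.Count
import Pool.Agent.W_420c7c_h88.QBound
import Pool.Agent.W_420c7c_h88.Hexagon
import Pool.Agent.W_420c7c_h88.Numeric

set_option autoImplicit false
open Polynomial

namespace Pool.Agent.W_420c7c_h88

theorem card_box {g : ℕ} (κ : Fin g → ℕ) : (box κ).card = ∏ i, κ i := by
  simp [box, Fintype.card_piFinset]

theorem log_card_box {g : ℕ} (κ : Fin g → ℕ) (hκ : ∀ i, 2 ≤ κ i ∧ κ i ≤ 4) :
    Real.log ((box κ).card : ℝ) = ∑ i, Real.log (κ i) := by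
  rw [card_box]
  push_cast
  rw [Real.log_prod]
  intro i _
  have := (hκ i).1
  positivity

/-- the choice of the exponent of two -/
theorem exists_k {n : ℕ} (hl : 10 ≤ Real.log n) :
    ∃ k : ℕ, ((2 ^ (k + 2) : ℕ) : ℝ) ≤ (Real.logb 2 (n : ℝ)) ^ 2 ∧
      0.26 * (Real.log n) ^ 2 ≤ ((2 ^ k : ℕ) : ℝ) ∧
      ((2 ^ k : ℕ) : ℝ) ≤ 0.5204 * (Real.log n) ^ 2 := by
  have h1 := Real.log_two_gt_d9
  have h2 := Real.log_two_lt_d9
  have hl2 : 0 < Real.log 2 := by linarith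
  have hlogb : (Real.logb 2 (n : ℝ)) ^ 2 = (Real.log n) ^ 2 / (Real.log 2) ^ 2 := by
    rw [Real.logb, div_pow]
  set x := (Real.logb 2 (n : ℝ)) ^ 2 with hx
  have hlow : (Real.log n) ^ 2 * 2 ≤ x := by
    rw [hlogb, le_div_iff₀ (by positivity)]
    have : (Real.log 2) ^ 2 ≤ 0.5 := by nlinarith
    nlinarith [sq_nonneg (Real.log n)]
  have hx4 : 4 ≤ x := by nlinarith
  have hf : 4 ≤ ⌊x⌋₊ := Nat.le_floor (by exact_mod_cast hx4)
  set K := Nat.log 2 ⌊x⌋₊ with hK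
  have hK2 : 2 ≤ K := by
    rw [hK]
    exact Nat.le_log_of_pow_le (by norm_num) (by simpa using hf)
  have hKl : 2 ^ K ≤ ⌊x⌋₊ := Nat.pow_log_le_self 2 (by omega)
  have hKu : ⌊x⌋₊ < 2 ^ (K + 1) := Nat.lt_pow_succ_log_self (by norm_num) _
  obtain ⟨k, hk⟩ : ∃ k, K = k + 2 := ⟨K - 2, by omega⟩
  rw [hk] at hKl hKu
  have hxl : ((2 ^ (k + 2) : ℕ) : ℝ) ≤ x :=
    le_trans (by exact_mod_cast hKl) (Nat.floor_le (by positivity))
  have hxu : x < ((2 ^ (k + 2 + 1) : ℕ) : ℝ) := by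
    have := Nat.lt_of_floor_lt hKu
    exact_mod_cast this
  refine ⟨k, hxl, ?_, ?_⟩
  · have h3 : x < 8 * ((2 ^ k : ℕ) : ℝ) := by
      refine lt_of_lt_of_eq hxu ?_
      push_cast; ring
    rw [hlogb, div_lt_iff₀ (by positivity)] at h3
    have h4 : (Real.log 2) ^ 2 ≤ 0.480454 := by nlinarith
    have h5 : (0 : ℝ) < ((2 ^ k : ℕ) : ℝ) := by positivity
    nlinarith
  · have h3 : 4 * ((2 ^ k : ℕ) : ℝ) ≤ x := by
      refine le_trans (le_of_eq ?_) hxl
      push_cast; ring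
    rw [hlogb, le_div_iff₀ (by positivity)] at h3
    have h4 : 0.4804529 ≤ (Real.log 2) ^ 2 := by nlinarith
    have h5 : (0 : ℝ) < ((2 ^ k : ℕ) : ℝ) := by positivity
    nlinarith

/-- the parameter inequality -/
theorem param_ineq (k : ℕ) (P : ℝ) (hP : 1000 ≤ P)
    (hq : qs k ≤ (Real.pi ^ 2 / 12 + 1 / 10000) * 2 ^ (k + 1)) :
    2 / Real.sqrt 3 * (1000 : ℕ) *
      Real.sqrt (2 ^ (k + 1) * ((1 + 1 / 1000) *
        (36 / Real.pi ^ 2 * (99 / 100) * P ^ 2) * qs k)) <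
      (((1000 : ℕ) : ℝ) - 1) * (2 ^ (k + 1) * (2 * P - 5 * Real.log 2)) := by
  have hpi := Real.pi_gt_three
  have hpi2 : 9 < Real.pi ^ 2 := by nlinarith
  have h3 : 0 < Real.sqrt 3 := by positivity
  have hA : 2 ^ (k + 1) * ((1 + 1 / 1000) *
        (36 / Real.pi ^ 2 * (99 / 100) * P ^ 2) * qs k) ≤
      (2 ^ (k + 1) * P * (Real.sqrt 3 * 0.9957)) ^ 2 := by
    have h1 : (2 : ℝ) ^ (k + 1) * ((1 + 1 / 1000) *
        (36 / Real.pi ^ 2 * (99 / 100) * P ^ 2) * qs k) ≤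
        2 ^ (k + 1) * ((1 + 1 / 1000) *
        (36 / Real.pi ^ 2 * (99 / 100) * P ^ 2) *
          ((Real.pi ^ 2 / 12 + 1 / 10000) * 2 ^ (k + 1))) := by
      gcongr
    refine h1.trans ?_
    have h2 : (2 : ℝ) ^ (k + 1) * ((1 + 1 / 1000) *
        (36 / Real.pi ^ 2 * (99 / 100) * P ^ 2) *
          ((Real.pi ^ 2 / 12 + 1 / 10000) * 2 ^ (k + 1))) =
        (2 ^ (k + 1) * P) ^ 2 * ((1 + 1 / 1000) * (99 / 100) *
          (3 + 36 / 10000 / Real.pi ^ 2)) := by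
      field_simp
      ring
    have h4 : (2 ^ (k + 1) * P * (Real.sqrt 3 * 0.9957)) ^ 2 =
        (2 ^ (k + 1) * P) ^ 2 * (3 * 0.9957 ^ 2) := by
      rw [mul_pow, mul_pow (Real.sqrt 3), Real.sq_sqrt (by norm_num)]
    rw [h2, h4]
    refine mul_le_mul_of_nonneg_left ?_ (by positivity)
    have h5 : 36 / 10000 / Real.pi ^ 2 ≤ 0.0004 := by
      rw [div_le_iff₀ (by positivity)]; nlinarith
    nlinarith
  have hB : Real.sqrt (2 ^ (k + 1) * ((1 + 1 / 1000) *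
        (36 / Real.pi ^ 2 * (99 / 100) * P ^ 2) * qs k)) ≤
      2 ^ (k + 1) * P * (Real.sqrt 3 * 0.9957) := by
    refine (Real.sqrt_le_sqrt hA).trans ?_
    rw [Real.sqrt_sq (by positivity)]
  have hC : 2 / Real.sqrt 3 * (1000 : ℕ) * (2 ^ (k + 1) * P * (Real.sqrt 3 * 0.9957)) =
      2 ^ (k + 1) * (1991.4 * P) := by
    field_simp
    push_cast
    ring
  have hl2 : Real.log 2 ≤ 0.7 := by have := Real.log_two_lt_d9; linarith
  calc _ ≤ 2 / Real.sqrt 3 * (1000 : ℕ) * (2 ^ (k + 1) * P * (Real.sqrt 3 * 0.9957)) :=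
        mul_le_mul_of_nonneg_left hB (by positivity)
    _ = 2 ^ (k + 1) * (1991.4 * P) := hC
    _ < 2 ^ (k + 1) * (((1000 : ℕ) : ℝ) - 1) * (2 * P - 5 * Real.log 2) := by
        rw [mul_assoc]
        refine mul_lt_mul_of_pos_left ?_ (by positivity)
        push_cast
        nlinarith
    _ = _ := by ring

theorem main : ∃ N0 : ℕ, ∀ n : ℕ, N0 ≤ n → CondC n →
    ∀ p : ℕ, p.Prime → p ∣ n → p < n → n ≤ p ^ 5 →
      (p % 8 = 1 ∨ p % 8 = 7) ∧ ((n / p) % 8 = 1 ∨ (n / p) % 8 = 7) := by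
  obtain ⟨N1, hN1⟩ := Pool.Agent.W_MP_420c7c_nt.squarefree_of_cond
  obtain ⟨L0, hL0⟩ := numeric
  obtain ⟨k0, hk0⟩ := qs_bound (1 / 10000) (by norm_num)
  obtain ⟨N2, hN2⟩ := exists_nat_ge (Real.exp (max (max L0 10000) (2 ^ k0)))
  refine ⟨max N1 (N2 + 1), fun n hn hC p hp hpn hpltn hp5 => ?_⟩
  have hsq := hN1 n ((le_max_left _ _).trans hn) hC
  have hn0 : 0 < n := by
    have := (le_max_right N1 (N2 + 1)).trans hn
    omega
  have hnR : (0 : ℝ) < n := by exact_mod_cast hn0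
  set ℓ := Real.log n with hℓ
  have hlog : max (max L0 10000) (2 ^ k0) ≤ ℓ := by
    rw [hℓ, Real.le_log_iff_exp_le hnR]
    refine hN2.trans ?_
    have := (le_max_right N1 (N2 + 1)).trans hn
    exact_mod_cast (by omega : N2 ≤ n)
  have hlL0 : L0 ≤ ℓ := ((le_max_left _ _).trans (le_max_left _ _)).trans hlog
  have hl4 : (10000 : ℝ) ≤ ℓ := ((le_max_right _ _).trans (le_max_left _ _)).trans hlog
  have hlk : (2 : ℝ) ^ k0 ≤ ℓ := (le_max_right _ _).trans hlog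
  obtain ⟨m, rfl⟩ := hpn
  have hp0 : 0 < p := hp.pos
  have hm1 : 1 < m := by
    rcases Nat.lt_or_ge 1 m with h | h
    · exact h
    · exfalso
      interval_cases m
      · simp at hn0
      · simp at hpltn
  have hodd : Odd (p * m) := by
    rw [← Nat.not_even_iff_odd]
    intro he
    have h2 : p * m = 2 := by
      refine Pool.Agent.W_MP_420c7c_nt.even_eq_two ?_ (hC 2 (by norm_num) ?_) he
      · nlinarith [hp.two_le]
      · have h1 := Real.log_two_lt_d9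
        have h2 := Real.log_two_gt_d9
        have h3 : (2 : ℝ) ≤ Real.logb 2 ((p * m : ℕ) : ℝ) := by
          rw [Real.logb, le_div_iff₀ (by linarith)]
          change _ ≤ ℓ
          linarith
        push_cast at h3 ⊢
        nlinarith
    have h3 : 2 * 2 ≤ p * m := Nat.mul_le_mul hp.two_le hm1
    omega
  have hmo : Odd m := (Nat.odd_mul.1 hodd).2
  have hpo : Odd p := (Nat.odd_mul.1 hodd).1
  have hp2 : p ≠ 2 := by
    rintro rfl
    exact (by decide : ¬ Odd 2) hpo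
  rw [Nat.mul_div_cancel_left m hp0]
  by_contra hcon8
  have hcase : (p % 8 = 3 ∨ p % 8 = 5) ∨ (m % 8 = 3 ∨ m % 8 = 5) := by
    rw [Nat.odd_iff] at hpo hmo
    omega
  have hpm : ¬ p ∣ m := by
    intro h
    have h1 : p * p ∣ p * m := Nat.mul_dvd_mul_left p h
    have := hsq p h1
    exact hp.one_lt.ne' (Nat.isUnit_iff.1 this)
  have hind : ∀ a b : ℕ, 0 < a → p ^ a ≠ m ^ b := by
    intro a b ha h
    have h1 : p ∣ m ^ b := by rw [← h]; exact dvd_pow_self p ha.ne'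
    exact hpm (hp.dvd_of_dvd_pow h1)
  -- the parameters
  set P := Real.log p with hPdef
  set M := Real.log m with hMdef
  have hPM : ℓ = P + M := by
    rw [hℓ]; push_cast
    rw [Real.log_mul (by positivity) (by positivity)]
  have hM0 : 0 ≤ M := Real.log_nonneg (by exact_mod_cast hm1.le)
  have hP5 : ℓ / 5 ≤ P := by
    have h1 : ℓ ≤ Real.log ((p : ℝ) ^ 5) :=
      Real.log_le_log hnR (by exact_mod_cast hp5)
    rw [Real.log_pow] at h1
    push_cast at h1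
    linarith
  have hPl : P ≤ ℓ := by linarith
  obtain ⟨k, hk1, hk2, hk3⟩ := exists_k (n := p * m) (by
    change 10 ≤ ℓ; linarith)
  obtain ⟨κ, hκ, hκV, hκL⟩ := hL0 ℓ P (2 ^ k) hlL0 hP5 hPl hk2 hk3
  have hk2' : 0.26 * ℓ ^ 2 ≤ (2 : ℝ) ^ k := by
    have h := hk2
    rw [← hℓ] at h
    rw [Nat.cast_pow, Nat.cast_ofNat] at h
    exact h
  have hk3' : (2 : ℝ) ^ k ≤ 0.5204 * ℓ ^ 2 := by
    have h := hk3
    rw [← hℓ] at h
    rw [Nat.cast_pow, Nat.cast_ofNat] at h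
    exact h
  have hkk0 : k0 ≤ k := by
    by_contra h
    push Not at h
    have h1 : (2 : ℝ) ^ k ≤ 2 ^ k0 := pow_le_pow_right₀ (by norm_num) h.le
    nlinarith
  have hq := hk0 k hkk0
  -- the field
  haveI : Fact p.Prime := ⟨hp⟩
  let F := AlgebraicClosure (ZMod p)
  haveI : CharP F p := charP_of_injective_algebraMap (algebraMap (ZMod p) F).injective p
  have h2F : (2 : F) ≠ 0 := by
    intro h
    have h1 : ((2 : ℕ) : F) = 0 := by exact_mod_cast h
    rw [CharP.cast_eq_zero_iff F p] at h1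
    exact hp2 ((Nat.prime_dvd_prime_iff_eq hp Nat.prime_two).1 h1)
  haveI : NeZero ((2 ^ (k + 2) : ℕ) : F) := ⟨by push_cast; exact pow_ne_zero _ h2F⟩
  obtain ⟨z, hz⟩ := HasEnoughRootsOfUnity.exists_primitiveRoot F (2 ^ (k + 2))
  have hIn : Intro z (p * m) := intro_n hC (dvd_mul_right p m) (r := 2 ^ (k + 2))
    (Nat.one_le_two_pow) hk1 hz.pow_eq_one
  have hIp : Intro z p := intro_p z
  have hIm : Intro z m := intro_div hIn
  obtain ⟨u0, hu8, hI0⟩ : ∃ u0 : ℕ, (u0 % 8 = 3 ∨ u0 % 8 = 5) ∧ Intro z u0 := by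
    rcases hcase with h | h
    · exact ⟨p, h, hIp⟩
    · exact ⟨m, h, hIm⟩
  -- the upper bound
  obtain ⟨u, v, hvu, ⟨iu, ju, hu⟩, ⟨iv, jv, hv⟩, hmod, hlogu⟩ :=
    exists_pair k hp hp2 hm1 hmo hind
  have hIu : Intro z u := by rw [hu]; exact intro_mul (intro_pow hIp _) (intro_pow hIm _)
  have hIv : Intro z v := by rw [hv]; exact intro_mul (intro_pow hIp _) (intro_pow hIm _)
  have hcount := count_bound p k hp hz hu8 hI0 κ hκ (2 ^ (k + 2) * (u - v))
    (fun S => by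
      classical
      convert card_values_le k h2F hz hIu hIv hvu hmod S)
    (36 / Real.pi ^ 2 * (99 / 100) * P ^ 2) hκV 1000 (by norm_num) (1 / 1000) (by norm_num)
    (param_ineq k P (by linarith) hq)
  -- logarithms
  have hboxpos : (0 : ℝ) < (box κ).card := by
    rw [card_box]; push_cast
    refine Finset.prod_pos fun i _ => ?_
    have := (hκ i).1
    positivity
  have hupos : (0 : ℝ) < u := by
    have : 0 < u := by omega
    exact_mod_cast this
  have hle : ((box κ).card : ℝ) ≤ 1000000 * (2 ^ (k + 2) * 2 ^ (k + 2) * u) := by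
    have h1 : (((2 ^ (k + 2) * (u - v) : ℕ)) : ℝ) ≤ 2 ^ (k + 2) * u := by
      push_cast [Nat.cast_sub hvu.le]
      have : (0 : ℝ) ≤ v := by positivity
      have h2 : (0 : ℝ) < 2 ^ (k + 2) := by positivity
      nlinarith
    have h3 : (0 : ℝ) < 2 ^ (k + 2) := by positivity
    have h4 : (((2 ^ (k + 2) * (u - v) : ℕ)) : ℝ) * 2 ^ (k + 2) ≤
        2 ^ (k + 2) * 2 ^ (k + 2) * u := by nlinarith
    have h5 : (0 : ℝ) ≤ (((2 ^ (k + 2) * (u - v) : ℕ)) : ℝ) * 2 ^ (k + 2) := by positivity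
    push_cast at hcount h4 h5 ⊢
    nlinarith
  have hlogle := Real.log_le_log hboxpos hle
  rw [log_card_box κ hκ, Real.log_mul (by norm_num) (by positivity),
    Real.log_mul (by positivity) (by positivity), Real.log_mul (by positivity) (by positivity),
    Real.log_pow] at hlogle
  have hlm : Real.log 1000000 ≤ 14 := by
    rw [Real.log_le_iff_le_exp (by norm_num)]
    have h4 : (2.7182818283 : ℝ) < Real.exp 1 := Real.exp_one_gt_d9
    have h5 : Real.exp 14 = (Real.exp 1) ^ 14 := by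
      rw [← Real.exp_nat_mul]; norm_num
    rw [h5]
    calc (1000000 : ℝ) ≤ (2.7182818283 : ℝ) ^ 14 := by norm_num
      _ ≤ _ := pow_le_pow_left₀ (by norm_num) h4.le 14
  have hkl : ((k + 2 : ℕ) : ℝ) * Real.log 2 ≤ 1 + 2 * ℓ := by
    have h1 : ((k + 2 : ℕ) : ℝ) * Real.log 2 = Real.log ((2 : ℝ) ^ (k + 2)) := by
      rw [Real.log_pow]
    rw [h1]
    have h2 : (2 : ℝ) ^ (k + 2) ≤ 2.1 * ℓ ^ 2 := by
      rw [pow_add]
      nlinarith [sq_nonneg ℓ]
    have h3 : Real.log (2.1 * ℓ ^ 2) = Real.log 2.1 + 2 * Real.log ℓ := by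
      rw [Real.log_mul (by norm_num) (by positivity), Real.log_pow]; norm_num
    have h4 : Real.log 2.1 ≤ 1.1 := by
      have := Real.log_le_sub_one_of_pos (x := 2.1) (by norm_num)
      linarith
    have h5 : Real.log ℓ ≤ ℓ - 1 := Real.log_le_sub_one_of_pos (by linarith)
    have := Real.log_le_log (by positivity) h2
    linarith
  have hsqrt : 2 * Real.sqrt (2 ^ k * P * M / 3) =
      Real.sqrt (4 * ((2 ^ k : ℕ) : ℝ) * P * (ℓ - P) / 3) := by
    have h1 : 4 * ((2 ^ k : ℕ) : ℝ) * P * (ℓ - P) / 3 = 2 ^ 2 * (2 ^ k * P * M / 3) := by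
      rw [hPM]; push_cast; ring
    rw [h1, Real.sqrt_mul (by norm_num), Real.sqrt_sq (by norm_num)]
  have h14 : 2 * (Real.sqrt (2 ^ k * P * M / 3) + P + M) =
      Real.sqrt (4 * ((2 ^ k : ℕ) : ℝ) * P * (ℓ - P) / 3) + 2 * ℓ := by
    rw [← hsqrt, hPM]; ring
  have h13 : Real.log u ≤ Real.sqrt (4 * ((2 ^ k : ℕ) : ℝ) * P * (ℓ - P) / 3) + 2 * ℓ := by
    rw [← h14]; exact hlogu
  have h15 := hκL.trans hlogle
  nlinarith

end Pool.Agent.W_420c7c_h88
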