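import Pool.Agent.W_420c7c_h88.Intro

set_option autoImplicit false
open Polynomial

namespace Pool.Agent.W_420c7c_h88

/-- One factor. -/
theorem factor_pow_eq_one {F : Type*} [Field F] (k : ℕ) {z : F}
    (hz : IsPrimitiveRoot z (2 ^ (k + 2))) {u v : ℕ} (hu : Intro z u) (hv : Intro z v)
    (huv : v < u)
    (hmod : (u : ZMod (2 ^ (k + 2))) = v ∨ (u : ZMod (2 ^ (k + 2))) = -v)
    (i : ℕ) : (1 + z ^ (2 * i + 1)) ^ (2 ^ (k + 2) * (u - v)) = 1 := by
  set N := 2 ^ (k + 2) with hN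
  set a := 2 * i + 1 with ha
  have hzN : z ^ N = 1 := hz.pow_eq_one
  have hw : 1 + z ^ a ≠ 0 := by
    intro h0
    have h1 : z ^ a = -1 := by
      rw [eq_neg_iff_add_eq_zero, add_comm]; exact h0
    have h2 : z ^ (a * 2) = 1 := by rw [pow_mul, h1]; ring
    have h3 : N ∣ a * 2 := hz.dvd_of_pow_eq_one _ h2
    have h4 : 4 ∣ a * 2 := by
      refine dvd_trans ?_ h3
      rw [hN, pow_add]
      exact Dvd.intro_left _ rfl
    omega
  have hsub : u = (u - v) + v := by omega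
  have hwv : (1 + z ^ a) ^ v ≠ 0 := pow_ne_zero _ hw
  rcases hmod with h | h
  · have h1 : u ≡ v [MOD N] := (ZMod.natCast_eq_natCast_iff u v N).1 h
    have h2 : z ^ (a * u) = z ^ (a * v) := by
      rw [mul_comm a u, mul_comm a v, pow_mul, pow_mul, pow_eq_pow_of_modEq h1 hzN]
    have h3 : (1 + z ^ a) ^ u = (1 + z ^ a) ^ v := by rw [hu a, hv a, h2]
    have h4 : (1 + z ^ a) ^ (u - v) = 1 := by
      have h5 : (1 + z ^ a) ^ (u - v) * (1 + z ^ a) ^ v = 1 * (1 + z ^ a) ^ v := by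
        rw [← pow_add, ← hsub, h3, one_mul]
      exact mul_right_cancel₀ hwv h5
    rw [mul_comm N, pow_mul, h4, one_pow]
  · have h1 : N ∣ u + v := by
      rw [← CharP.cast_eq_zero_iff (ZMod N) N (u + v)]
      push_cast
      rw [h]
      ring
    have h2 : z ^ (a * u) * z ^ (a * v) = 1 := by
      rw [← pow_add, ← mul_add, mul_comm a, pow_mul]
      obtain ⟨c, hc⟩ := h1
      rw [hc, pow_mul z N c, hzN, one_pow, one_pow]
    have h3 : (1 + z ^ a) ^ u * z ^ (a * v) = (1 + z ^ a) ^ v := by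
      rw [hu a, hv a, add_mul, h2, one_mul, add_comm]
    have h4 : (1 + z ^ a) ^ (u - v) * z ^ (a * v) = 1 := by
      have h5 : ((1 + z ^ a) ^ (u - v) * z ^ (a * v)) * (1 + z ^ a) ^ v = 1 * (1 + z ^ a) ^ v := by
        rw [one_mul]
        conv_rhs => rw [← h3]
        rw [mul_right_comm, ← pow_add, ← hsub]
      exact mul_right_cancel₀ hwv h5
    have h6 := congrArg (fun t => t ^ N) h4
    simp only [mul_pow, one_pow] at h6
    rw [← pow_mul z (a * v) N, mul_comm (a * v) N, pow_mul z N, hzN, one_pow, mul_one,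
      ← pow_mul] at h6
    rw [mul_comm N]
    exact h6

/-- PROOF.  It is enough to treat one factor `w = 1 + z^a`, `a = 2 i + 1` odd.
`w ≠ 0`: otherwise `z^a = -1`, so `z^(2 a) = 1`, so `2^(k+2) ∣ 2 a`, impossible for odd `a`.
By `hu`, `hv`: `w^u = 1 + z^(a u)`, `w^v = 1 + z^(a v)`.
If `u = v` mod `2^(k+2)` then `z^(a u) = z^(a v)`, so `w^u = w^v`, so `w^(u-v) = 1`.
If `u = -v` then `z^(a u) * z^(a v) = 1`, so
`w^u * z^(a v) = z^(a v) + 1 = w^v`, so `w^(u-v) * z^(a v) = 1`, and the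
`2^(k+2)`-th power of this gives the claim. -/
theorem val_pow_eq_one {F : Type*} [Field F] (k : ℕ) {z : F} (h2 : (2 : F) ≠ 0)
    (hz : IsPrimitiveRoot z (2 ^ (k + 2))) {u v : ℕ} (hu : Intro z u) (hv : Intro z v)
    (huv : v < u)
    (hmod : (u : ZMod (2 ^ (k + 2))) = v ∨ (u : ZMod (2 ^ (k + 2))) = -v)
    {g : ℕ} (e : Fin g → ℕ) : val z e ^ (2 ^ (k + 2) * (u - v)) = 1 := by
  unfold val
  rw [← Finset.prod_pow]
  refine Finset.prod_eq_one fun i _ => ?_
  rw [← pow_mul, mul_comm (e i), pow_mul,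
    factor_pow_eq_one k hz hu hv huv hmod (i : ℕ), one_pow]

open Classical in
/-- PROOF.  By `val_pow_eq_one` all values are roots of `X^N - 1`, `N = 2^(k+2) * (u - v) ≥ 1`;
use `Polynomial.nthRoots`, `Polynomial.card_nthRoots`. -/
theorem card_values_le {F : Type*} [Field F] (k : ℕ) {z : F} (h2 : (2 : F) ≠ 0)
    (hz : IsPrimitiveRoot z (2 ^ (k + 2))) {u v : ℕ} (hu : Intro z u) (hv : Intro z v)
    (huv : v < u)
    (hmod : (u : ZMod (2 ^ (k + 2))) = v ∨ (u : ZMod (2 ^ (k + 2))) = -v)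
    {g : ℕ} (S : Finset (Fin g → ℕ)) : (S.image (val z)).card ≤ 2 ^ (k + 2) * (u - v) := by
  have hpos : 0 < 2 ^ (k + 2) * (u - v) := Nat.mul_pos (by positivity) (by omega)
  have hsub : S.image (val z) ⊆ (nthRoots (2 ^ (k + 2) * (u - v)) (1 : F)).toFinset := by
    intro y hy
    obtain ⟨e, _, rfl⟩ := Finset.mem_image.1 hy
    rw [Multiset.mem_toFinset, mem_nthRoots hpos]
    exact val_pow_eq_one k h2 hz hu hv huv hmod e
  exact (Finset.card_le_card hsub).trans
    ((Multiset.toFinset_card_le _).trans (card_nthRoots _ _))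

end Pool.Agent.W_420c7c_h88
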